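import Pool.Agent.Lib.MP_4be2f9_h65.Syl

/-!
# MP_4be2f9 (helper65): a small `β` with no common eigenvalues in different degrees
-/

set_option autoImplicit false

open scoped ComplexConjugate Matrix Topology
open Complex Filter

namespace Pool.Agent.SG65

noncomputable section

variable {N n n' : ℕ}

theorem an_exp (c : ℂ) (s₀ : ℝ) : AnalyticAt ℝ (fun s : ℝ => cexp (c * s)) s₀ := by
  have h1 : AnalyticAt ℝ (fun s : ℝ => (c * (s : ℂ))) s₀ :=
    analyticAt_const.mul (Complex.ofRealCLM.analyticAt s₀)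
  have h2 : AnalyticAt ℝ cexp (c * (s₀ : ℂ)) := analyticAt_cexp.restrictScalars (𝕜 := ℝ)
  exact AnalyticAt.comp (f := fun s : ℝ => (c * (s : ℂ))) (g := cexp) h2 h1

theorem an_rho (hN : 0 < N) (a : ℝ) (i j : Fin N) (s₀ : ℝ) :
    AnalyticAt ℝ (fun s : ℝ => rho (ev N) (a * s) i j) s₀ := by
  have h : (fun s : ℝ => rho (ev N) (a * s) i j) = fun s : ℝ => cexp ((-(a : ℂ) * I) * s) *
      ((if i = j then 1 else 0) + (cexp (((N : ℂ) * a * I) * s) - 1) * (N : ℂ)⁻¹) := by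
    funext s
    rw [rho_ev_apply hN, div_eq_mul_inv]
    have e1 : -((a * s : ℝ) : ℂ) * I = (-(a : ℂ) * I) * s := by push_cast; ring
    have e2 : (N : ℂ) * ((a * s : ℝ) : ℂ) * I = ((N : ℂ) * a * I) * s := by push_cast; ring
    rw [e1, e2]
  rw [h]
  exact (an_exp _ _).mul (analyticAt_const.add
    (((an_exp _ _).sub analyticAt_const).mul analyticAt_const))

theorem an_An (hN : 0 < N) (z : Fin N → ℂ) (κ : ℝ) (L : ℕ) (u v : W n N) (s₀ : ℝ) :
    AnalyticAt ℝ (fun β : ℝ => An n z κ L β u v) s₀ := by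
  have h1 : (fun β : ℝ => An n z κ L β u v) = fun β : ℝ =>
      ((κ : ℂ) • (1 : Matrix (W n N) (W n N) ℂ) + (tp n (Matrix.diagonal z) +
        (tp n (Matrix.diagonal z))ᴴ)) u v +
      ∑ l ∈ Finset.range L, (tp n (rho (ev N) ((l + 1 : ℝ) * β)) u v +
        tp n (rho (ev N) (-(l + 1 : ℝ) * β)) u v) := by
    funext β
    rw [An, Matrix.add_apply, Matrix.sum_apply]
    congr 1
    refine Finset.sum_congr rfl fun l _ => ?_
    rw [Matrix.add_apply, neg_mul]
  rw [h1]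
  refine analyticAt_const.add (Finset.analyticAt_fun_sum _ fun l _ => ?_)
  exact (Finset.analyticAt_fun_prod _ fun t _ => an_rho hN _ _ _ _).add
    (Finset.analyticAt_fun_prod _ fun t _ => an_rho hN _ _ _ _)

/-- pairs of words with the same letter counts -/
def Rl (n n' N : ℕ) (a b : W n N × W n' N) : Prop :=
  (∀ i, cnt a.1 i = cnt b.1 i) ∧ ∀ i, cnt a.2 i = cnt b.2 i

/-- the analytic function whose zeros are the `β` with a common eigenvalue -/
def Dn (n n' : ℕ) (z : Fin N → ℂ) (κ : ℝ) (L : ℕ) (β : ℝ) : ℂ :=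
  Dm (Bm (An n z κ L β) (An n' z κ L β)) (Rl n n' N)

theorem common_iff (z : Fin N → ℂ) (κ : ℝ) (L : ℕ) (β : ℝ) :
    Common n n' z κ L β ↔ Dn n n' z κ L β = 0 := by
  rw [Dn, Dm_zero_iff (Bm_herm (An_isHermitian n z κ L β) (An_isHermitian n' z κ L β))]
  constructor
  · rintro ⟨c, F, F', hF, hF0, hF', hF0', h, h'⟩
    obtain ⟨h1, h2⟩ := ker_of_common hF0 hF0' h h'
    exact ⟨_, h1, h2, fun a b hab => by
      rw [hF _ _ hab.1, hF' _ _ hab.2]⟩
  · rintro ⟨G, hG, hB, hr⟩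
    obtain ⟨c, F, F', hF, hF0, hF', hF0', h, h'⟩ := common_of_ker (An_isHermitian n z κ L β)
      (Sy n N) (Sy n' N) hG hB
      (fun u' => fun u v huv => hr (u, u') (v, u') ⟨huv, fun _ => rfl⟩)
      (fun u => fun u' v' huv => hr (u, u') (u, v') ⟨fun _ => rfl, huv⟩)
    exact ⟨c, F, F', hF, hF0, hF', hF0', h, h'⟩

theorem an_det {κ : Type} [Fintype κ] [DecidableEq κ] (M : ℝ → Matrix κ κ ℂ) (s₀ : ℝ)
    (h : ∀ i j, AnalyticAt ℝ (fun s => M s i j) s₀) : AnalyticAt ℝ (fun s => (M s).det) s₀ := by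
  simp only [Matrix.det_apply']
  exact Finset.analyticAt_fun_sum _ fun σ _ => analyticAt_const.mul
    (Finset.analyticAt_fun_prod _ fun i _ => h _ _)

theorem an_Dn (hN : 0 < N) (z : Fin N → ℂ) (κ : ℝ) (L : ℕ) (s₀ : ℝ) :
    AnalyticAt ℝ (fun β => Dn n n' z κ L β) s₀ := by
  unfold Dn Dm
  refine an_det _ _ fun a b => ?_
  have hB : ∀ a b : W n N × W n' N,
      AnalyticAt ℝ (fun β => Bm (An n z κ L β) (An n' z κ L β) a b) s₀ := by
    intro a b
    unfold Bm
    exact ((an_An hN z κ L _ _ _).mul analyticAt_const).sub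
      (analyticAt_const.mul (an_An hN z κ L _ _ _))
  have h1 : (fun β => (Bm (An n z κ L β) (An n' z κ L β) * Bm (An n z κ L β) (An n' z κ L β) +
      (Em (Rl n n' N))ᴴ * Em (Rl n n' N)) a b) = fun β =>
      (∑ c, Bm (An n z κ L β) (An n' z κ L β) a c * Bm (An n z κ L β) (An n' z κ L β) c b) +
      ((Em (Rl n n' N))ᴴ * Em (Rl n n' N)) a b := by
    funext β
    rw [Matrix.add_apply, Matrix.mul_apply]
  rw [h1]
  exact (Finset.analyticAt_fun_sum _ fun c _ => (hB _ _).mul (hB _ _)).add analyticAt_const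

theorem not_common_eventually (hN : 2 ≤ N) {z : Fin N → ℂ} (hz : Gen z) (κ : ℝ) {L : ℕ}
    (hL : 0 < L) (hlt : n < n') (hn : ∃ p, n = 1 + N * p) (hn' : ∃ p, n' = 1 + N * p) (β₀ : ℝ) :
    ∀ᶠ β in 𝓝[≠] β₀, Dn n n' z κ L β ≠ 0 := by
  by_contra hcon
  rw [Filter.not_eventually] at hcon
  have hcon' : ∃ᶠ β in 𝓝[≠] β₀, Dn n n' z κ L β = 0 := hcon.mono fun β h => not_not.mp h
  have han : AnalyticOnNhd ℝ (fun β => Dn n n' z κ L β) Set.univ :=
    fun s _ => an_Dn (by omega) z κ L s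
  have h0 := han.eqOn_zero_of_preconnected_of_frequently_eq_zero isPreconnected_univ
    (Set.mem_univ β₀) hcon'
  obtain ⟨β, hβ⟩ := (not_common_near_zero hN hz κ hL hlt hn hn').exists
  exact hβ ((common_iff z κ L β).mpr (h0 (Set.mem_univ β)))

theorem exists_beta (hN : 2 ≤ N) {z : Fin N → ℂ} (hz : Gen z) (κ : ℝ) {L : ℕ} (hL : 0 < L)
    {ε : ℝ} (hε : 0 < ε) :
    ∃ β : ℝ, 0 < β ∧ β < ε ∧ (∀ r : ℚ, β ≠ 2 * Real.pi * r) ∧
      ∀ p p' : ℕ, p < p' → ¬ Common (1 + N * p) (1 + N * p') z κ L β := by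
  let Ug : (ℕ × ℕ) ⊕ ℚ → Set ℝ := fun x => match x with
    | Sum.inl pp => {β | pp.1 < pp.2 → Dn (1 + N * pp.1) (1 + N * pp.2) z κ L β ≠ 0}
    | Sum.inr r => {β | β ≠ 2 * Real.pi * r}
  have ho : ∀ x, IsOpen (Ug x) := by
    rintro (⟨p, p'⟩ | r)
    · by_cases h : p < p'
      · have h1 : Ug (Sum.inl (p, p')) = {β | Dn (1 + N * p) (1 + N * p') z κ L β ≠ 0} := by
          ext β; simp [Ug, h]
        rw [h1]
        have hc : Continuous fun β => Dn (1 + N * p) (1 + N * p') z κ L β :=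
          continuous_iff_continuousAt.mpr fun s => (an_Dn (by omega) z κ L s).continuousAt
        exact isOpen_ne_fun hc continuous_const
      · have h1 : Ug (Sum.inl (p, p')) = Set.univ := by
          ext β; simp [Ug, h]
        rw [h1]; exact isOpen_univ
    · exact isOpen_ne
  have hd : ∀ x, Dense (Ug x) := by
    rintro (⟨p, p'⟩ | r)
    · intro β₀
      by_cases h : p < p'
      · have h1 := not_common_eventually (n := 1 + N * p) (n' := 1 + N * p') hN hz κ hL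
          (by
            have : N * p < N * p' := (Nat.mul_lt_mul_left (by omega)).mpr h
            omega) ⟨p, rfl⟩ ⟨p', rfl⟩ β₀
        have h2 : Ug (Sum.inl (p, p')) ∈ 𝓝[≠] β₀ := by
          filter_upwards [h1] with β hβ _ using hβ
        exact mem_closure_iff_nhdsWithin_neBot.mpr
          ((inferInstance : (𝓝[≠] β₀).NeBot).mono (le_inf inf_le_left (le_principal_iff.mpr h2)))
      · have h1 : Ug (Sum.inl (p, p')) = Set.univ := by
          ext β; simp [Ug, h]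
        rw [h1]; simp
    · exact dense_compl_singleton _
  have hD : Dense (⋂ x, Ug x) := dense_iInter_of_isOpen ho hd
  obtain ⟨β, hβ, hβ'⟩ := hD.exists_mem_open isOpen_Ioo (Set.nonempty_Ioo.mpr hε)
  rw [Set.mem_iInter] at hβ
  refine ⟨β, hβ'.1, hβ'.2, fun r => hβ (Sum.inr r), fun p p' h hc => ?_⟩
  exact hβ (Sum.inl (p, p')) h ((common_iff z κ L β).mp hc)

end

end Pool.Agent.SG65
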