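import Pool.Agent.Lib.MP_4be2f9_h65.Xn

/-!
# MP_4be2f9 (helper65): the square of the Hamming adjacency matrix on symmetric tensors
-/

set_option autoImplicit false

open scoped ComplexConjugate Matrix Topology
open Complex Filter

namespace Pool.Agent.SG65

noncomputable section

variable {N n : ℕ}

theorem cnt_update (u : W n N) (t : Fin n) (j i : Fin N) :
    cnt (Function.update u t j) i + (if u t = i then 1 else 0) =
      cnt u i + (if j = i then 1 else 0) := by
  classical
  simp only [cnt, Finset.card_filter]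
  have ha := Finset.add_sum_erase Finset.univ
    (fun s => if Function.update u t j s = i then 1 else 0) (Finset.mem_univ t)
  have hb := Finset.add_sum_erase Finset.univ
    (fun s => if u s = i then 1 else 0) (Finset.mem_univ t)
  rw [← ha, ← hb]
  have h : ∑ x ∈ Finset.univ.erase t, (if Function.update u t j x = i then 1 else 0) =
      ∑ x ∈ Finset.univ.erase t, (if u x = i then 1 else 0) := by
    refine Finset.sum_congr rfl fun s hs => ?_
    rw [Function.update_of_ne (Finset.mem_erase.mp hs).1]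
  rw [h, Function.update_self]
  ring

theorem cnt_two (u : W n N) (t : Fin n) (j : Fin N) (hj : j ≠ u t) (s : Fin n) (i : Fin N)
    (hi : i ≠ Function.update u t j s) :
    (∀ l, cnt (Function.update (Function.update u t j) s i) l = cnt u l) ↔
      (Function.update u t j s = j ∧ i = u t) := by
  set u' := Function.update u t j with hu'
  have e1 := fun l => cnt_update u' s i l
  have e2 := fun l => cnt_update u t j l
  rw [← hu'] at e2
  constructor
  · intro h
    have h1 := e1 j
    have h2 := e2 j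
    have h3 := e1 (u t)
    have h4 := e2 (u t)
    rw [h] at h1 h3
    have hj' : u t ≠ j := Ne.symm hj
    simp only [if_true, if_neg hj', if_neg hj] at h1 h2 h3 h4
    constructor
    · by_contra hne
      rw [if_neg hne] at h1
      split_ifs at h1 <;> omega
    · by_contra hne
      rw [if_neg hne] at h3
      split_ifs at h3 <;> omega
  · rintro ⟨h1, h2⟩ l
    have h3 := e1 l
    have h4 := e2 l
    rw [h1, h2] at h3
    subst h2
    omega

/-- the quadratic polynomial in the letter counts -/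
def Qr (u : W n N) : ℝ := (n : ℝ) * (n + N) - n - ∑ i, (cnt u i : ℝ) ^ 2

theorem sum_cnt_real (u : W n N) : ∑ i, (cnt u i : ℝ) = n := by
  have := sum_cnt u
  exact_mod_cast this

theorem sum_Q (u : W n N) :
    ((∑ t, ∑ j ∈ Finset.univ.filter (fun j => j ≠ u t), (cnt u j + 1) : ℕ) : ℝ) = Qr u := by
  classical
  push_cast
  have h1 : ∀ t, ∑ j ∈ Finset.univ.filter (fun j => j ≠ u t), ((cnt u j : ℝ) + 1) =
      (n + N) - ((cnt u (u t) : ℝ) + 1) := by
    intro t
    have h2 := Finset.sum_filter_add_sum_filter_not Finset.univ (fun j => j ≠ u t)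
      (fun j => ((cnt u j : ℝ) + 1))
    have h3 : Finset.univ.filter (fun j => ¬ (j ≠ u t)) = {u t} := by
      ext j; simp
    have hS : ∑ j, ((cnt u j : ℝ) + 1) = n + N := by
      rw [Finset.sum_add_distrib, sum_cnt_real]
      simp
    rw [h3, Finset.sum_singleton, hS] at h2
    linarith
  rw [Finset.sum_congr rfl fun t _ => h1 t]
  have h4 : ∑ t, (cnt u (u t) : ℝ) = ∑ i, (cnt u i : ℝ) ^ 2 := by
    rw [← Finset.sum_fiberwise_of_maps_to (s := Finset.univ) (t := Finset.univ) (g := u)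
      (fun _ _ => Finset.mem_univ _)]
    refine Finset.sum_congr rfl fun i _ => ?_
    have h5 : ∀ t ∈ Finset.univ.filter (fun t => u t = i), (cnt u (u t) : ℝ) = cnt u i := by
      intro t ht
      rw [(Finset.mem_filter.mp ht).2]
    rw [Finset.sum_congr rfl h5, Finset.sum_const, nsmul_eq_mul]
    have h6 : (Finset.univ.filter (fun t => u t = i)).card = cnt u i := rfl
    rw [h6]
    ring
  simp only [Finset.sum_sub_distrib, Finset.sum_add_distrib, h4, Finset.sum_const,
    Finset.card_univ, Fintype.card_fin, nsmul_eq_mul]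
  rw [Qr]
  ring

/-- two changes never reach the opposite type -/
theorem no_flip (hN : 2 ≤ N) (hn : ∃ p, n = 1 + N * p) (u : W n N) (t : Fin n) (j : Fin N)
    (hj : j ≠ u t) (s : Fin n) (i : Fin N) (hi : i ≠ Function.update u t j s) (m : ℕ)
    (hm : ∀ l, cnt (Function.update (Function.update u t j) s i) l + cnt u l = m) : False := by
  obtain ⟨p, hp⟩ := hn
  have h1 : 2 * n = N * m := by
    have h2 : ∑ l, (cnt (Function.update (Function.update u t j) s i) l + cnt u l) = N * m := by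
      rw [Finset.sum_congr rfl fun l _ => hm l]
      simp
    rw [Finset.sum_add_distrib, sum_cnt, sum_cnt] at h2
    omega
  have h2 : N ∣ 2 := by
    have h3 : N ∣ 2 * n := ⟨m, h1⟩
    have h4 : 2 * n = 2 + N * (2 * p) := by rw [hp]; ring
    rw [h4] at h3
    exact (Nat.dvd_add_left (Dvd.intro _ rfl)).mp h3
  have h3 : N = 2 := le_antisymm (Nat.le_of_dvd (by norm_num) h2) hN
  subst h3
  have e1 := cnt_update (Function.update u t j) s i 0
  have e2 := cnt_update u t j 0
  have e3 := hm 0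
  have hj2 : (j = 0 ∧ u t = 1) ∨ (j = 1 ∧ u t = 0) := by
    have : ∀ a b : Fin 2, a ≠ b → (a = 0 ∧ b = 1) ∨ (a = 1 ∧ b = 0) := by decide
    exact this _ _ hj
  have hi2 : (i = 0 ∧ Function.update u t j s = 1) ∨ (i = 1 ∧ Function.update u t j s = 0) := by
    have : ∀ a b : Fin 2, a ≠ b → (a = 0 ∧ b = 1) ∨ (a = 1 ∧ b = 0) := by decide
    exact this _ _ hi
  rcases hj2 with ⟨rfl, a2⟩ | ⟨rfl, a2⟩ <;> rcases hi2 with ⟨rfl, b2⟩ | ⟨rfl, b2⟩ <;>
    rw [b2] at e1 <;> rw [a2] at e2 <;> simp at e1 e2 <;> omega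

/-- the support condition -/
def SupOK (v : W n N → ℂ) : Prop := ∀ u u', v u ≠ 0 → v u' ≠ 0 →
  (∀ i, cnt u i = cnt u' i) ∨ ∃ m, ∀ i, cnt u i + cnt u' i = m

theorem XX (hN : 2 ≤ N) (hn : ∃ p, n = 1 + N * p) {v : W n N → ℂ} (hv : IsSym v)
    (hs : SupOK v) {u : W n N} (hu : v u ≠ 0) :
    (Xn n N *ᵥ (Xn n N *ᵥ v)) u = (Qr u : ℂ) * v u := by
  classical
  rw [Xn_mulVec]
  have h1 : ∀ t, ∀ j ∈ Finset.univ.filter (fun j => j ≠ u t),
      (Xn n N *ᵥ v) (Function.update u t j) = ((cnt u j + 1 : ℕ) : ℂ) * v u := by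
    intro t j hj
    have hj' : j ≠ u t := (Finset.mem_filter.mp hj).2
    rw [Xn_mulVec]
    set u' := Function.update u t j with hu'
    have h2 : ∀ s, ∑ i ∈ Finset.univ.filter (fun i => i ≠ u' s), v (Function.update u' s i) =
        if u' s = j then v u else 0 := by
      intro s
      have h3 : ∀ i ∈ Finset.univ.filter (fun i => i ≠ u' s), v (Function.update u' s i) =
          if u' s = j ∧ i = u t then v u else 0 := by
        intro i hi
        have hi' : i ≠ u' s := (Finset.mem_filter.mp hi).2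
        have h4 := cnt_two u t j hj' s i hi'
        by_cases h5 : u' s = j ∧ i = u t
        · rw [if_pos h5]
          exact hv _ _ (h4.mpr h5)
        · rw [if_neg h5]
          by_contra h6
          rcases hs _ _ h6 hu with h7 | ⟨m, h7⟩
          · exact h5 (h4.mp h7)
          · exact no_flip hN hn u t j hj' s i hi' m h7
      rw [Finset.sum_congr rfl h3]
      by_cases h8 : u' s = j
      · rw [if_pos h8]
        rw [Finset.sum_eq_single (u t)]
        · simp [h8]
        · intro i _ hi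
          simp [hi]
        · intro h9
          exfalso
          apply h9
          rw [Finset.mem_filter]
          exact ⟨Finset.mem_univ _, by rw [h8]; exact Ne.symm hj'⟩
      · rw [if_neg h8]
        refine Finset.sum_eq_zero fun i _ => ?_
        simp [h8]
    rw [Finset.sum_congr rfl fun s _ => h2 s, ← Finset.sum_filter, Finset.sum_const, nsmul_eq_mul]
    have h9 : (Finset.univ.filter (fun s => u' s = j)).card = cnt u j + 1 := by
      have e := cnt_update u t j j
      rw [if_pos rfl, if_neg (Ne.symm hj')] at e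
      exact e
    rw [h9]
  have h10 : ∑ t, ∑ j ∈ Finset.univ.filter (fun j => j ≠ u t),
      (Xn n N *ᵥ v) (Function.update u t j) =
      ∑ t, ∑ j ∈ Finset.univ.filter (fun j => j ≠ u t), ((cnt u j + 1 : ℕ) : ℂ) * v u :=
    Finset.sum_congr rfl fun t _ => Finset.sum_congr rfl fun j hj => h1 t j hj
  rw [h10]
  simp only [← Finset.sum_mul]
  congr 1
  rw [← sum_Q u]
  push_cast
  rfl

theorem Qr_same {u u' : W n N} (h : ∀ i, cnt u i = cnt u' i) : Qr u = Qr u' := by
  unfold Qr
  simp only [h]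

theorem Qr_flip {u u' : W n N} {m : ℕ} (h : ∀ i, cnt u i + cnt u' i = m) : Qr u = Qr u' := by
  have h1 : (n : ℝ) + n = N * m := by
    have h2 : ∑ i, ((cnt u i : ℝ) + cnt u' i) = N * m := by
      rw [Finset.sum_congr rfl fun i _ => (by exact_mod_cast h i :
        ((cnt u i : ℝ) + cnt u' i) = m)]
      simp
    rw [Finset.sum_add_distrib, sum_cnt_real, sum_cnt_real] at h2
    exact h2
  have h3 : ∑ i, (cnt u i : ℝ) ^ 2 = ∑ i, (cnt u' i : ℝ) ^ 2 := by
    have h4 : ∀ i, (cnt u i : ℝ) ^ 2 = m ^ 2 - 2 * m * cnt u' i + (cnt u' i : ℝ) ^ 2 := by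
      intro i
      have h5 : (cnt u i : ℝ) = m - cnt u' i := by
        have : ((cnt u i : ℝ) + cnt u' i) = m := by exact_mod_cast h i
        linarith
      rw [h5]; ring
    rw [Finset.sum_congr rfl fun i _ => h4 i, Finset.sum_add_distrib, Finset.sum_sub_distrib,
      ← Finset.mul_sum, sum_cnt_real]
    simp only [Finset.sum_const, Finset.card_univ, Fintype.card_fin, nsmul_eq_mul]
    nlinarith [h1]
  rw [Qr, Qr, h3]

/-- the norm of `X v` -/
theorem norm_X (hN : 2 ≤ N) (hn : ∃ p, n = 1 + N * p) {v : W n N → ℂ} (hv : IsSym v)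
    (hs : SupOK v) {u₀ : W n N} (hu₀ : v u₀ ≠ 0) :
    star (Xn n N *ᵥ v) ⬝ᵥ (Xn n N *ᵥ v) = (Qr u₀ : ℂ) * (star v ⬝ᵥ v) := by
  have h1 : star (Xn n N *ᵥ v) ⬝ᵥ (Xn n N *ᵥ v) = star v ⬝ᵥ (Xn n N *ᵥ (Xn n N *ᵥ v)) := by
    rw [Matrix.star_mulVec, Xn_conjTranspose, ← Matrix.dotProduct_mulVec]
  rw [h1]
  simp only [dotProduct, Finset.mul_sum]
  refine Finset.sum_congr rfl fun u _ => ?_
  by_cases hu : v u = 0
  · simp [hu]
  · rw [XX hN hn hv hs hu]
    have h2 : Qr u = Qr u₀ := by
      rcases hs u u₀ hu hu₀ with h | ⟨m, h⟩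
      · exact Qr_same h
      · exact Qr_flip h
    rw [h2]
    ring

/-- comparison of different degrees, parallel types -/
theorem Qr_lt_shift (hN : 2 ≤ N) {n' : ℕ} (hlt : n < n') {u : W n N} {u' : W n' N} {r : ℤ}
    (h : ∀ i, (cnt u' i : ℤ) - cnt u i = r) : Qr u < Qr u' := by
  have hr : ∀ i, (cnt u' i : ℝ) = cnt u i + r := by
    intro i
    have : ((cnt u' i : ℤ) : ℝ) - ((cnt u i : ℤ) : ℝ) = r := by exact_mod_cast h i
    push_cast at this
    linarith
  have h1 : (n' : ℝ) = n + N * r := by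
    have h2 : ∑ i, (cnt u' i : ℝ) = ∑ i, ((cnt u i : ℝ) + r) :=
      Finset.sum_congr rfl fun i _ => hr i
    rw [Finset.sum_add_distrib, sum_cnt_real, sum_cnt_real] at h2
    simpa using h2
  have hN' : (2 : ℝ) ≤ N := by exact_mod_cast hN
  have hlt' : (n : ℝ) < n' := by exact_mod_cast hlt
  have hr0 : (0 : ℝ) < r := by
    have : 0 < (N : ℝ) * r := by linarith
    exact (mul_pos_iff_of_pos_left (by linarith)).mp this
  have h3 : ∑ i, (cnt u' i : ℝ) ^ 2 = ∑ i, (cnt u i : ℝ) ^ 2 + 2 * r * n + N * r ^ 2 := by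
    have h4 : ∀ i, (cnt u' i : ℝ) ^ 2 = (cnt u i : ℝ) ^ 2 + 2 * r * cnt u i + (r : ℝ) ^ 2 := by
      intro i
      rw [hr i]; ring
    rw [Finset.sum_congr rfl fun i _ => h4 i, Finset.sum_add_distrib, Finset.sum_add_distrib,
      ← Finset.mul_sum, sum_cnt_real]
    simp
  rw [Qr, Qr, h3, h1]
  have hn0 : (0 : ℝ) ≤ n := Nat.cast_nonneg _
  have h5 : (n + N * (r : ℝ)) * (n + N * r + N) - (n + N * r) -
      (∑ i, (cnt u i : ℝ) ^ 2 + 2 * r * n + N * r ^ 2) -
      ((n : ℝ) * (n + N) - n - ∑ i, (cnt u i : ℝ) ^ 2) =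
      (N - 1) * r * (2 * n + N * r + N) := by ring
  have h6 : 0 < ((N : ℝ) - 1) * r * (2 * n + N * r + N) := by
    have : (0 : ℝ) < N - 1 := by linarith
    positivity
  linarith

/-- comparison of different degrees, opposite types -/
theorem Qr_lt_flip (hN : 2 ≤ N) {n' : ℕ} (hlt : n < n') {u : W n N} {u' : W n' N} {m : ℕ}
    (h : ∀ i, cnt u i + cnt u' i = m) : Qr u < Qr u' := by
  have hr : ∀ i, (cnt u' i : ℝ) = m - cnt u i := by
    intro i
    have : ((cnt u i : ℝ) + cnt u' i) = m := by exact_mod_cast h i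
    linarith
  have h1 : (n' : ℝ) = N * m - n := by
    have h2 : ∑ i, (cnt u' i : ℝ) = ∑ i, ((m : ℝ) - cnt u i) :=
      Finset.sum_congr rfl fun i _ => hr i
    rw [Finset.sum_sub_distrib, sum_cnt_real, sum_cnt_real] at h2
    simpa using h2
  have hN' : (2 : ℝ) ≤ N := by exact_mod_cast hN
  have hlt' : (n : ℝ) < n' := by exact_mod_cast hlt
  have h3 : ∑ i, (cnt u' i : ℝ) ^ 2 = ∑ i, (cnt u i : ℝ) ^ 2 - 2 * m * n + N * m ^ 2 := by
    have h4 : ∀ i, (cnt u' i : ℝ) ^ 2 = (cnt u i : ℝ) ^ 2 - 2 * m * cnt u i + (m : ℝ) ^ 2 := by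
      intro i
      rw [hr i]; ring
    rw [Finset.sum_congr rfl fun i _ => h4 i, Finset.sum_add_distrib, Finset.sum_sub_distrib,
      ← Finset.mul_sum, sum_cnt_real]
    simp
  have hn0 : (0 : ℝ) ≤ n := Nat.cast_nonneg _
  have hm0 : (0 : ℝ) ≤ m := Nat.cast_nonneg _
  have h5 : Qr u' - Qr u = (n' - n) * (n' + n + N - 1 - m) := by
    rw [Qr, Qr, h3, h1]
    ring
  have h6 : 0 < ((n' : ℝ) - n) * (n' + n + N - 1 - m) := by
    apply mul_pos (by linarith)
    nlinarith
  linarith

end

end Pool.Agent.SG65
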