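import Pool.Agent.Lib.MP_4be2f9_h65.Path

/-!
# MP_4be2f9 (helper65): a closed group containing `rho ev s` and a generic diagonal matrix is
everything
-/

set_option autoImplicit false

open scoped ComplexConjugate Matrix Topology
open Complex Filter

namespace Pool.Agent.SG65

noncomputable section

variable {N : ℕ}

/-- a closed group of unitary matrices, as a set of matrices -/
structure IsK (K : Set (Matrix (Fin N) (Fin N) ℂ)) : Prop where
  closed : IsClosed K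
  one : (1 : Matrix (Fin N) (Fin N) ℂ) ∈ K
  mul : ∀ g ∈ K, ∀ h ∈ K, g * h ∈ K
  unit : ∀ g ∈ K, g * gᴴ = 1
  star : ∀ g ∈ K, gᴴ ∈ K

/-- the unit vectors `u` with all `rho u s` in `K` -/
def RR (K : Set (Matrix (Fin N) (Fin N) ℂ)) : Set (Fin N → ℂ) :=
  {u | star u ⬝ᵥ u = 1 ∧ ∀ s, rho u s ∈ K}

theorem rho_smul {c : ℂ} (hc : ‖c‖ = 1) (u : Fin N → ℂ) (s : ℝ) : rho (c • u) s = rho u s := by
  unfold rho
  have h : Matrix.vecMulVec (c • u) (star (c • u)) = Matrix.vecMulVec u (star u) := by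
    ext i j
    simp only [Matrix.vecMulVec_apply, Pi.smul_apply, Pi.star_apply, smul_eq_mul, star_mul',
      RCLike.star_def]
    have : c * conj c = 1 := by rw [Complex.mul_conj', hc]; simp
    linear_combination (u i * conj (u j)) * this
  rw [h]

theorem unit_smul {c : ℂ} (hc : ‖c‖ = 1) {u : Fin N → ℂ} (hu : star u ⬝ᵥ u = 1) :
    star (c • u) ⬝ᵥ (c • u) = 1 := by
  rw [star_smul, smul_dotProduct, dotProduct_smul, hu, RCLike.star_def, smul_eq_mul, smul_eq_mul,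
    mul_one, Complex.conj_mul', hc]
  simp

theorem RR_smul {K : Set (Matrix (Fin N) (Fin N) ℂ)} {c : ℂ} (hc : ‖c‖ = 1) {u : Fin N → ℂ}
    (hu : u ∈ RR K) : c • u ∈ RR K :=
  ⟨unit_smul hc hu.1, fun s => by rw [rho_smul hc]; exact hu.2 s⟩

theorem RR_act {K : Set (Matrix (Fin N) (Fin N) ℂ)} (hK : IsK K) {g : Matrix (Fin N) (Fin N) ℂ}
    (hg : g ∈ K) {u : Fin N → ℂ} (hu : u ∈ RR K) : g *ᵥ u ∈ RR K := by
  have h1 : gᴴ * g = 1 := mul_eq_one_comm.mp (hK.unit g hg)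
  refine ⟨?_, fun s => ?_⟩
  · rw [Matrix.star_mulVec, ← Matrix.dotProduct_mulVec, Matrix.mulVec_mulVec, h1,
      Matrix.one_mulVec, hu.1]
  · rw [← conj_rho (hK.unit g hg)]
    exact hK.mul _ (hK.mul _ hg _ (hu.2 s)) _ (hK.star _ hg)

theorem dot_comm_conj (u v : Fin N → ℂ) : star u ⬝ᵥ v = conj (star v ⬝ᵥ u) := by
  simp only [dotProduct, map_sum, map_mul, Pi.star_apply, RCLike.star_def, Complex.conj_conj]
  exact Finset.sum_congr rfl fun i _ => mul_comm _ _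

/-- the full interval -/
theorem T_full (T : Set ℝ) (h : ∀ τ ∈ T, 0 ≤ τ → τ ≤ 1 → ∀ t, (1 - 2 * τ) ^ 2 ≤ t → t ≤ 1 → t ∈ T)
    {τ₀ : ℝ} (h0 : τ₀ ∈ T) (h1 : 0 < τ₀) (h2 : τ₀ < 1) : ∀ t, 0 ≤ t → t ≤ 1 → t ∈ T := by
  set ε₀ : ℝ := 4 * τ₀ * (1 - τ₀) with hε
  have hε0 : 0 < ε₀ := by
    have : 0 < 1 - τ₀ := by linarith
    positivity
  have key : ∀ k : ℕ, ∀ t, 1 - min (2 ^ k * ε₀) (1 / 2) ≤ t → t ≤ 1 → t ∈ T := by
    intro k
    induction k with
    | zero =>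
      intro t ht ht1
      refine h τ₀ h0 h1.le h2.le t ?_ ht1
      have : min (2 ^ 0 * ε₀) (1 / 2) ≤ ε₀ := (min_le_left _ _).trans (by simp)
      have h3 : (1 - 2 * τ₀) ^ 2 = 1 - ε₀ := by rw [hε]; ring
      linarith
    | succ k ih =>
      intro t ht ht1
      by_cases hk : 1 / 2 ≤ 2 ^ k * ε₀
      · refine ih t ?_ ht1
        rw [min_eq_right hk]
        have : min (2 ^ (k + 1) * ε₀) (1 / 2) ≤ 1 / 2 := min_le_right _ _
        linarith
      · push Not at hk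
        rw [min_eq_left hk.le] at ih
        have h4 : 1 - 2 ^ k * ε₀ ∈ T := ih _ le_rfl (by
          have : 0 < 2 ^ k * ε₀ := by positivity
          linarith)
        have h5 : 0 < 2 ^ k * ε₀ := by positivity
        refine h _ h4 (by linarith) (by linarith) t ?_ ht1
        have h6 : min (2 ^ (k + 1) * ε₀) (1 / 2) ≤ 2 ^ (k + 1) * ε₀ := min_le_left _ _
        have h7 : (2 : ℝ) ^ (k + 1) = 2 * 2 ^ k := by ring
        rw [h7] at h6 ht
        have h8 : 1 - 2 * 2 ^ k * ε₀ ≤ t := by linarith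
        nlinarith [mul_nonneg h5.le (sub_nonneg.mpr hk.le)]
  obtain ⟨k, hk⟩ := pow_unbounded_of_one_lt (1 / 2 / ε₀) (one_lt_two : (1 : ℝ) < 2)
  rw [div_lt_iff₀ hε0] at hk
  have h3 := key k
  rw [min_eq_right hk.le] at h3
  have h4 : (1 / 2 : ℝ) ∈ T := h3 _ (by norm_num) (by norm_num)
  intro t ht ht1
  refine h _ h4 (by norm_num) (by norm_num) t ?_ ht1
  norm_num
  exact ht

/-- all values in the interval are attained by rotating -/
theorem rot_value {τ : ℝ} (h0 : 0 ≤ τ) (h1 : τ ≤ 1) {t : ℝ} (ht : (1 - 2 * τ) ^ 2 ≤ t)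
    (ht1 : t ≤ 1) : ∃ φ : ℝ, ‖1 + (cexp (φ * I) - 1) * (τ : ℂ)‖ ^ 2 = t := by
  have hval : ∀ φ : ℝ, ‖1 + (cexp (φ * I) - 1) * (τ : ℂ)‖ ^ 2 =
      (1 - τ) ^ 2 + τ ^ 2 + 2 * τ * (1 - τ) * Real.cos φ := by
    intro φ
    rw [← Complex.normSq_eq_norm_sq, Complex.normSq_apply, Complex.exp_mul_I, ← Complex.ofReal_cos,
      ← Complex.ofReal_sin]
    simp only [add_re, one_re, mul_re, sub_re, ofReal_re, I_re, mul_zero, ofReal_im, I_im, mul_one,
      sub_self, add_zero, sub_im, add_im, mul_im, one_im, zero_add, sub_zero]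
    have := Real.sin_sq_add_cos_sq φ
    nlinarith [this]
  by_cases hτ : τ * (1 - τ) = 0
  · refine ⟨0, ?_⟩
    have h2 : (1 - 2 * τ) ^ 2 = 1 := by nlinarith
    rw [h2] at ht
    have : t = 1 := le_antisymm ht1 ht
    rw [this]
    simp
  · have hpos : 0 < τ * (1 - τ) := lt_of_le_of_ne (mul_nonneg h0 (by linarith)) (Ne.symm hτ)
    refine ⟨Real.arccos ((t - (1 - τ) ^ 2 - τ ^ 2) / (2 * (τ * (1 - τ)))), ?_⟩
    rw [hval, Real.cos_arccos]
    · have e1 : τ ≠ 0 := fun h => hτ (by rw [h, zero_mul])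
      have e2 : 1 - τ ≠ 0 := fun h => hτ (by rw [h, mul_zero])
      have e3 : 2 * τ * (1 - τ) * ((t - (1 - τ) ^ 2 - τ ^ 2) / (2 * (τ * (1 - τ)))) =
          t - (1 - τ) ^ 2 - τ ^ 2 := by
        rw [show 2 * τ * (1 - τ) = 2 * (τ * (1 - τ)) by ring, mul_comm]
        exact div_mul_cancel₀ _ (by positivity)
      rw [e3]
      ring
    · rw [le_div_iff₀ (by positivity)]
      nlinarith
    · rw [div_le_iff₀ (by positivity)]
      nlinarith

/-- the two dimensional lemma -/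
theorem plane {K : Set (Matrix (Fin N) (Fin N) ℂ)} (hK : IsK K) (hN : 0 < N) {y e : Fin N → ℂ}
    (hy : y ∈ RR K) (he : star e ⬝ᵥ e = 1) (hye : star y ⬝ᵥ e = 0) {a₀ p₀ : ℂ} (ha : a₀ ≠ 0)
    (hp : p₀ ≠ 0) (h0 : a₀ • y + p₀ • e ∈ RR K) (a p : ℂ) (hap : ‖a‖ ^ 2 + ‖p‖ ^ 2 = 1) :
    a • y + p • e ∈ RR K := by
  have hN' : (N : ℂ) ≠ 0 := by exact_mod_cast hN.ne'
  have hNr : (N : ℝ) ≠ 0 := by exact_mod_cast hN.ne'
  have hey : star e ⬝ᵥ y = 0 := by rw [dot_comm_conj, hye, map_zero]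
  -- norms
  have hnorm : ∀ a p : ℂ, star (a • y + p • e) ⬝ᵥ (a • y + p • e) =
      ((‖a‖ ^ 2 + ‖p‖ ^ 2 : ℝ) : ℂ) := by
    intro a p
    rw [star_add, star_smul, star_smul, add_dotProduct, dotProduct_add, dotProduct_add]
    simp only [smul_dotProduct, dotProduct_smul, hy.1, he, hye, hey, smul_eq_mul, mul_zero,
      add_zero, zero_add, mul_one, RCLike.star_def]
    rw [Complex.mul_conj', Complex.mul_conj']
    push_cast
    ring
  have hunit : ∀ a p : ℂ, a • y + p • e ∈ RR K → ‖a‖ ^ 2 + ‖p‖ ^ 2 = 1 := by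
    intro a p h
    have := hnorm a p
    rw [h.1] at this
    exact_mod_cast this.symm
  have hdy : ∀ a p : ℂ, star (a • y + p • e) ⬝ᵥ y = conj a := by
    intro a p
    rw [star_add, star_smul, star_smul, add_dotProduct]
    simp only [smul_dotProduct, hy.1, hey, smul_eq_mul, mul_zero, add_zero, mul_one,
      RCLike.star_def]
  have hyd : ∀ a p : ℂ, star y ⬝ᵥ (a • y + p • e) = a := by
    intro a p
    rw [dotProduct_add]
    simp only [dotProduct_smul, hy.1, hye, smul_eq_mul, mul_zero, add_zero, mul_one]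
  -- the set of values
  let T : Set ℝ := {τ | ∃ a p : ℂ, a • y + p • e ∈ RR K ∧ ‖a‖ ^ 2 = τ}
  have hT : ∀ τ ∈ T, 0 ≤ τ → τ ≤ 1 → ∀ t, (1 - 2 * τ) ^ 2 ≤ t → t ≤ 1 → t ∈ T := by
    rintro τ ⟨a, p, hW, hτ⟩ h1 h2 t h3 h4
    obtain ⟨φ, hφ⟩ := rot_value h1 h2 h3 h4
    have h5 := RR_act hK (hW.2 (φ / N)) hy
    have h6 : rho (a • y + p • e) (φ / N) *ᵥ y =
        (cexp (-((φ / N : ℝ) : ℂ) * I) * (1 + (cexp (φ * I) - 1) * (τ : ℂ))) • y +
        (cexp (-((φ / N : ℝ) : ℂ) * I) * ((cexp (φ * I) - 1) * (conj a * p))) • e := by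
      rw [rho_mulVec, hdy]
      have h7 : (N : ℂ) * ((φ / N : ℝ) : ℂ) * I = φ * I := by
        push_cast
        field_simp
      have h8 : conj a * a = (τ : ℂ) := by
        rw [Complex.conj_mul', ← hτ]; push_cast; ring
      rw [h7, ← h8]
      funext i
      simp only [Pi.smul_apply, Pi.add_apply, smul_eq_mul]
      ring
    rw [h6] at h5
    refine ⟨_, _, h5, ?_⟩
    rw [norm_mul, mul_pow, hφ]
    have : ‖cexp (-((φ / N : ℝ) : ℂ) * I)‖ = 1 := by
      rw [← Complex.ofReal_neg, Complex.norm_exp_ofReal_mul_I]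
    rw [this]; ring
  have hu0 := hunit a₀ p₀ h0
  have hτ0 : (‖a₀‖ ^ 2) ∈ T := ⟨a₀, p₀, h0, rfl⟩
  have hpos1 : 0 < ‖a₀‖ ^ 2 := by
    have : 0 < ‖a₀‖ := norm_pos_iff.mpr ha
    positivity
  have hpos2 : 0 < ‖p₀‖ ^ 2 := by
    have : 0 < ‖p₀‖ := norm_pos_iff.mpr hp
    positivity
  have hfull := T_full T hT hτ0 hpos1 (by linarith)
  obtain ⟨a', p', hW, hτ⟩ := hfull (‖a‖ ^ 2) (by positivity) (by
    have : 0 ≤ ‖p‖ ^ 2 := by positivity
    linarith)
  have hu' := hunit a' p' hW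
  have hna : ‖a'‖ = ‖a‖ := by
    have := (sq_eq_sq₀ (norm_nonneg _) (norm_nonneg _)).mp hτ
    exact this
  have hnp : ‖p'‖ = ‖p‖ := by
    have : ‖p'‖ ^ 2 = ‖p‖ ^ 2 := by linarith
    exact (sq_eq_sq₀ (norm_nonneg _) (norm_nonneg _)).mp this
  -- phases
  by_cases hp0 : p = 0
  · have hp'0 : p' = 0 := by
      rw [← norm_eq_zero, hnp, hp0, norm_zero]
    subst hp0 hp'0
    have ha0 : a' ≠ 0 := by
      rintro rfl
      simp at hu'
    have h1 := RR_smul (c := a / a') (by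
      rw [norm_div, hna, div_self]
      rw [← hna]; exact norm_ne_zero_iff.mpr ha0) hW
    convert h1 using 1
    simp only [zero_smul, add_zero, smul_smul]
    rw [div_mul_cancel₀ _ ha0]
  by_cases ha0 : a = 0
  · have ha'0 : a' = 0 := by
      rw [← norm_eq_zero, hna, ha0, norm_zero]
    subst ha0 ha'0
    have hp'0 : p' ≠ 0 := by
      rintro rfl
      simp at hu'
    have h1 := RR_smul (c := p / p') (by
      rw [norm_div, hnp, div_self]
      rw [← hnp]; exact norm_ne_zero_iff.mpr hp'0) hW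
    convert h1 using 1
    simp only [zero_smul, zero_add, smul_smul]
    rw [div_mul_cancel₀ _ hp'0]
  have ha'0 : a' ≠ 0 := by
    rw [← norm_ne_zero_iff, hna]; exact norm_ne_zero_iff.mpr ha0
  have hp'0 : p' ≠ 0 := by
    rw [← norm_ne_zero_iff, hnp]; exact norm_ne_zero_iff.mpr hp0
  obtain ⟨φ, hφ⟩ : ∃ φ : ℝ, cexp (φ * I) = (a * p') / (a' * p) := by
    have h1 : ‖(a * p') / (a' * p)‖ = 1 := by
      rw [norm_div, norm_mul, norm_mul, hna, hnp, div_self]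
      exact mul_ne_zero (norm_ne_zero_iff.mpr ha0) (norm_ne_zero_iff.mpr hp0)
    refine ⟨((a * p') / (a' * p)).arg, ?_⟩
    have h2 := Complex.norm_mul_exp_arg_mul_I ((a * p') / (a' * p))
    rw [h1] at h2
    simpa using h2
  have h5 := RR_act hK (hy.2 (φ / N)) hW
  have hc : ‖p / p' * cexp (((φ / N : ℝ) : ℂ) * I)‖ = 1 := by
    rw [norm_mul, Complex.norm_exp_ofReal_mul_I, norm_div, hnp, div_self, one_mul]
    exact norm_ne_zero_iff.mpr hp0
  have h6 := RR_smul hc h5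
  convert h6 using 1
  have h7 : (N : ℂ) * ((φ / N : ℝ) : ℂ) * I = φ * I := by
    push_cast
    field_simp
  rw [rho_mulVec, hyd, h7, hφ, smul_smul]
  have h8 : p / p' * cexp (((φ / N : ℝ) : ℂ) * I) * cexp (-((φ / N : ℝ) : ℂ) * I) = p / p' := by
    rw [mul_assoc, ← Complex.exp_add]
    have : ((φ / N : ℝ) : ℂ) * I + -((φ / N : ℝ) : ℂ) * I = 0 := by ring
    rw [this, Complex.exp_zero, mul_one]
  rw [h8]
  funext i
  simp only [Pi.smul_apply, Pi.add_apply, smul_eq_mul]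
  field_simp
  ring

end

end Pool.Agent.SG65
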