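import Pool.Agent.Lib.MP_4be2f9_h65.Dens

/-!
# MP_4be2f9 (helper65): density, second part
-/

set_option autoImplicit false

open scoped ComplexConjugate Matrix Topology
open Complex Filter

namespace Pool.Agent.SG65

noncomputable section

variable {N : ℕ}

theorem exists_proj (V : Submodule ℂ (Fin N → ℂ)) (x : Fin N → ℂ) :
    ∃ v ∈ V, ∀ v' ∈ V, star v' ⬝ᵥ (x - v) = 0 := by
  let V' : Submodule ℂ (EuclideanSpace ℂ (Fin N)) :=
    V.comap (WithLp.linearEquiv 2 ℂ (Fin N → ℂ)).toLinearMap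
  obtain ⟨v, hv, w, hw, h⟩ := V'.exists_add_mem_mem_orthogonal (WithLp.toLp 2 x)
  refine ⟨WithLp.ofLp v, hv, fun v' hv' => ?_⟩
  have h1 := (Submodule.mem_orthogonal V' w).mp hw (WithLp.toLp 2 v') hv'
  rw [EuclideanSpace.inner_eq_star_dotProduct] at h1
  have h2 : x - WithLp.ofLp v = WithLp.ofLp w := by
    have h3 := congrArg (fun t : EuclideanSpace ℂ (Fin N) => WithLp.ofLp t) h
    change x = WithLp.ofLp v + WithLp.ofLp w at h3
    rw [h3, add_sub_cancel_left]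
  rw [h2, dotProduct_comm]
  exact h1

theorem star_dot_real (w : Fin N → ℂ) : star w ⬝ᵥ w = ((∑ i, ‖w i‖ ^ 2 : ℝ) : ℂ) := by
  simp only [dotProduct, Pi.star_apply, RCLike.star_def]
  push_cast
  refine Finset.sum_congr rfl fun i _ => ?_
  rw [← Complex.conj_mul']

theorem exists_unit {w : Fin N → ℂ} (hw : w ≠ 0) : ∃ c : ℝ, 0 < c ∧
    star ((c : ℂ) • w) ⬝ᵥ ((c : ℂ) • w) = 1 ∧ ((c : ℂ) ^ 2) * (star w ⬝ᵥ w) = 1 := by
  have hs : 0 < ∑ j, ‖w j‖ ^ 2 := by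
    obtain ⟨i, hi⟩ := Function.ne_iff.mp hw
    have h1 : 0 < ‖w i‖ := norm_pos_iff.mpr hi
    exact lt_of_lt_of_le (by positivity) (Finset.single_le_sum
      (f := fun i => ‖w i‖ ^ 2) (fun i _ => by positivity) (Finset.mem_univ i))
  have h2 : (((√(∑ j, ‖w j‖ ^ 2))⁻¹ : ℝ) : ℂ) ^ 2 * (star w ⬝ᵥ w) = 1 := by
    rw [star_dot_real, ← Complex.ofReal_pow, ← Complex.ofReal_mul, inv_pow, Real.sq_sqrt hs.le,
      inv_mul_cancel₀ hs.ne', Complex.ofReal_one]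
  refine ⟨(√(∑ j, ‖w j‖ ^ 2))⁻¹, by positivity, ?_, h2⟩
  rw [star_smul, smul_dotProduct, dotProduct_smul, RCLike.star_def, Complex.conj_ofReal,
    smul_eq_mul, smul_eq_mul, ← mul_assoc, ← pow_two]
  exact h2

/-- a complex reflection maps `x` to `y` -/
theorem refl_map (hN : 0 < N) {x y : Fin N → ℂ} (hx : star x ⬝ᵥ x = 1) (hy : star y ⬝ᵥ y = 1)
    (hxy : x ≠ y) : ∃ (c₀ : ℝ) (s : ℝ), star ((c₀ : ℂ) • (y - x)) ⬝ᵥ ((c₀ : ℂ) • (y - x)) = 1 ∧
      rho ((c₀ : ℂ) • (y - x)) s *ᵥ x = cexp (-(s : ℂ) * I) • y ∧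
      ∀ w, star (y - x) ⬝ᵥ w = 0 →
        rho ((c₀ : ℂ) • (y - x)) s *ᵥ w = cexp (-(s : ℂ) * I) • w := by
  have hne : y - x ≠ 0 := sub_ne_zero.mpr (Ne.symm hxy)
  obtain ⟨c₀, hc, hu, hu2⟩ := exists_unit hne
  have hN' : (N : ℂ) ≠ 0 := by exact_mod_cast hN.ne'
  set w' : ℂ := 1 - star y ⬝ᵥ x with hw'
  have h1 : star (y - x) ⬝ᵥ x = -w' := by
    rw [star_sub, sub_dotProduct, hx, hw']; ring
  have h2 : star (y - x) ⬝ᵥ (y - x) = w' + conj w' := by
    rw [dotProduct_sub, star_sub, sub_dotProduct, sub_dotProduct, hx, hy, hw', map_sub, map_one,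
      ← dot_comm_conj x y]
    ring
  rw [h2] at hu2
  have hw0 : w' ≠ 0 := by
    intro h
    rw [h, map_zero, add_zero, mul_zero] at hu2
    exact zero_ne_one hu2
  obtain ⟨φ, hφ⟩ : ∃ φ : ℝ, cexp (φ * I) = -conj w' / w' := by
    have h3 : ‖-conj w' / w'‖ = 1 := by
      rw [norm_div, norm_neg, RCLike.norm_conj, div_self (norm_ne_zero_iff.mpr hw0)]
    refine ⟨(-conj w' / w').arg, ?_⟩
    have h4 := Complex.norm_mul_exp_arg_mul_I (-conj w' / w')
    rw [h3] at h4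
    simpa using h4
  have h7 : (N : ℂ) * ((φ / N : ℝ) : ℂ) * I = φ * I := by
    push_cast
    field_simp
  refine ⟨c₀, φ / N, hu, ?_, fun w hw => ?_⟩
  · rw [rho_mulVec, star_smul, smul_dotProduct, h1, h7, hφ, RCLike.star_def, Complex.conj_ofReal,
      smul_eq_mul]
    congr 1
    have h8 : (-conj w' / w' - 1) * ((c₀ : ℂ) * -w') = (c₀ : ℂ) * (w' + conj w') := by
      field_simp
      ring
    rw [h8, smul_smul]
    have h9 : (c₀ : ℂ) * (w' + conj w') * (c₀ : ℂ) = 1 := by rw [← hu2]; ring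
    rw [h9, one_smul]
    abel
  · apply rho_mulVec_orth
    rw [star_smul, smul_dotProduct, hw, smul_zero]

theorem norm_exp_neg (s : ℝ) : ‖cexp (-(s : ℂ) * I)‖ = 1 := by
  rw [← Complex.ofReal_neg, Complex.norm_exp_ofReal_mul_I]

/-- one more dimension -/
theorem step {K : Set (Matrix (Fin N) (Fin N) ℂ)} (hK : IsK K) (hN : 0 < N)
    (V : Submodule ℂ (Fin N → ℂ)) (hV : ∀ u ∈ V, star u ⬝ᵥ u = 1 → u ∈ RR K) {x : Fin N → ℂ}
    (hx : x ∈ RR K) (hxV : ∃ v ∈ V, star v ⬝ᵥ x ≠ 0) :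
    ∀ w ∈ V ⊔ Submodule.span ℂ {x}, star w ⬝ᵥ w = 1 → w ∈ RR K := by
  intro w hw hw1
  obtain ⟨v₁, hv₁, hort⟩ := exists_proj V x
  have hv0 : v₁ ≠ 0 := by
    rintro rfl
    obtain ⟨v, hv, hvx⟩ := hxV
    apply hvx
    have := hort v hv
    rwa [sub_zero] at this
  by_cases he0 : x - v₁ = 0
  · have hxV' : x ∈ V := by rw [sub_eq_zero.mp he0]; exact hv₁
    have : V ⊔ Submodule.span ℂ {x} = V := by
      rw [sup_eq_left, Submodule.span_singleton_le_iff_mem]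
      exact hxV'
    rw [this] at hw
    exact hV w hw hw1
  obtain ⟨cy, hcy, hyu, -⟩ := exists_unit hv0
  obtain ⟨ce, hce, heu, -⟩ := exists_unit he0
  obtain ⟨y, hy⟩ : ∃ y : Fin N → ℂ, y = (cy : ℂ) • v₁ := ⟨_, rfl⟩
  obtain ⟨e, he⟩ : ∃ e : Fin N → ℂ, e = (ce : ℂ) • (x - v₁) := ⟨_, rfl⟩
  rw [← hy] at hyu
  rw [← he] at heu
  have hcy' : (cy : ℂ) ≠ 0 := by exact_mod_cast hcy.ne'
  have hce' : (ce : ℂ) ≠ 0 := by exact_mod_cast hce.ne'
  have hyV : y ∈ V := by rw [hy]; exact V.smul_mem _ hv₁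
  have hyR : y ∈ RR K := hV y hyV hyu
  have heV : ∀ v ∈ V, star v ⬝ᵥ e = 0 := by
    intro v hv
    rw [he, dotProduct_smul, hort v hv, smul_zero]
  have hxe : x = (cy : ℂ)⁻¹ • y + (ce : ℂ)⁻¹ • e := by
    rw [hy, he, smul_smul, smul_smul, inv_mul_cancel₀ hcy', inv_mul_cancel₀ hce', one_smul,
      one_smul]
    abel
  have hpl : ∀ a p : ℂ, ‖a‖ ^ 2 + ‖p‖ ^ 2 = 1 → a • y + p • e ∈ RR K :=
    plane hK hN hyR heu (heV y hyV) (inv_ne_zero hcy') (inv_ne_zero hce') (hxe ▸ hx)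
  -- decompose `w`
  obtain ⟨v, hv, x', hx', hwx⟩ := Submodule.mem_sup.mp hw
  obtain ⟨t, rfl⟩ := Submodule.mem_span_singleton.mp hx'
  obtain ⟨v₂, p, hv₂, hwe⟩ : ∃ (v₂ : Fin N → ℂ) (p : ℂ), v₂ ∈ V ∧ w = v₂ + p • e := by
    refine ⟨v + t • v₁, t * (ce : ℂ)⁻¹, V.add_mem hv (V.smul_mem _ hv₁), ?_⟩
    rw [← hwx, he, smul_smul, mul_assoc, inv_mul_cancel₀ hce', mul_one, smul_sub]
    abel
  have hnorm : star v₂ ⬝ᵥ v₂ + ((‖p‖ ^ 2 : ℝ) : ℂ) = 1 := by
    rw [← hw1, hwe, star_add, add_dotProduct, dotProduct_add, dotProduct_add, star_smul,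
      smul_dotProduct, dotProduct_smul, smul_dotProduct, dotProduct_smul, heu, heV v₂ hv₂,
      dot_comm_conj e v₂, heV v₂ hv₂]
    simp only [smul_eq_mul, mul_zero, map_zero, mul_one, add_zero, zero_add, RCLike.star_def]
    rw [Complex.conj_mul']
    push_cast
    ring
  by_cases hv2 : v₂ = 0
  · rw [hv2, dotProduct_zero, zero_add] at hnorm
    have h1 : ‖p‖ ^ 2 = 1 := by exact_mod_cast hnorm
    have h2 := hpl 0 p (by rw [h1]; simp)
    rw [zero_smul, zero_add] at h2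
    rw [hwe, hv2, zero_add]
    exact h2
  obtain ⟨c, hc, hv'u, hc2⟩ := exists_unit hv2
  have hc' : (c : ℂ) ≠ 0 := by exact_mod_cast hc.ne'
  obtain ⟨v', hv'⟩ : ∃ v' : Fin N → ℂ, v' = (c : ℂ) • v₂ := ⟨_, rfl⟩
  rw [← hv'] at hv'u
  have hv'V : v' ∈ V := by rw [hv']; exact V.smul_mem _ hv₂
  have hv2' : v₂ = (c : ℂ)⁻¹ • v' := by
    rw [hv', smul_smul, inv_mul_cancel₀ hc', one_smul]
  have hap : ‖(c : ℂ)⁻¹‖ ^ 2 + ‖p‖ ^ 2 = 1 := by
    have h1 : ((‖(c : ℂ)⁻¹‖ ^ 2 : ℝ) : ℂ) = star v₂ ⬝ᵥ v₂ := by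
      rw [norm_inv, Complex.norm_real, Real.norm_eq_abs, abs_of_pos hc]
      push_cast
      rw [inv_pow]
      exact (eq_inv_of_mul_eq_one_right hc2).symm
    rw [← h1] at hnorm
    exact_mod_cast hnorm
  by_cases hyv : y = v'
  · rw [hwe, hv2', ← hyv]
    exact hpl _ _ hap
  obtain ⟨c₀, s, hu, hgy, hgw⟩ := refl_map hN hyu hv'u hyv
  have hg : rho ((c₀ : ℂ) • (v' - y)) s ∈ K :=
    (hV _ (V.smul_mem _ (V.sub_mem hv'V hyV)) hu).2 s
  have hge : rho ((c₀ : ℂ) • (v' - y)) s *ᵥ e = cexp (-(s : ℂ) * I) • e :=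
    hgw e (heV _ (V.sub_mem hv'V hyV))
  have hl := norm_exp_neg s
  have hl0 : cexp (-(s : ℂ) * I) ≠ 0 := Complex.exp_ne_zero _
  have h3 := hpl ((cexp (-(s : ℂ) * I))⁻¹ * (c : ℂ)⁻¹) ((cexp (-(s : ℂ) * I))⁻¹ * p) (by
    rw [norm_mul, norm_mul, norm_inv, hl, inv_one, one_mul, one_mul]
    exact hap)
  have h4 := RR_act hK hg h3
  rw [Matrix.mulVec_add, Matrix.mulVec_smul, Matrix.mulVec_smul, hgy, hge, smul_smul, smul_smul,
    mul_right_comm, inv_mul_cancel₀ hl0, one_mul, mul_right_comm, inv_mul_cancel₀ hl0,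
    one_mul] at h4
  rw [hwe, hv2']
  exact h4

theorem yy_gram_succ {z : Fin N → ℂ} (hz : Gen z) (hN : 0 < N) (a : ℕ) :
    star (yy z (ev N) a) ⬝ᵥ yy z (ev N) (a + 1) = (∑ j, z j) * (N : ℂ)⁻¹ := by
  rw [gram, Finset.sum_mul]
  refine Finset.sum_congr rfl fun j _ => ?_
  have h1 : conj (z j) ^ a * z j ^ (a + 1) = z j := by
    rw [pow_succ, ← mul_assoc, ← mul_pow, Complex.conj_mul', hz.unit j]
    simp
  have h2 : (0 : ℝ) < N := by exact_mod_cast hN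
  have h3 : ‖ev N j‖ ^ 2 = (N : ℝ)⁻¹ := by
    simp only [ev]
    rw [Complex.norm_real, Real.norm_eq_abs, abs_of_nonneg (by positivity), div_pow,
      Real.sq_sqrt h2.le]
    simp
  rw [h1, h3]
  push_cast
  rfl

/-- the flag -/
def Vf (z : Fin N → ℂ) : ℕ → Submodule ℂ (Fin N → ℂ)
  | 0 => ⊥
  | m + 1 => Vf z m ⊔ Submodule.span ℂ {yy z (ev N) m}

theorem yy_mem_Vf (z : Fin N → ℂ) (m : ℕ) : yy z (ev N) m ∈ Vf z (m + 1) :=
  Submodule.mem_sup_right (Submodule.mem_span_singleton_self _)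

theorem Vf_mono (z : Fin N → ℂ) {m m' : ℕ} (h : m ≤ m') : Vf z m ≤ Vf z m' := by
  induction h with
  | refl => exact le_rfl
  | step _ ih => exact ih.trans le_sup_left

theorem Vf_full {K : Set (Matrix (Fin N) (Fin N) ℂ)} (hK : IsK K) (hN : 0 < N) {z : Fin N → ℂ}
    (hz : Gen z) (hzK : Matrix.diagonal z ∈ K) (hsum : ∑ j, z j ≠ 0) (hev : ev N ∈ RR K) (m : ℕ) :
    ∀ u ∈ Vf z m, star u ⬝ᵥ u = 1 → u ∈ RR K := by
  have hyR : ∀ a, yy z (ev N) a ∈ RR K := by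
    intro a
    induction a with
    | zero =>
      have h0 : yy z (ev N) 0 = ev N := by funext j; simp [yy]
      rw [h0]; exact hev
    | succ a ih => rw [← diag_yy]; exact RR_act hK hzK ih
  induction m with
  | zero =>
    intro u hu h1
    rw [Vf, Submodule.mem_bot] at hu
    rw [hu, dotProduct_zero] at h1
    exact absurd h1 zero_ne_one
  | succ m ih =>
    rcases Nat.eq_zero_or_pos m with rfl | hm
    · intro u hu h1
      rw [Vf, Vf, bot_sup_eq] at hu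
      obtain ⟨t, rfl⟩ := Submodule.mem_span_singleton.mp hu
      refine RR_smul ?_ (hyR 0)
      rw [star_smul, smul_dotProduct, dotProduct_smul, (hyR 0).1, RCLike.star_def, smul_eq_mul,
        smul_eq_mul, mul_one, Complex.conj_mul'] at h1
      have h2 : ‖t‖ ^ 2 = 1 := by exact_mod_cast h1
      nlinarith [norm_nonneg t]
    · rw [Vf]
      refine step hK hN _ ih (hyR m) ⟨yy z (ev N) (m - 1), ?_, ?_⟩
      · have := yy_mem_Vf z (m - 1)
        rwa [Nat.sub_add_cancel hm] at this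
      · obtain ⟨k, rfl⟩ : ∃ k, m = k + 1 := ⟨m - 1, by omega⟩
        rw [Nat.add_sub_cancel, yy_gram_succ hz hN]
        exact mul_ne_zero hsum (inv_ne_zero (by exact_mod_cast hN.ne'))

theorem Vf_top (hN : 0 < N) {z : Fin N → ℂ} (hz : Gen z) (w : Fin N → ℂ) : w ∈ Vf z N := by
  have hinj : Function.Injective z := by
    intro i j hij
    by_contra hne
    exact hz.pow_ne hne one_ne_zero (by rw [pow_one, pow_one, hij])
  have hdet : IsUnit (Matrix.vandermonde z).det :=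
    isUnit_iff_ne_zero.mpr (Matrix.det_vandermonde_ne_zero_iff.mpr hinj)
  have h0 : (√(N : ℝ) : ℂ) ≠ 0 := by
    have : (0 : ℝ) < √(N : ℝ) := Real.sqrt_pos.mpr (by exact_mod_cast hN)
    exact_mod_cast this.ne'
  let c : Fin N → ℂ := (Matrix.vandermonde z)⁻¹ *ᵥ ((√(N : ℝ) : ℂ) • w)
  have h1 : Matrix.vandermonde z *ᵥ c = (√(N : ℝ) : ℂ) • w := by
    simp only [c]
    rw [Matrix.mulVec_mulVec, Matrix.mul_nonsing_inv _ hdet, Matrix.one_mulVec]
  have h2 : w = ∑ i : Fin N, c i • yy z (ev N) i := by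
    funext j
    have h3 := congrFun h1 j
    simp only [Matrix.mulVec, dotProduct, Matrix.vandermonde_apply, Pi.smul_apply,
      smul_eq_mul] at h3
    rw [Finset.sum_apply]
    simp only [Pi.smul_apply, smul_eq_mul, yy, ev]
    have h4 : w j = (√(N : ℝ) : ℂ)⁻¹ * ∑ i : Fin N, z j ^ (i : ℕ) * c i := by
      rw [h3, ← mul_assoc, inv_mul_cancel₀ h0, one_mul]
    rw [h4, Finset.mul_sum]
    refine Finset.sum_congr rfl fun i _ => ?_
    push_cast
    ring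
  rw [h2]
  exact Submodule.sum_mem _ fun i _ => Submodule.smul_mem _ _
    (Vf_mono z (Nat.succ_le_of_lt i.2) (yy_mem_Vf z i))

theorem CD {K : Set (Matrix (Fin N) (Fin N) ℂ)} (hK : IsK K) (hN : 0 < N)
    (hR : ∀ u : Fin N → ℂ, star u ⬝ᵥ u = 1 → u ∈ RR K) (k : ℕ) :
    ∀ g : Matrix (Fin N) (Fin N) ℂ, gᴴ * g = 1 →
      (∀ i : Fin N, i.1 < N - k → g *ᵥ Pi.single i 1 = Pi.single i 1) →
      ∃ c : ℂ, ‖c‖ = 1 ∧ c • g ∈ K := by
  induction k with
  | zero =>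
    intro g _ h
    refine ⟨1, norm_one, ?_⟩
    have : g = 1 := by
      ext i j
      have h1 := congrFun (h j (by have := j.2; omega)) i
      rw [Matrix.mulVec_single_one, Matrix.col_apply] at h1
      rw [h1, Matrix.one_apply, Pi.single_apply]
    rw [this, one_smul]
    exact hK.one
  | succ k ih =>
    intro g hg h
    by_cases hk : k + 1 ≤ N
    swap
    · exact ih g hg fun i hi => h i (by omega)
    let i₀ : Fin N := ⟨N - (k + 1), by omega⟩
    have hun : ∀ i : Fin N, star (Pi.single i 1 : Fin N → ℂ) ⬝ᵥ (Pi.single i 1 : Fin N → ℂ) = 1 := by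
      intro i
      rw [dotProduct_single_one, Pi.star_apply, Pi.single_eq_same, star_one]
    have hxu : star (g *ᵥ Pi.single i₀ 1) ⬝ᵥ (g *ᵥ Pi.single i₀ 1) = 1 := by
      rw [Matrix.star_mulVec, ← Matrix.dotProduct_mulVec, Matrix.mulVec_mulVec, hg,
        Matrix.one_mulVec, hun]
    by_cases hxe : g *ᵥ Pi.single i₀ 1 = Pi.single i₀ 1
    · refine ih g hg fun i hi => ?_
      by_cases hi' : i.1 < N - (k + 1)
      · exact h i hi'
      · have : i = i₀ := Fin.ext (by simp only [i₀]; omega)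
        rw [this]; exact hxe
    obtain ⟨c₀, s, hu, hgx, hgw⟩ := refl_map hN hxu (hun i₀) hxe
    have hl := norm_exp_neg s
    have hl0 : cexp (-(s : ℂ) * I) ≠ 0 := Complex.exp_ne_zero _
    set r := rho ((c₀ : ℂ) • (Pi.single i₀ 1 - g *ᵥ Pi.single i₀ 1)) s with hr
    set l := cexp (-(s : ℂ) * I) with hldef
    have hrK : r ∈ K := (hR _ hu).2 s
    have hrr : r * rᴴ = 1 := hK.unit _ hrK
    have hrr' : rᴴ * r = 1 := mul_eq_one_comm.mp hrr
    have hll : conj (l⁻¹) * l⁻¹ = 1 := by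
      rw [Complex.conj_mul', norm_inv, hl]; simp
    obtain ⟨c, hc, hcK⟩ := ih (l⁻¹ • (r * g)) (by
      rw [Matrix.conjTranspose_smul, Matrix.conjTranspose_mul, Matrix.smul_mul, Matrix.mul_smul,
        smul_smul, RCLike.star_def, hll, one_smul, Matrix.mul_assoc, ← Matrix.mul_assoc rᴴ, hrr',
        Matrix.one_mul, hg]) (fun i hi => by
      rw [Matrix.smul_mulVec, ← Matrix.mulVec_mulVec]
      by_cases hi' : i.1 < N - (k + 1)
      · have h5 : star (Pi.single i₀ 1 - g *ᵥ Pi.single i₀ 1) ⬝ᵥ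
            (Pi.single i 1 : Fin N → ℂ) = 0 := by
          have hne : i ≠ i₀ := fun hh => by
            rw [hh] at hi'
            simp only [i₀] at hi'
            omega
          rw [star_sub, sub_dotProduct]
          have h6 : star (Pi.single i₀ 1 : Fin N → ℂ) ⬝ᵥ (Pi.single i 1 : Fin N → ℂ) = 0 := by
            rw [dotProduct_single_one, Pi.star_apply, Pi.single_eq_of_ne hne, star_zero]
          have h7 : star (g *ᵥ Pi.single i₀ 1) ⬝ᵥ (Pi.single i 1 : Fin N → ℂ) = 0 := by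
            nth_rewrite 1 [← h i hi']
            rw [Matrix.star_mulVec, ← Matrix.dotProduct_mulVec, Matrix.mulVec_mulVec, hg,
              Matrix.one_mulVec]
            exact h6
          rw [h6, h7, sub_zero]
        rw [h i hi', hgw _ h5, smul_smul, inv_mul_cancel₀ hl0, one_smul]
      · have : i = i₀ := Fin.ext (by simp only [i₀]; omega)
        rw [this, hgx, smul_smul, inv_mul_cancel₀ hl0, one_smul])
    refine ⟨c * l⁻¹, by rw [norm_mul, hc, norm_inv, hl]; simp, ?_⟩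
    have h8 := hK.mul _ (hK.star _ hrK) _ hcK
    rw [Matrix.mul_smul, Matrix.mul_smul, ← Matrix.mul_assoc, hrr', Matrix.one_mul,
      smul_smul] at h8
    exact h8

/-- the closed group is all of `SU(N)` -/
theorem K_full {K : Set (Matrix (Fin N) (Fin N) ℂ)} (hK : IsK K) (hdet : ∀ g ∈ K, g.det = 1)
    (hN : 0 < N) {z : Fin N → ℂ} (hz : Gen z) (hzK : Matrix.diagonal z ∈ K)
    (hsum : ∑ j, z j ≠ 0) (hev : ∀ s, rho (ev N) s ∈ K) {g : Matrix (Fin N) (Fin N) ℂ}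
    (hg : g ∈ Matrix.specialUnitaryGroup (Fin N) ℂ) : g ∈ K := by
  have hR : ∀ u : Fin N → ℂ, star u ⬝ᵥ u = 1 → u ∈ RR K := fun u hu =>
    Vf_full hK hN hz hzK hsum ⟨ev_unit hN, hev⟩ N u (Vf_top hN hz u) hu
  rw [Matrix.mem_specialUnitaryGroup_iff] at hg
  have hg1 : gᴴ * g = 1 := Matrix.mem_unitaryGroup_iff'.mp hg.1
  obtain ⟨c, hc, hcK⟩ := CD hK hN hR N g hg1 (fun i hi => by omega)
  have h1 := hdet _ hcK
  rw [Matrix.det_smul, Fintype.card_fin, hg.2, mul_one] at h1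
  have hc0 : c ≠ 0 := by
    rintro rfl
    simp at hc
  obtain ⟨φ, hφ⟩ : ∃ φ : ℝ, cexp (φ * I) = c := by
    refine ⟨c.arg, ?_⟩
    have h4 := Complex.norm_mul_exp_arg_mul_I c
    rw [hc] at h4
    simpa using h4
  have h2 : rho (ev N) φ = c⁻¹ • (1 : Matrix (Fin N) (Fin N) ℂ) := by
    unfold rho
    have h3 : cexp ((N : ℂ) * φ * I) = 1 := by
      rw [mul_assoc, Complex.exp_nat_mul, hφ, h1]
    have h4 : cexp (-(φ : ℂ) * I) = c⁻¹ := by
      rw [neg_mul, Complex.exp_neg, hφ]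
    rw [h3, h4, sub_self, zero_smul, add_zero]
  have h5 := hK.mul _ (hev φ) _ hcK
  rw [h2, Matrix.smul_mul, Matrix.one_mul, smul_smul, inv_mul_cancel₀ hc0, one_smul] at h5
  exact h5

end

end Pool.Agent.SG65
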