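import Pool.Agent.Lib.MP_4be2f9_h65.Top

/-!
# MP_4be2f9 (helper65): density of the group, eigenfunctions, the final statement
-/

set_option autoImplicit false

open scoped ComplexConjugate Matrix Topology
open Complex Filter

namespace Pool.Agent.SG65

noncomputable section

variable {N : ℕ}

/-- the closed set of matrices attached to a subgroup -/
def Kc (H : Subgroup (SU N)) : Set (Matrix (Fin N) (Fin N) ℂ) :=
  closure ((fun g : SU N => g.1) '' (H : Set (SU N)))

theorem Kc_closed_prop (H : Subgroup (SU N)) {P : Matrix (Fin N) (Fin N) ℂ → Prop}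
    (hP : IsClosed {g | P g}) (h : ∀ g : SU N, P g.1) : ∀ g ∈ Kc H, P g := by
  intro g hg
  have : Kc H ⊆ {g | P g} := by
    apply closure_minimal _ hP
    rintro _ ⟨g, _, rfl⟩
    exact h g
  exact this hg

theorem SU_unit (g : SU N) : g.1 * (g.1)ᴴ = 1 := by
  have := (Matrix.mem_specialUnitaryGroup_iff.mp g.2).1
  exact Matrix.mem_unitaryGroup_iff.mp this

theorem SU_det (g : SU N) : g.1.det = 1 := (Matrix.mem_specialUnitaryGroup_iff.mp g.2).2

theorem isK_Kc (H : Subgroup (SU N)) : IsK (Kc H) where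
  closed := isClosed_closure
  one := subset_closure ⟨1, H.one_mem, rfl⟩
  mul := fun g hg h hh => map_mem_closure₂ continuous_mul hg hh (by
    rintro _ ⟨a, ha, rfl⟩ _ ⟨b, hb, rfl⟩
    exact ⟨a * b, H.mul_mem ha hb, rfl⟩)
  unit := Kc_closed_prop H (isClosed_eq (by fun_prop) continuous_const) SU_unit
  star := fun g hg => map_mem_closure (f := fun g : Matrix (Fin N) (Fin N) ℂ => gᴴ)
    (by fun_prop) hg (by
      rintro _ ⟨a, ha, rfl⟩
      exact ⟨a⁻¹, H.inv_mem ha, rfl⟩)

theorem Kc_det (H : Subgroup (SU N)) : ∀ g ∈ Kc H, g.det = 1 :=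
  Kc_closed_prop H (isClosed_eq (Continuous.matrix_det continuous_id) continuous_const) SU_det

theorem all_rho (hN : 0 < N) {K : Set (Matrix (Fin N) (Fin N) ℂ)} (hK : IsK K) {β : ℝ}
    (hβ : ∀ r : ℚ, β ≠ 2 * Real.pi * r) (h : rho (ev N) β ∈ K) (s : ℝ) : rho (ev N) s ∈ K := by
  let Z : AddSubgroup ℝ :=
    { carrier := {s | rho (ev N) s ∈ K}
      add_mem' := fun {a b} ha hb => by
        change rho (ev N) (a + b) ∈ K
        rw [rho_add (ev_unit hN)]
        exact hK.mul _ ha _ hb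
      zero_mem' := by
        change rho (ev N) 0 ∈ K
        rw [rho_zero]
        exact hK.one
      neg_mem' := fun {a} ha => by
        change rho (ev N) (-a) ∈ K
        rw [← rho_conjTranspose]
        exact hK.star _ ha }
  have hZc : IsClosed (Z : Set ℝ) := by
    have hc : Continuous fun s : ℝ => rho (ev N) s :=
      continuous_rho.comp (continuous_const.prodMk continuous_id)
    exact hK.closed.preimage hc
  have hirr : Irrational (β / (2 * Real.pi)) := by
    rintro ⟨q, hq⟩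
    apply hβ q
    rw [hq]
    field_simp
  have hd := dense_addSubgroupClosure_pair_iff.mpr hirr
  have hle : AddSubgroup.closure {β, 2 * Real.pi} ≤ Z := by
    rw [AddSubgroup.closure_le]
    rintro x (rfl | rfl)
    · exact h
    · change rho (ev N) (2 * Real.pi) ∈ K
      have := rho_periodic (ev N) 0 1
      rw [rho_zero] at this
      have e : (0 : ℝ) + ((1 : ℤ) : ℝ) * (2 * Real.pi) = 2 * Real.pi := by push_cast; ring
      rw [e] at this
      rw [this]
      exact hK.one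
  have huniv : (Z : Set ℝ) = Set.univ := by
    have h1 : closure (Z : Set ℝ) = Set.univ := (hd.mono hle).closure_eq
    rwa [hZc.closure_eq] at h1
  have : s ∈ (Z : Set ℝ) := by rw [huniv]; trivial
  exact this

theorem dense_of (hN : 0 < N) {z : Fin N → ℂ} (hz : Gen z) (hre : ∀ i, 0 < (z i).re) {b : SU N}
    (hb : b.1 = Matrix.diagonal z) {β : ℝ} (hβ : ∀ r : ℚ, β ≠ 2 * Real.pi * r)
    (H : Subgroup (SU N)) (hbH : b ∈ H)
    (hrH : (⟨rho (ev N) β, rho_mem (ev_unit hN) _⟩ : SU N) ∈ H) : Dense (H : Set (SU N)) := by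
  intro g
  rw [closure_subtype]
  have hK := isK_Kc H
  have hr : rho (ev N) β ∈ Kc H := subset_closure ⟨_, hrH, rfl⟩
  have hbK : Matrix.diagonal z ∈ Kc H := subset_closure ⟨b, hbH, hb⟩
  have hsum : ∑ j, z j ≠ 0 := by
    intro h
    have h1 : (∑ j, z j).re = 0 := by rw [h]; rfl
    rw [Complex.re_sum] at h1
    have : Nonempty (Fin N) := ⟨⟨0, hN⟩⟩
    have h2 : 0 < ∑ j, (z j).re := Finset.sum_pos (fun j _ => hre j) Finset.univ_nonempty
    linarith
  exact K_full hK (Kc_det H) hN hz hbK hsum (all_rho hN hK hβ hr) g.2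

/-- eigenfunctions -/
theorem eigenfunction {n : ℕ} {ι : Type} [Fintype ι] (E : ι → SU N) {M : Matrix (W n N) (W n N) ℂ}
    (hM : ∑ i, tp n (E i).1 = M) (hMh : M.IsHermitian) {F : W n N → ℂ} (hF : F ≠ 0) {c : ℝ}
    (hc : M *ᵥ F = (c : ℂ) • F) :
    ∃ f : SU N → ℂ, Continuous f ∧ f ≠ 0 ∧ ∀ x, ∑ i, f (E i * x) = (c : ℂ) * f x := by
  refine ⟨fun x => star F ⬝ᵥ (tp n x.1 *ᵥ F), ?_, ?_, fun x => ?_⟩
  · simp only [dotProduct, Matrix.mulVec, tp]
    refine continuous_finsetSum _ fun u _ => continuous_const.mul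
      (continuous_finsetSum _ fun v _ => (continuous_finsetProd _ fun t _ => ?_).mul
        continuous_const)
    exact (continuous_apply (v t)).comp ((continuous_apply (u t)).comp continuous_subtype_val)
  · intro h
    have h1 := congrFun h 1
    have h2 : ((1 : SU N) : Matrix (Fin N) (Fin N) ℂ) = 1 := rfl
    simp only [h2, tp_one, Matrix.one_mulVec, Pi.zero_apply] at h1
    exact star_dot_self_ne hF h1
  · have h1 : ∀ i, star F ⬝ᵥ (tp n (E i * x).1 *ᵥ F) =
        star F ⬝ᵥ (tp n (E i).1 *ᵥ (tp n x.1 *ᵥ F)) := by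
      intro i
      have : (E i * x).1 = (E i).1 * x.1 := rfl
      rw [this, tp_mul, Matrix.mulVec_mulVec]
    simp only [h1]
    rw [← dotProduct_sum, ← Matrix.sum_mulVec, hM, Matrix.dotProduct_mulVec]
    have h2 : star F ᵥ* M = (c : ℂ) • star F := by
      have h3 := congrArg star hc
      rw [Matrix.star_mulVec, hMh.eq, star_smul, RCLike.star_def, Complex.conj_ofReal] at h3
      exact h3
    rw [h2, smul_dotProduct, smul_eq_mul]

theorem main (N : ℕ) (hN : 2 ≤ N) (k : ℕ) (hk : 4 ≤ k) (ε : ℝ)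
    (hε : 2 - 2 * Real.cos (Real.pi / N) < ε) :
    ∃ S : Finset (Matrix.specialUnitaryGroup (Fin N) ℂ), S.card = k ∧ (∀ s ∈ S, s⁻¹ ∈ S) ∧
      Dense (Subgroup.closure (S : Set (Matrix.specialUnitaryGroup (Fin N) ℂ)) :
        Set (Matrix.specialUnitaryGroup (Fin N) ℂ)) ∧
      {c : ℝ | (k : ℝ) - ε < c ∧ ∃ f : Matrix.specialUnitaryGroup (Fin N) ℂ → ℂ,
        Continuous f ∧ f ≠ 0 ∧ ∀ x, ∑ s ∈ S, f (s * x) = (c : ℂ) * f x}.Infinite := by
  classical
  have hN0 : 0 < N := by omega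
  obtain ⟨L, κ, hκ, hkL⟩ : ∃ L κ : ℕ, κ ≤ 1 ∧ k = 2 + L * 2 + κ :=
    ⟨(k - 2) / 2, (k - 2) % 2, by omega, by omega⟩
  have hL : 0 < L := by omega
  obtain ⟨z, hz, hz1, hre⟩ := exists_gen N hN0
  obtain ⟨β, hβ0, -, hβ, hcom⟩ := exists_beta hN hz (κ : ℝ) hL one_pos
  let b : SU N := ⟨Matrix.diagonal z, diagonal_mem hz hz1⟩
  have hinj := El_injective (b := b) hN hz rfl hβ L κ hκ
  let S : Finset (SU N) := Finset.univ.map ⟨El b hN0 L κ β, hinj⟩
  have hmemS : ∀ i, El b hN0 L κ β i ∈ S := fun i => Finset.mem_map_of_mem _ (Finset.mem_univ i)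
  refine ⟨S, ?_, ?_, ?_, ?_⟩
  · rw [Finset.card_map, Finset.card_univ]
    simp only [Fintype.card_sum, Fintype.card_prod, Fintype.card_bool, Fintype.card_fin]
    omega
  · intro s hs
    obtain ⟨i, -, rfl⟩ := Finset.mem_map.mp hs
    rcases i with (_ | _) | ⟨l, _ | _⟩ | i
    · have : (El b hN0 L κ β (Sum.inl false))⁻¹ = El b hN0 L κ β (Sum.inl true) := inv_inv b
      change (El b hN0 L κ β (Sum.inl false))⁻¹ ∈ S
      rw [this]; exact hmemS _
    · exact hmemS (Sum.inl false)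
    · have : (El b hN0 L κ β (Sum.inr (Sum.inl (l, false))))⁻¹ =
          El b hN0 L κ β (Sum.inr (Sum.inl (l, true))) := by
        apply Subtype.ext
        rw [coe_inv_SU]
        change (rho (ev N) (-((l + 1 : ℝ) * β)))ᴴ = rho (ev N) ((l + 1 : ℝ) * β)
        rw [rho_conjTranspose, neg_neg]
      change (El b hN0 L κ β (Sum.inr (Sum.inl (l, false))))⁻¹ ∈ S
      rw [this]; exact hmemS _
    · have : (El b hN0 L κ β (Sum.inr (Sum.inl (l, true))))⁻¹ =
          El b hN0 L κ β (Sum.inr (Sum.inl (l, false))) := by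
        apply Subtype.ext
        rw [coe_inv_SU]
        change (rho (ev N) ((l + 1 : ℝ) * β))ᴴ = rho (ev N) (-((l + 1 : ℝ) * β))
        rw [rho_conjTranspose]
      change (El b hN0 L κ β (Sum.inr (Sum.inl (l, true))))⁻¹ ∈ S
      rw [this]; exact hmemS _
    · have : (El b hN0 L κ β (Sum.inr (Sum.inr i)))⁻¹ = El b hN0 L κ β (Sum.inr (Sum.inr i)) :=
        inv_one
      change (El b hN0 L κ β (Sum.inr (Sum.inr i)))⁻¹ ∈ S
      rw [this]; exact hmemS _
  · refine dense_of hN0 hz hre (b := b) rfl hβ _ (Subgroup.subset_closure ?_)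
      (Subgroup.subset_closure ?_)
    · exact hmemS (Sum.inl true)
    · have h1 := hmemS (Sum.inr (Sum.inl (⟨0, hL⟩, true)))
      have h2 : El b hN0 L κ β (Sum.inr (Sum.inl (⟨0, hL⟩, true))) =
          (⟨rho (ev N) β, rho_mem (ev_unit hN0) _⟩ : SU N) := by
        apply Subtype.ext
        change rho (ev N) ((((⟨0, hL⟩ : Fin L) : ℕ) + 1 : ℝ) * β) = rho (ev N) β
        simp
      rw [h2] at h1
      exact h1
  · -- the eigenvalues
    have hr : (k : ℝ) - ε < κ + 2 * L + 2 * Real.cos (Real.pi / N) := by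
      rw [hkL]
      push_cast
      linarith
    have hfr := rayleigh_frequently hN hz (κ : ℝ) L hβ hr
    have hinf := Nat.frequently_atTop_iff_infinite.mp hfr
    have hex : ∀ p : ℕ, (∃ ψ ∈ Sy (1 + N * p) N, ((k : ℝ) - ε) * (star ψ ⬝ᵥ ψ).re <
        (star ψ ⬝ᵥ (An (1 + N * p) z κ L β *ᵥ ψ)).re) →
        ∃ (c : ℝ) (F : W (1 + N * p) N → ℂ), F ∈ Sy (1 + N * p) N ∧ F ≠ 0 ∧ (k : ℝ) - ε < c ∧
          An (1 + N * p) z κ L β *ᵥ F = (c : ℂ) • F := by
      rintro p ⟨ψ, hψ, h⟩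
      exact exists_eig _ (An_isHermitian _ z κ L β) _ (fun F hF => An_sym hF) ψ hψ _ h
    let cc : ℕ → ℝ := fun p => if h : ∃ ψ ∈ Sy (1 + N * p) N, ((k : ℝ) - ε) * (star ψ ⬝ᵥ ψ).re <
        (star ψ ⬝ᵥ (An (1 + N * p) z κ L β *ᵥ ψ)).re then (hex p h).choose else 0
    refine Set.infinite_of_injOn_mapsTo (f := cc) ?_ ?_ hinf
    · intro p hp q hq hpq
      have hp' := (hex p hp).choose_spec
      have hq' := (hex q hq).choose_spec
      have e1 : cc p = (hex p hp).choose := dif_pos hp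
      have e2 : cc q = (hex q hq).choose := dif_pos hq
      rw [← e1] at hp'
      rw [← e2, ← hpq] at hq'
      obtain ⟨F, hF, hF0, -, hFc⟩ := hp'
      obtain ⟨F', hF', hF0', -, hFc'⟩ := hq'
      rcases lt_trichotomy p q with h | h | h
      · exact absurd ⟨_, F, F', hF, hF0, hF', hF0', hFc, hFc'⟩ (hcom p q h)
      · exact h
      · exact absurd ⟨_, F', F, hF', hF0', hF, hF0, hFc', hFc⟩ (hcom q p h)
    · intro p hp
      have hp' := (hex p hp).choose_spec
      have e1 : cc p = (hex p hp).choose := dif_pos hp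
      rw [← e1] at hp'
      obtain ⟨F, hF, hF0, hlt, hFc⟩ := hp'
      refine ⟨hlt, ?_⟩
      obtain ⟨f, hf1, hf2, hf3⟩ := eigenfunction (El b hN0 L κ β) (sum_tp_El z b rfl hN0 L κ _ β)
        (An_isHermitian _ z κ L β) hF0 hFc
      refine ⟨f, hf1, hf2, fun x => ?_⟩
      rw [← hf3 x, Finset.sum_map]
      rfl

end

end Pool.Agent.SG65
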