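import Pool.Agent.Lib.MP_4be2f9_h65.Pert

/-!
# MP_4be2f9 (helper65): generic unit complex numbers with product one
-/

set_option autoImplicit false

open scoped ComplexConjugate Matrix Topology
open Complex Filter

namespace Pool.Agent.SG65

noncomputable section

theorem exists_gen (N : ℕ) (hN : 0 < N) :
    ∃ z : Fin N → ℂ, Gen z ∧ ∏ i, z i = 1 ∧ ∀ i, 0 < (z i).re := by
  obtain ⟨m, rfl⟩ : ∃ m, N = m + 1 := ⟨N - 1, by omega⟩
  obtain ⟨α, hα⟩ : ∃ α : ℝ, Transcendental ℤ α :=
    ⟨_, transcendental_liouvilleNumber (le_refl 2)⟩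
  let θ' : Fin (m + 1) → ℝ :=
    Fin.snoc (fun j : Fin m => α ^ (j.1 + 1)) (-∑ j : Fin m, α ^ (j.1 + 1))
  have hθ1' : ∀ j : Fin m, θ' j.castSucc = α ^ (j.1 + 1) := fun j => by simp [θ']
  have hθ2' : θ' (Fin.last m) = -∑ j : Fin m, α ^ (j.1 + 1) := by simp [θ']
  obtain ⟨M, hM⟩ := exists_nat_gt (4 * ∑ i, |θ' i|)
  have hM0 : (0 : ℝ) < M := lt_of_le_of_lt (by positivity) hM
  let θ : Fin (m + 1) → ℝ := fun i => θ' i / M
  have hθ1 : ∀ j : Fin m, θ j.castSucc = α ^ (j.1 + 1) / M := fun j => by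
    simp only [θ, hθ1']
  have hθ2 : θ (Fin.last m) = -∑ j : Fin m, α ^ (j.1 + 1) / M := by
    simp only [θ, hθ2', neg_div, Finset.sum_div]
  have hθb : ∀ i, |θ i| < 1 / 4 := by
    intro i
    have h1 : |θ' i| ≤ ∑ i, |θ' i| := Finset.single_le_sum (f := fun i => |θ' i|)
      (fun i _ => abs_nonneg _) (Finset.mem_univ i)
    simp only [θ]
    rw [abs_div, abs_of_pos hM0, div_lt_iff₀ hM0]
    linarith
  have hprod : ∀ w : Fin (m + 1) → ℤ, ∏ i, cexp (2 * Real.pi * I * θ i) ^ w i =
      cexp (2 * Real.pi * I * ((∑ i, (w i : ℝ) * θ i : ℝ) : ℂ)) := by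
    intro w
    rw [Complex.ofReal_sum, Finset.mul_sum, Complex.exp_sum]
    refine Finset.prod_congr rfl fun i _ => ?_
    rw [← Complex.exp_int_mul]
    congr 1
    push_cast
    ring
  refine ⟨fun i => cexp (2 * Real.pi * I * θ i), ⟨fun i => ?_, fun w hw => ?_⟩, ?_, fun i => ?_⟩
  · rw [show (2 * Real.pi * I * θ i : ℂ) = ((2 * Real.pi * θ i : ℝ) : ℂ) * I by push_cast; ring,
      Complex.norm_exp_ofReal_mul_I]
  · rw [hprod, Complex.exp_eq_one_iff] at hw
    obtain ⟨k, hk⟩ := hw
    have hpi : (2 * Real.pi * I : ℂ) ≠ 0 := by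
      simp [Real.pi_ne_zero]
    have h1 : ((∑ i, (w i : ℝ) * θ i : ℝ) : ℂ) = ((k : ℝ) : ℂ) := by
      apply mul_left_cancel₀ hpi
      rw [hk]
      push_cast
      ring
    have h2 : ∑ i, (w i : ℝ) * θ i = k := Complex.ofReal_injective h1
    rw [Fin.sum_univ_castSucc, hθ2] at h2
    simp only [hθ1] at h2
    have h3 : ∑ j : Fin m, ((w j.castSucc - w (Fin.last m) : ℤ) : ℝ) * α ^ (j.1 + 1) =
        k * M := by
      rw [← h2, mul_neg, Finset.mul_sum, ← sub_eq_add_neg, ← Finset.sum_sub_distrib,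
        Finset.sum_mul]
      refine Finset.sum_congr rfl fun j _ => ?_
      have : (M : ℝ) ≠ 0 := hM0.ne'
      push_cast
      field_simp
    let p : Polynomial ℤ := ∑ j : Fin m, Polynomial.C (w j.castSucc - w (Fin.last m)) *
      Polynomial.X ^ (j.1 + 1) - Polynomial.C (k * (M : ℤ))
    have hp : Polynomial.aeval α p = 0 := by
      simp only [p, map_sub, map_sum, map_mul, map_pow, Polynomial.aeval_X, eq_intCast,
        map_intCast]
      rw [sub_eq_zero]
      have h4 : ((k : ℝ) * ((M : ℤ) : ℝ)) = k * M := by push_cast; rfl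
      rw [h4, ← h3]
      refine Finset.sum_congr rfl fun j _ => ?_
      push_cast
      ring
    have hp0 : p = 0 := by
      by_contra hne
      exact hα ⟨p, hne, hp⟩
    refine ⟨w (Fin.last m), fun i => ?_⟩
    refine Fin.lastCases rfl (fun j => ?_) i
    have h4 : p.coeff (j.1 + 1) = w j.castSucc - w (Fin.last m) := by
      simp only [p, Polynomial.coeff_sub, Polynomial.finsetSum_coeff, Polynomial.coeff_C_mul,
        Polynomial.coeff_X_pow, Polynomial.coeff_C]
      rw [Finset.sum_eq_single j]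
      · simp
      · intro b _ hb
        have : ¬ (j.1 + 1 = b.1 + 1) := fun h => hb (Fin.ext (by omega))
        rw [if_neg this, mul_zero]
      · simp
    rw [hp0, Polynomial.coeff_zero] at h4
    omega
  · have h := hprod (fun _ => 1)
    simp only [zpow_one, Int.cast_one, one_mul] at h
    rw [h, Fin.sum_univ_castSucc, hθ2]
    simp only [hθ1]
    simp
  · change 0 < (cexp (2 * Real.pi * I * θ i)).re
    rw [show (2 * Real.pi * I * θ i : ℂ) = ((2 * Real.pi * θ i : ℝ) : ℂ) * I by push_cast; ring,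
      Complex.exp_ofReal_mul_I_re]
    have h1 := abs_lt.mp (hθb i)
    have hpi := Real.pi_pos
    apply Real.cos_pos_of_mem_Ioo
    constructor
    · nlinarith [h1.1]
    · nlinarith [h1.2]

variable {N : ℕ}

theorem Gen.ne_zero {z : Fin N → ℂ} (hz : Gen z) (i : Fin N) : z i ≠ 0 := fun h => by
  have := hz.unit i
  rw [h, norm_zero] at this
  exact zero_ne_one this

/-- the powers of different coordinates differ -/
theorem Gen.pow_ne {z : Fin N → ℂ} (hz : Gen z) {i j : Fin N} (hij : i ≠ j) {d : ℕ} (hd : d ≠ 0) :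
    z i ^ d ≠ z j ^ d := by
  intro h
  let w : Fin N → ℤ := fun k => if k = i then d else if k = j then -d else 0
  have h1 : ∏ k, z k ^ w k = 1 := by
    rw [← Finset.mul_prod_erase _ _ (Finset.mem_univ i),
      ← Finset.mul_prod_erase (Finset.univ.erase i) _
        (Finset.mem_erase.mpr ⟨Ne.symm hij, Finset.mem_univ j⟩)]
    have h2 : ∏ k ∈ (Finset.univ.erase i).erase j, z k ^ w k = 1 := by
      refine Finset.prod_eq_one fun k hk => ?_
      rw [Finset.mem_erase, Finset.mem_erase] at hk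
      simp [w, hk.1, hk.2.1]
    have h3 : w i = d := by simp [w]
    have h4 : w j = -d := by simp [w, Ne.symm hij]
    rw [h2, h3, h4, zpow_natCast, zpow_neg, zpow_natCast, h, mul_one]
    exact mul_inv_cancel₀ (pow_ne_zero _ (hz.ne_zero j))
  obtain ⟨m, hm⟩ := hz.gen w h1
  have h3 : w i = d := by simp [w]
  have h4 : w j = -d := by simp [w, Ne.symm hij]
  have := hm i
  have := hm j
  omega

theorem diagonal_mem {z : Fin N → ℂ} (hz : Gen z) (h : ∏ i, z i = 1) :
    Matrix.diagonal z ∈ Matrix.specialUnitaryGroup (Fin N) ℂ := by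
  rw [Matrix.mem_specialUnitaryGroup_iff]
  constructor
  · rw [Matrix.mem_unitaryGroup_iff, Matrix.star_eq_conjTranspose,
      Matrix.diagonal_conjTranspose, Matrix.diagonal_mul_diagonal]
    have : (fun i => z i * star z i) = fun _ => 1 := by
      funext i
      rw [Pi.star_apply, RCLike.star_def, Complex.mul_conj', hz.unit i]
      simp
    rw [this, Matrix.diagonal_one]
  · rw [Matrix.det_diagonal, h]

end

end Pool.Agent.SG65
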