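import Pool.Agent.Lib.MP_4be2f9_h65.Gen

/-!
# MP_4be2f9 (helper65): the path of length `N - 1` in symmetric tensors of high degree
-/

set_option autoImplicit false

open scoped ComplexConjugate Matrix Topology
open Complex Filter

namespace Pool.Agent.SG65

noncomputable section

variable {N : ℕ}

theorem ten_smul (n : ℕ) (c : ℂ) (x : Fin N → ℂ) : ten n (c • x) = c ^ n • ten n x := by
  funext u
  simp [ten, Finset.prod_mul_distrib]

/-- the orbit of `x` -/
def yy (z x : Fin N → ℂ) (a : ℕ) : Fin N → ℂ := fun j => z j ^ a * x j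

theorem diag_yy (z x : Fin N → ℂ) (a : ℕ) :
    Matrix.diagonal z *ᵥ yy z x a = yy z x (a + 1) := by
  funext j
  rw [Matrix.mulVec_diagonal, yy, yy, pow_succ']
  ring

theorem exists_x0 (hN : 2 ≤ N) (z : Fin N → ℂ) : ∃ x : Fin N → ℂ, ∑ j, ‖x j‖ ^ 2 = 1 ∧
    ∀ a, a + 2 ≤ N → ∑ j, yy z x a j = 0 := by
  let M : Matrix (Fin (N - 1)) (Fin N) ℂ := fun a j => z j ^ (a : ℕ)
  have hk : LinearMap.ker M.mulVecLin ≠ ⊥ := by
    apply LinearMap.ker_ne_bot_of_finrank_lt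
    rw [Module.finrank_fin_fun, Module.finrank_fin_fun]
    omega
  obtain ⟨x, hx, hx0⟩ := Submodule.exists_mem_ne_zero_of_ne_bot hk
  rw [LinearMap.mem_ker, Matrix.mulVecLin_apply] at hx
  have hs : 0 < ∑ j, ‖x j‖ ^ 2 := by
    obtain ⟨i, hi⟩ := Function.ne_iff.mp hx0
    have h1 : 0 < ‖x i‖ := norm_pos_iff.mpr hi
    exact lt_of_lt_of_le (by positivity) (Finset.single_le_sum
      (f := fun i => ‖x i‖ ^ 2) (fun i _ => by positivity) (Finset.mem_univ i))
  refine ⟨fun j => (((√(∑ j, ‖x j‖ ^ 2))⁻¹ : ℝ) : ℂ) * x j, ?_, fun a ha => ?_⟩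
  · simp only [norm_mul, Complex.norm_real, mul_pow, ← Finset.mul_sum]
    rw [Real.norm_eq_abs, abs_inv, abs_of_nonneg (Real.sqrt_nonneg _), inv_pow,
      Real.sq_sqrt hs.le]
    exact inv_mul_cancel₀ hs.ne'
  · have h1 := congrFun hx ⟨a, by omega⟩
    simp only [Matrix.mulVec, dotProduct, M, Pi.zero_apply] at h1
    have h2 : ∑ j, yy z (fun j => (((√(∑ j, ‖x j‖ ^ 2))⁻¹ : ℝ) : ℂ) * x j) a j =
        (((√(∑ j, ‖x j‖ ^ 2))⁻¹ : ℝ) : ℂ) * ∑ j, z j ^ a * x j := by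
      rw [Finset.mul_sum]
      refine Finset.sum_congr rfl fun j _ => ?_
      simp only [yy]
      ring
    rw [h2, h1, mul_zero]

theorem ev_dot (x : Fin N → ℂ) : star (ev N) ⬝ᵥ x = ((1 / √N : ℝ) : ℂ) * ∑ j, x j := by
  simp only [dotProduct, ev, Pi.star_apply, RCLike.star_def, Complex.conj_ofReal, Finset.mul_sum]

/-- the Gram matrix of the orbit -/
theorem gram {z : Fin N → ℂ} (x : Fin N → ℂ) (a b : ℕ) :
    star (yy z x a) ⬝ᵥ yy z x b = ∑ j, (conj (z j) ^ a * z j ^ b) * ((‖x j‖ ^ 2 : ℝ) : ℂ) := by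
  simp only [dotProduct, yy, Pi.star_apply, RCLike.star_def, map_mul, map_pow]
  refine Finset.sum_congr rfl fun j _ => ?_
  have : conj (x j) * x j = ((‖x j‖ ^ 2 : ℝ) : ℂ) := by rw [Complex.conj_mul']; push_cast; ring
  rw [← this]
  ring

theorem gram_self {z : Fin N → ℂ} (hz : Gen z) {x : Fin N → ℂ} (hx : ∑ j, ‖x j‖ ^ 2 = 1) (a : ℕ) :
    star (yy z x a) ⬝ᵥ yy z x a = 1 := by
  rw [gram]
  have h1 : ∀ j, conj (z j) ^ a * z j ^ a = 1 := by
    intro j
    rw [← mul_pow, Complex.conj_mul', hz.unit j]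
    simp
  simp only [h1, one_mul]
  rw [← Complex.ofReal_sum, hx, Complex.ofReal_one]

/-- a convex combination of unit numbers, not all equal, has norm less than one -/
theorem norm_comb_lt {ι : Type*} [Fintype ι] (ω : ι → ℂ) (p : ι → ℝ) (hω : ∀ i, ‖ω i‖ = 1)
    (hp : ∀ i, 0 ≤ p i) (hp1 : ∑ i, p i = 1) {i j : ι} (hi : p i ≠ 0) (hj : p j ≠ 0)
    (hij : ω i ≠ ω j) : ‖∑ i, ω i * (p i : ℂ)‖ < 1 := by
  by_contra hcon
  rw [not_lt] at hcon
  set S := ∑ i, ω i * (p i : ℂ) with hS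
  have h1 : ∑ k, p k * ‖ω k - S‖ ^ 2 = 1 - ‖S‖ ^ 2 := by
    have h2 : ∀ k, ‖ω k - S‖ ^ 2 = 1 - 2 * (ω k * conj S).re + ‖S‖ ^ 2 := by
      intro k
      rw [← Complex.normSq_eq_norm_sq, Complex.normSq_sub, Complex.normSq_eq_norm_sq,
        Complex.normSq_eq_norm_sq, hω]
      ring
    have h3 : ∑ k, p k * (ω k * conj S).re = ‖S‖ ^ 2 := by
      have h4 : ∑ k, p k * (ω k * conj S).re = ((∑ k, ω k * (p k : ℂ)) * conj S).re := by
        rw [Finset.sum_mul, Complex.re_sum]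
        refine Finset.sum_congr rfl fun k _ => ?_
        rw [show ω k * (p k : ℂ) * conj S = (p k : ℂ) * (ω k * conj S) by ring,
          Complex.re_ofReal_mul]
      rw [h4, ← hS, Complex.mul_conj, Complex.ofReal_re, Complex.normSq_eq_norm_sq]
    have h5 : ∑ k, p k * ‖ω k - S‖ ^ 2 =
        ∑ k, p k - 2 * (∑ k, p k * (ω k * conj S).re) + (∑ k, p k) * ‖S‖ ^ 2 := by
      rw [Finset.mul_sum, Finset.sum_mul, ← Finset.sum_sub_distrib, ← Finset.sum_add_distrib]
      refine Finset.sum_congr rfl fun k _ => ?_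
      rw [h2]; ring
    rw [h5, h3, hp1]; ring
  have h6 : ∑ k, p k * ‖ω k - S‖ ^ 2 ≤ 0 := by
    rw [h1]; nlinarith [norm_nonneg S]
  have h7 : ∀ k, p k * ‖ω k - S‖ ^ 2 = 0 := by
    have h8 : ∑ k, p k * ‖ω k - S‖ ^ 2 = 0 :=
      le_antisymm h6 (Finset.sum_nonneg fun k _ => mul_nonneg (hp k) (by positivity))
    exact fun k => (Finset.sum_eq_zero_iff_of_nonneg
      (fun k _ => mul_nonneg (hp k) (by positivity))).mp h8 k (Finset.mem_univ k)
  have h9 : ∀ k, p k ≠ 0 → ω k = S := by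
    intro k hk
    have := (mul_eq_zero.mp (h7 k)).resolve_left hk
    have h10 : ‖ω k - S‖ = 0 := by simpa using this
    exact sub_eq_zero.mp (norm_eq_zero.mp h10)
  exact hij ((h9 i hi).trans (h9 j hj).symm)

theorem gram_lt {z : Fin N → ℂ} (hz : Gen z) {x : Fin N → ℂ} (hx : ∑ j, ‖x j‖ ^ 2 = 1)
    (hx0 : ∑ j, x j = 0) {a b : ℕ} (hab : a ≠ b) : ‖star (yy z x a) ⬝ᵥ yy z x b‖ < 1 := by
  -- two nonzero coordinates
  obtain ⟨i, hi⟩ : ∃ i, x i ≠ 0 := by
    by_contra h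
    push Not at h
    simp [h] at hx
  obtain ⟨j, hj, hji⟩ : ∃ j, x j ≠ 0 ∧ j ≠ i := by
    by_contra h
    push Not at h
    have h1 : ∑ j, x j = x i := by
      refine Finset.sum_eq_single i (fun b _ hb => ?_) (by simp)
      by_contra hb0
      exact hb (h b hb0)
    exact hi (h1.symm.trans hx0)
  rw [gram]
  refine norm_comb_lt (fun j => conj (z j) ^ a * z j ^ b) (fun j => ‖x j‖ ^ 2) (fun j => ?_)
    (fun j => by positivity) hx (i := i) (j := j) ?_ ?_ ?_
  · rw [norm_mul, norm_pow, norm_pow, RCLike.norm_conj, hz.unit, one_pow, one_pow, one_mul]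
  · exact pow_ne_zero _ (norm_ne_zero_iff.mpr hi)
  · exact pow_ne_zero _ (norm_ne_zero_iff.mpr hj)
  · have hc : ∀ k, conj (z k) = (z k)⁻¹ := by
      intro k
      rw [Complex.inv_def, Complex.normSq_eq_norm_sq, hz.unit]
      simp
    have key : ∀ {a b : ℕ}, a < b → ∀ k, conj (z k) ^ a * z k ^ b = z k ^ (b - a) := by
      intro a b h k
      rw [hc, inv_pow, ← Nat.sub_add_cancel h.le, pow_add, Nat.add_sub_cancel]
      field_simp [hz.ne_zero k]
    rcases lt_or_gt_of_ne hab with h | h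
    · change conj (z i) ^ a * z i ^ b ≠ conj (z j) ^ a * z j ^ b
      rw [key h, key h]
      exact hz.pow_ne (Ne.symm hji) (by omega)
    · intro he
      change conj (z i) ^ a * z i ^ b = conj (z j) ^ a * z j ^ b at he
      have he' := congrArg (starRingEnd ℂ) he
      simp only [map_mul, map_pow, Complex.conj_conj] at he'
      rw [mul_comm, key h, mul_comm, key h] at he'
      exact hz.pow_ne (Ne.symm hji) (by omega) he'

theorem gram_tendsto {z : Fin N → ℂ} (hz : Gen z) {x : Fin N → ℂ} (hx : ∑ j, ‖x j‖ ^ 2 = 1)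
    (hx0 : ∑ j, x j = 0) (hN : 0 < N) (a b : ℕ) :
    Tendsto (fun p : ℕ => (star (yy z x a) ⬝ᵥ yy z x b) ^ (1 + N * p)) atTop
      (𝓝 (if a = b then 1 else 0)) := by
  split_ifs with h
  · subst h
    simp only [gram_self hz hx, one_pow]
    exact tendsto_const_nhds
  · have h1 : Tendsto (fun p : ℕ => (1 + N * p)) atTop atTop := by
      refine tendsto_atTop_mono (f := fun p : ℕ => p) (fun p => ?_) tendsto_id
      have : p ≤ N * p := Nat.le_mul_of_pos_left p hN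
      omega
    exact (tendsto_pow_atTop_nhds_zero_of_norm_lt_one (gram_lt hz hx hx0 h)).comp h1

end

end Pool.Agent.SG65
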