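import Pool.Agent.Lib.MP_4be2f9_h65.Cnt

/-!
# MP_4be2f9 (helper65): symmetric tensors of different degrees share no eigenvalue, for small `β`
-/

set_option autoImplicit false

open scoped ComplexConjugate Matrix Topology
open Complex Filter

namespace Pool.Agent.SG65

noncomputable section

variable {N n : ℕ}

/-- the operator on tensors -/
def An (n : ℕ) (z : Fin N → ℂ) (κ : ℝ) (L : ℕ) (β : ℝ) : Matrix (W n N) (W n N) ℂ :=
  (κ : ℂ) • 1 + (tp n (Matrix.diagonal z) + (tp n (Matrix.diagonal z))ᴴ) +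
    ∑ l ∈ Finset.range L, (tp n (rho (ev N) ((l + 1 : ℝ) * β)) +
      tp n (rho (ev N) (-((l + 1 : ℝ) * β))))

/-- generic unit complex numbers with product `1` -/
structure Gen (z : Fin N → ℂ) : Prop where
  unit : ∀ i, ‖z i‖ = 1
  gen : ∀ w : Fin N → ℤ, ∏ i, z i ^ w i = 1 → ∃ m : ℤ, ∀ i, w i = m

theorem An_isHermitian (n : ℕ) (z : Fin N → ℂ) (κ : ℝ) (L : ℕ) (β : ℝ) :
    (An n z κ L β).IsHermitian := by
  unfold Matrix.IsHermitian An
  rw [Matrix.conjTranspose_add, Matrix.conjTranspose_add, Matrix.conjTranspose_smul,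
    Matrix.conjTranspose_one, Matrix.conjTranspose_add, Matrix.conjTranspose_conjTranspose,
    Matrix.conjTranspose_sum]
  congr 1
  · congr 1
    · simp
    · exact add_comm _ _
  · refine Finset.sum_congr rfl fun l _ => ?_
    rw [Matrix.conjTranspose_add, tp_conjTranspose, tp_conjTranspose, rho_conjTranspose,
      rho_conjTranspose, neg_neg, add_comm]

theorem An_sym {z : Fin N → ℂ} {κ : ℝ} {L : ℕ} {β : ℝ} {F : W n N → ℂ} (hF : IsSym F) :
    IsSym (An n z κ L β *ᵥ F) := by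
  unfold An
  rw [Matrix.add_mulVec, Matrix.add_mulVec, Matrix.smul_mulVec, Matrix.one_mulVec,
    Matrix.add_mulVec, Matrix.sum_mulVec]
  refine ((hF.smul _).add ((hF.tp _).add ?_)).add (IsSym.sum _ fun l _ => ?_)
  · rw [tp_conjTranspose]; exact hF.tp _
  · rw [Matrix.add_mulVec]; exact (hF.tp _).add (hF.tp _)

theorem tp_diagonal (z : Fin N → ℂ) (F : W n N → ℂ) (u : W n N) :
    (tp n (Matrix.diagonal z) *ᵥ F) u = (∏ t, z (u t)) * F u := by
  classical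
  simp only [Matrix.mulVec, dotProduct, tp]
  rw [Finset.sum_eq_single u]
  · simp
  · intro v _ hv
    obtain ⟨t, ht⟩ := Function.ne_iff.mp (Ne.symm hv)
    have h0 : Matrix.diagonal z (u t) (v t) = 0 := Matrix.diagonal_apply_ne _ ht
    rw [show (∏ t, Matrix.diagonal z (u t) (v t)) = 0 from
      Finset.prod_eq_zero (Finset.mem_univ t) h0, zero_mul]
  · simp

theorem tp_diagonal_star (z : Fin N → ℂ) (F : W n N → ℂ) (u : W n N) :
    ((tp n (Matrix.diagonal z))ᴴ *ᵥ F) u = conj (∏ t, z (u t)) * F u := by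
  rw [tp_conjTranspose, Matrix.diagonal_conjTranspose, tp_diagonal]
  simp [map_prod]

theorem An_zero (z : Fin N → ℂ) (κ : ℝ) (L : ℕ) (F : W n N → ℂ) (u : W n N) :
    (An n z κ L 0 *ᵥ F) u = ((κ + 2 * L + 2 * (∏ t, z (u t)).re : ℝ) : ℂ) * F u := by
  have h1 : ∀ l : ℕ, tp n (rho (ev N) ((l + 1 : ℝ) * 0)) + tp n (rho (ev N) (-((l + 1 : ℝ) * 0))) =
      (2 : ℂ) • (1 : Matrix (W n N) (W n N) ℂ) := by
    intro l
    rw [mul_zero, neg_zero, rho_zero, tp_one, two_smul]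
  have h2 : An n z κ L 0 = (κ : ℂ) • 1 + (tp n (Matrix.diagonal z) +
      (tp n (Matrix.diagonal z))ᴴ) + ((2 * L : ℝ) : ℂ) • (1 : Matrix (W n N) (W n N) ℂ) := by
    unfold An
    rw [Finset.sum_congr rfl fun l _ => h1 l, Finset.sum_const, Finset.card_range,
      ← Nat.cast_smul_eq_nsmul ℂ, smul_smul]
    congr 2
    push_cast
    ring
  rw [h2, Matrix.add_mulVec, Matrix.add_mulVec, Matrix.smul_mulVec, Matrix.smul_mulVec,
    Matrix.one_mulVec, Matrix.add_mulVec]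
  simp only [Pi.add_apply, Pi.smul_apply, tp_diagonal, tp_diagonal_star, smul_eq_mul]
  have h3 : (∏ t, z (u t)) + conj (∏ t, z (u t)) = ((2 * (∏ t, z (u t)).re : ℝ) : ℂ) := by
    rw [Complex.add_conj]
  have h4 : (∏ t, z (u t)) * F u + conj (∏ t, z (u t)) * F u =
      ((2 * (∏ t, z (u t)).re : ℝ) : ℂ) * F u := by
    rw [← add_mul, h3]
  rw [h4]
  push_cast
  ring

theorem eq_or_conj {a b : ℂ} (ha : ‖a‖ = 1) (hb : ‖b‖ = 1) (h : a.re = b.re) :
    a = b ∨ a = conj b := by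
  have h1 : a.re * a.re + a.im * a.im = 1 := by
    have := Complex.normSq_eq_norm_sq a
    rw [ha, Complex.normSq_apply] at this
    linarith
  have h2 : b.re * b.re + b.im * b.im = 1 := by
    have := Complex.normSq_eq_norm_sq b
    rw [hb, Complex.normSq_apply] at this
    linarith
  have h3 : a.im * a.im = b.im * b.im := by rw [h] at h1; linarith
  rcases mul_self_eq_mul_self_iff.mp h3 with h4 | h4
  · left; exact Complex.ext h h4
  · right; exact Complex.ext (by simpa using h) (by simpa using h4)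

theorem gen_re {z : Fin N → ℂ} (hz : Gen z) {n' : ℕ} {u : W n N} {u' : W n' N}
    (h : (∏ t, z (u t)).re = (∏ t, z (u' t)).re) :
    (∃ r : ℤ, ∀ i, (cnt u' i : ℤ) - cnt u i = r) ∨
      ∃ m : ℤ, ∀ i, (cnt u i : ℤ) + cnt u' i = m := by
  have hz0 : ∀ i, z i ≠ 0 := fun i h0 => by
    have := hz.unit i
    rw [h0, norm_zero] at this
    exact zero_ne_one this
  have hu : ∀ {k : ℕ} (w : W k N), ‖∏ t, z (w t)‖ = 1 := by
    intro k w
    rw [norm_prod]
    exact Finset.prod_eq_one fun t _ => hz.unit _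
  rcases eq_or_conj (hu u) (hu u') h with h1 | h1
  · left
    apply hz.gen
    rw [prod_eq_cnt, prod_eq_cnt] at h1
    have h2 : ∏ i, z i ^ ((cnt u' i : ℤ) - cnt u i) =
        (∏ i, z i ^ cnt u' i) / ∏ i, z i ^ cnt u i := by
      rw [← Finset.prod_div_distrib]
      refine Finset.prod_congr rfl fun i _ => ?_
      rw [zpow_sub₀ (hz0 i), zpow_natCast, zpow_natCast]
    rw [h2, h1]
    refine div_self ?_
    exact Finset.prod_ne_zero_iff.mpr fun i _ => pow_ne_zero _ (hz0 i)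
  · right
    apply hz.gen
    have h3 : conj (∏ t, z (u' t)) = (∏ t, z (u' t))⁻¹ := by
      rw [Complex.inv_def, Complex.normSq_eq_norm_sq, hu]
      simp
    rw [h3] at h1
    rw [prod_eq_cnt, prod_eq_cnt] at h1
    have h2 : ∏ i, z i ^ ((cnt u i : ℤ) + cnt u' i) =
        (∏ i, z i ^ cnt u i) * ∏ i, z i ^ cnt u' i := by
      rw [← Finset.prod_mul_distrib]
      refine Finset.prod_congr rfl fun i _ => ?_
      rw [zpow_add₀ (hz0 i), zpow_natCast, zpow_natCast]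
    rw [h2, h1]
    refine inv_mul_cancel₀ ?_
    exact Finset.prod_ne_zero_iff.mpr fun i _ => pow_ne_zero _ (hz0 i)

/-- the support condition for an eigenvector at `β = 0` -/
theorem supOK_of {z : Fin N → ℂ} (hz : Gen z) (hN : 2 ≤ N) {κ : ℝ} {L : ℕ} {G : W n N → ℂ}
    {c : ℂ} (h : An n z κ L 0 *ᵥ G = c • G) : SupOK G := by
  intro u u' hu hu'
  have h1 : ∀ w : W n N, G w ≠ 0 → c = ((κ + 2 * L + 2 * (∏ t, z (w t)).re : ℝ) : ℂ) := by
    intro w hw
    have := congrFun h w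
    rw [An_zero, Pi.smul_apply, smul_eq_mul] at this
    exact (mul_right_cancel₀ hw this).symm
  have h2 := (h1 u hu).symm.trans (h1 u' hu')
  have h3 : (∏ t, z (u t)).re = (∏ t, z (u' t)).re := by
    have := Complex.ofReal_injective h2
    linarith
  rcases gen_re hz h3 with ⟨r, hr⟩ | ⟨m, hm⟩
  · left
    have h4 : (N : ℤ) * r = 0 := by
      have h5 : ∑ i, ((cnt u' i : ℤ) - cnt u i) = N * r := by
        rw [Finset.sum_congr rfl fun i _ => hr i]
        simp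
      rw [Finset.sum_sub_distrib, ← Nat.cast_sum, ← Nat.cast_sum, sum_cnt, sum_cnt, sub_self] at h5
      exact h5.symm
    have h6 : r = 0 := by
      rcases mul_eq_zero.mp h4 with h7 | h7
      · exfalso; have : N = 0 := by exact_mod_cast h7
        omega
      · exact h7
    intro i
    have := hr i
    omega
  · right
    refine ⟨m.toNat, fun i => ?_⟩
    have := hm i
    omega

theorem tp_rho_continuous (n : ℕ) (u v : W n N) (l' : ℝ) :
    Continuous fun s : ℝ => tp n (rho (ev N) (l' * s)) u v := by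
  unfold tp
  refine continuous_finsetProd _ fun t _ => ?_
  have h := (continuous_rho (N := N)).comp
    ((continuous_const (y := ev N)).prodMk (continuous_const.mul continuous_id) :
      Continuous fun s : ℝ => ((ev N), l' * s))
  exact (continuous_apply (v t)).comp ((continuous_apply (u t)).comp h)

theorem An_continuous (z : Fin N → ℂ) (κ : ℝ) (L : ℕ) : Continuous (An n z κ L) := by
  refine continuous_pi fun u => continuous_pi fun v => ?_
  have h1 : (fun β : ℝ => An n z κ L β u v) = fun β : ℝ =>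
      ((κ : ℂ) • (1 : Matrix (W n N) (W n N) ℂ) + (tp n (Matrix.diagonal z) +
        (tp n (Matrix.diagonal z))ᴴ)) u v +
      ∑ l ∈ Finset.range L, (tp n (rho (ev N) ((l + 1 : ℝ) * β)) u v +
        tp n (rho (ev N) (-(l + 1 : ℝ) * β)) u v) := by
    funext β
    rw [An, Matrix.add_apply, Matrix.sum_apply]
    congr 1
    refine Finset.sum_congr rfl fun l _ => ?_
    rw [Matrix.add_apply, neg_mul]
  rw [h1]
  refine continuous_const.add (continuous_finsetSum _ fun l _ => ?_)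
  exact (tp_rho_continuous n u v _).add (tp_rho_continuous n u v _)

/-- the cross identity -/
theorem cross (hN : 0 < N) (z : Fin N → ℂ) (κ : ℝ) (L : ℕ) (β : ℝ) (G F : W n N → ℂ) :
    star (An n z κ L 0 *ᵥ G) ⬝ᵥ F - star G ⬝ᵥ (An n z κ L β *ᵥ F) =
      ∑ l ∈ Finset.range L, star (tp n (rho (ev N) ((l + 1 : ℝ) * β)) *ᵥ G - G) ⬝ᵥ
        (tp n (rho (ev N) ((l + 1 : ℝ) * β)) *ᵥ F - F) := by
  have h1 : star (An n z κ L 0 *ᵥ G) ⬝ᵥ F = star G ⬝ᵥ (An n z κ L 0 *ᵥ F) := by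
    rw [Matrix.star_mulVec, (An_isHermitian n z κ L 0).eq, ← Matrix.dotProduct_mulVec]
  rw [h1, ← dotProduct_sub, ← Matrix.sub_mulVec]
  have h2 : An n z κ L 0 - An n z κ L β = ∑ l ∈ Finset.range L,
      ((tp n (rho (ev N) ((l + 1 : ℝ) * β)) - 1)ᴴ * (tp n (rho (ev N) ((l + 1 : ℝ) * β)) - 1)) := by
    unfold An
    rw [add_sub_add_left_eq_sub, ← Finset.sum_sub_distrib]
    refine Finset.sum_congr rfl fun l _ => ?_
    rw [mul_zero, neg_zero, rho_zero, tp_one, Matrix.conjTranspose_sub, tp_conjTranspose,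
      rho_conjTranspose, Matrix.conjTranspose_one, sub_mul, mul_sub, one_mul, mul_one, ← tp_mul,
      ← rho_add (ev_unit hN), neg_add_cancel, rho_zero, tp_one]
    abel
  rw [h2, Matrix.sum_mulVec, dotProduct_sum]
  refine Finset.sum_congr rfl fun l _ => ?_
  rw [← Matrix.mulVec_mulVec, Matrix.dotProduct_mulVec, ← Matrix.star_mulVec, Matrix.sub_mulVec,
    Matrix.one_mulVec, Matrix.sub_mulVec, Matrix.one_mulVec]

theorem star_dot_self_ne {ι : Type*} [Fintype ι] {G : ι → ℂ} (hG : G ≠ 0) :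
    star G ⬝ᵥ G ≠ 0 := by
  intro h
  have h1 : star G ⬝ᵥ G = ((∑ i, ‖G i‖ ^ 2 : ℝ) : ℂ) := by
    simp only [dotProduct, Pi.star_apply, RCLike.star_def]
    push_cast
    refine Finset.sum_congr rfl fun i _ => ?_
    rw [← Complex.conj_mul']
  rw [h1] at h
  have h2 : ∑ i, ‖G i‖ ^ 2 = 0 := by exact_mod_cast h
  have h3 := (Finset.sum_eq_zero_iff_of_nonneg (fun i _ => by positivity)).mp h2
  apply hG
  funext i
  have := h3 i (Finset.mem_univ i)
  simpa using this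

theorem An_tendsto (z : Fin N → ℂ) (κ : ℝ) (L : ℕ) {U : Filter ℝ}
    (hb0 : Tendsto (fun β : ℝ => β) U (𝓝 0)) (F : ℝ → W n N → ℂ) (G : W n N → ℂ)
    (hFG : Tendsto F U (𝓝 G)) (u : W n N) :
    Tendsto (fun β => (An n z κ L β *ᵥ F β) u) U (𝓝 ((An n z κ L 0 *ᵥ G) u)) := by
  simp only [Matrix.mulVec, dotProduct]
  refine tendsto_finsetSum _ fun v _ => ?_
  refine Tendsto.mul ?_ ((tendsto_pi_nhds.mp hFG) v)
  have h1 : Continuous fun β => An n z κ L β u v :=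
    (continuous_apply v).comp ((continuous_apply u).comp (An_continuous (n := n) z κ L))
  exact (h1.tendsto 0).comp hb0

/-- one side of the limit argument -/
theorem pert_side (hN : 2 ≤ N) {z : Fin N → ℂ} (hz : Gen z) (κ : ℝ) (L : ℕ)
    (hn : ∃ p, n = 1 + N * p) (U : Ultrafilter ℝ) (hU : (U : Filter ℝ) ≤ 𝓝[≠] 0) (c : ℝ → ℂ)
    (F : ℝ → W n N → ℂ) (hF : ∀ᶠ β in (U : Filter ℝ), IsSym (F β) ∧ F β ≠ 0 ∧
      An n z κ L β *ᵥ F β = c β • F β) :
    ∃ (u₀ : W n N), Tendsto c U (𝓝 (((κ + 2 * L + 2 * (∏ t, z (u₀ t)).re : ℝ) : ℂ))) ∧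
      Tendsto (fun β => (((κ + 2 * L + 2 * (∏ t, z (u₀ t)).re : ℝ) : ℂ) - c β) / (β : ℂ) ^ 2) U
        (𝓝 (((∑ l ∈ Finset.range L, ((l : ℝ) + 1) ^ 2) * Qr u₀ : ℝ) : ℂ)) := by
  have hN0 : 0 < N := by omega
  -- normalise
  obtain ⟨F', hF'⟩ : ∃ F' : ℝ → W n N → ℂ, ∀ᶠ β in (U : Filter ℝ), IsSym (F' β) ∧ ‖F' β‖ = 1 ∧
      An n z κ L β *ᵥ F' β = c β • F' β := by
    refine ⟨fun β => ((‖F β‖⁻¹ : ℝ) : ℂ) • F β, ?_⟩
    filter_upwards [hF] with β ⟨h1, h2, h3⟩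
    refine ⟨h1.smul _, ?_, ?_⟩
    · have : 0 < ‖F β‖ := norm_pos_iff.mpr h2
      simp only [norm_smul, Complex.norm_real, norm_inv, norm_norm]
      exact inv_mul_cancel₀ this.ne'
    · rw [Matrix.mulVec_smul, h3, smul_comm]
  -- the limit
  have hcomp : IsCompact (Metric.sphere (0 : W n N → ℂ) 1) := isCompact_sphere _ _
  have hmem : (Metric.sphere (0 : W n N → ℂ) 1) ∈ U.map F' := by
    rw [Ultrafilter.mem_map]
    filter_upwards [hF'] with β h
    simpa using h.2.1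
  obtain ⟨G, hG1, hG2⟩ := hcomp.ultrafilter_le_nhds (U.map F') (le_principal_iff.mpr hmem)
  have hFG : Tendsto F' U (𝓝 G) := hG2
  have hGn : ‖G‖ = 1 := by simpa using hG1
  have hG0 : G ≠ 0 := by
    rintro rfl
    simp at hGn
  have hb : Tendsto (fun β : ℝ => β) (U : Filter ℝ) (𝓝[≠] 0) := hU
  have hb0 : Tendsto (fun β : ℝ => β) (U : Filter ℝ) (𝓝 0) := hb.mono_right nhdsWithin_le_nhds
  have hAF : ∀ u, Tendsto (fun β => (An n z κ L β *ᵥ F' β) u) U (𝓝 ((An n z κ L 0 *ᵥ G) u)) :=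
    fun u => An_tendsto z κ L hb0 F' G hFG u
  obtain ⟨u₀, hu₀⟩ := Function.ne_iff.mp hG0
  have hu₀' : G u₀ ≠ 0 := hu₀
  have hc : Tendsto c U (𝓝 ((An n z κ L 0 *ᵥ G) u₀ / G u₀)) := by
    have h1 : Tendsto (fun β => (An n z κ L β *ᵥ F' β) u₀ / F' β u₀) U
        (𝓝 ((An n z κ L 0 *ᵥ G) u₀ / G u₀)) :=
      (hAF u₀).div ((tendsto_pi_nhds.mp hFG) u₀) hu₀'
    refine h1.congr' ?_
    have h2 : ∀ᶠ β in (U : Filter ℝ), F' β u₀ ≠ 0 :=
      ((tendsto_pi_nhds.mp hFG) u₀).eventually_ne hu₀'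
    filter_upwards [hF', h2] with β h3 h4
    rw [h3.2.2, Pi.smul_apply, smul_eq_mul]
    exact mul_div_cancel_right₀ _ h4
  set c₀ := (An n z κ L 0 *ᵥ G) u₀ / G u₀ with hc₀
  have hc₀' : c₀ = ((κ + 2 * L + 2 * (∏ t, z (u₀ t)).re : ℝ) : ℂ) := by
    rw [hc₀, An_zero]
    exact mul_div_cancel_right₀ _ hu₀'
  have hAG : An n z κ L 0 *ᵥ G = c₀ • G := by
    funext u
    have h1 : Tendsto (fun β => c β * F' β u) U (𝓝 (c₀ * G u)) :=
      hc.mul ((tendsto_pi_nhds.mp hFG) u)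
    have h2 : Tendsto (fun β => (An n z κ L β *ᵥ F' β) u) U (𝓝 (c₀ * G u)) := by
      refine h1.congr' ?_
      filter_upwards [hF'] with β h
      rw [h.2.2, Pi.smul_apply, smul_eq_mul]
    rw [tendsto_nhds_unique (hAF u) h2, Pi.smul_apply, smul_eq_mul]
  have hGs : IsSym G := by
    intro u v huv
    have h1 := (tendsto_pi_nhds.mp hFG) u
    have h2 := (tendsto_pi_nhds.mp hFG) v
    refine tendsto_nhds_unique (h1.congr' ?_) h2
    filter_upwards [hF'] with β h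
    exact h.1 u v huv
  have hsup : SupOK G := supOK_of hz hN hAG
  have hX := norm_X hN hn hGs hsup hu₀'
  refine ⟨u₀, ?_, ?_⟩
  · rw [← hc₀']; exact hc
  rw [← hc₀']
  -- the quotient
  have hGG : star G ⬝ᵥ G ≠ 0 := star_dot_self_ne hG0
  have hGF : Tendsto (fun β => star G ⬝ᵥ F' β) U (𝓝 (star G ⬝ᵥ G)) := by
    have h2 : Continuous fun p : W n N → ℂ => star G ⬝ᵥ p := by
      simp only [dotProduct]; fun_prop
    exact (h2.tendsto G).comp hFG
  have hreal : conj c₀ = c₀ := by rw [hc₀', Complex.conj_ofReal]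
  have hid : ∀ᶠ β in (U : Filter ℝ), ((c₀ - c β) / (β : ℂ) ^ 2) * (star G ⬝ᵥ F' β) =
      ∑ l ∈ Finset.range L,
        star ((β : ℂ)⁻¹ • (tp n (rho (ev N) ((l + 1 : ℝ) * β)) *ᵥ G - G)) ⬝ᵥ
        ((β : ℂ)⁻¹ • (tp n (rho (ev N) ((l + 1 : ℝ) * β)) *ᵥ F' β - F' β)) := by
    filter_upwards [hF'] with β h
    have h1 := cross hN0 z κ L β G (F' β)
    have e1 : star (c₀ • G) ⬝ᵥ F' β = c₀ * (star G ⬝ᵥ F' β) := by
      rw [star_smul, smul_dotProduct, smul_eq_mul, RCLike.star_def, hreal]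
    have e2 : star G ⬝ᵥ (c β • F' β) = c β * (star G ⬝ᵥ F' β) := by
      rw [dotProduct_smul, smul_eq_mul]
    rw [hAG, h.2.2, e1, e2, ← sub_mul] at h1
    have h2 : ((c₀ - c β) / (β : ℂ) ^ 2) * (star G ⬝ᵥ F' β) =
        ((β : ℂ)⁻¹ * (β : ℂ)⁻¹) * ((c₀ - c β) * (star G ⬝ᵥ F' β)) := by
      rw [div_eq_mul_inv, pow_two, mul_inv]; ring
    rw [h2, h1, Finset.mul_sum]
    refine Finset.sum_congr rfl fun l _ => ?_
    rw [star_smul, smul_dotProduct, dotProduct_smul, smul_eq_mul, smul_eq_mul, RCLike.star_def,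
      map_inv₀, Complex.conj_ofReal]
    ring
  have hlim : Tendsto (fun β : ℝ => ∑ l ∈ Finset.range L,
        star ((β : ℂ)⁻¹ • (tp n (rho (ev N) ((l + 1 : ℝ) * β)) *ᵥ G - G)) ⬝ᵥ
        ((β : ℂ)⁻¹ • (tp n (rho (ev N) ((l + 1 : ℝ) * β)) *ᵥ F' β - F' β))) U
      (𝓝 (∑ l ∈ Finset.range L, star ((((l + 1 : ℝ) : ℂ) * I) • (Xn n N *ᵥ G)) ⬝ᵥ
        ((((l + 1 : ℝ) : ℂ) * I) • (Xn n N *ᵥ G)))) := by
    refine tendsto_finsetSum _ fun l _ => ?_
    have h1 := tendsto_quot (n := n) hN0 (l + 1 : ℝ) hb (tendsto_const_nhds (x := G))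
    have h2 := tendsto_quot (n := n) hN0 (l + 1 : ℝ) hb hFG
    have h3 : Continuous fun p : (W n N → ℂ) × (W n N → ℂ) => star p.1 ⬝ᵥ p.2 := by
      simp only [dotProduct, Pi.star_apply]
      fun_prop
    exact (h3.tendsto _).comp (h1.prodMk_nhds h2)
  have hval : (∑ l ∈ Finset.range L, star ((((l + 1 : ℝ) : ℂ) * I) • (Xn n N *ᵥ G)) ⬝ᵥ
        ((((l + 1 : ℝ) : ℂ) * I) • (Xn n N *ᵥ G))) =
      (((∑ l ∈ Finset.range L, ((l : ℝ) + 1) ^ 2) * Qr u₀ : ℝ) : ℂ) * (star G ⬝ᵥ G) := by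
    have h1 : ∀ l : ℕ, star ((((l + 1 : ℝ) : ℂ) * I) • (Xn n N *ᵥ G)) ⬝ᵥ
        ((((l + 1 : ℝ) : ℂ) * I) • (Xn n N *ᵥ G)) =
        (((l : ℂ) + 1) ^ 2) * ((Qr u₀ : ℂ) * (star G ⬝ᵥ G)) := by
      intro l
      rw [star_smul, smul_dotProduct, dotProduct_smul, hX, smul_eq_mul, smul_eq_mul,
        RCLike.star_def, map_mul, Complex.conj_I, Complex.conj_ofReal]
      push_cast
      have : I * I = -1 := I_mul_I
      linear_combination (-((l : ℂ) + 1) ^ 2 * ((Qr u₀ : ℂ) * (star G ⬝ᵥ G))) * this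
    rw [Finset.sum_congr rfl fun l _ => h1 l, ← Finset.sum_mul]
    push_cast
    ring
  rw [hval] at hlim
  have h5 : Tendsto (fun β : ℝ => ((c₀ - c β) / (β : ℂ) ^ 2) * (star G ⬝ᵥ F' β)) U
      (𝓝 ((((∑ l ∈ Finset.range L, ((l : ℝ) + 1) ^ 2) * Qr u₀ : ℝ) : ℂ) * (star G ⬝ᵥ G))) := by
    refine hlim.congr' ?_
    filter_upwards [hid] with β h
    exact h.symm
  have h6 := h5.div hGF hGG
  rw [mul_div_cancel_right₀ _ hGG] at h6
  refine h6.congr' ?_
  have h7 : ∀ᶠ β in (U : Filter ℝ), star G ⬝ᵥ F' β ≠ 0 := hGF.eventually_ne hGG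
  filter_upwards [h7] with β h
  exact mul_div_cancel_right₀ _ h

/-- a common eigenvalue on symmetric tensors of degrees `n`, `n'` -/
def Common (n n' : ℕ) (z : Fin N → ℂ) (κ : ℝ) (L : ℕ) (β : ℝ) : Prop :=
  ∃ (c : ℂ) (F : W n N → ℂ) (F' : W n' N → ℂ), IsSym F ∧ F ≠ 0 ∧ IsSym F' ∧ F' ≠ 0 ∧
    An n z κ L β *ᵥ F = c • F ∧ An n' z κ L β *ᵥ F' = c • F'

theorem not_common_near_zero (hN : 2 ≤ N) {z : Fin N → ℂ} (hz : Gen z) (κ : ℝ) {L : ℕ}
    (hL : 0 < L) {n' : ℕ} (hlt : n < n') (hn : ∃ p, n = 1 + N * p) (hn' : ∃ p, n' = 1 + N * p) :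
    ∀ᶠ β in 𝓝[≠] (0 : ℝ), ¬ Common n n' z κ L β := by
  classical
  by_contra hcon
  rw [Filter.not_eventually] at hcon
  have hcon' : ∃ᶠ β in 𝓝[≠] (0 : ℝ), Common n n' z κ L β := hcon.mono fun β h => not_not.mp h
  have : (𝓝[≠] (0 : ℝ) ⊓ 𝓟 {β | Common n n' z κ L β}).NeBot :=
    Filter.frequently_iff_neBot.mp hcon'
  obtain ⟨U, hU⟩ := Ultrafilter.exists_le (𝓝[≠] (0 : ℝ) ⊓ 𝓟 {β | Common n n' z κ L β})
  have hU1 : (U : Filter ℝ) ≤ 𝓝[≠] 0 := hU.trans inf_le_left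
  have hU2 : ∀ᶠ β in (U : Filter ℝ), Common n n' z κ L β :=
    le_principal_iff.mp (hU.trans inf_le_right)
  let c : ℝ → ℂ := fun β => if h : Common n n' z κ L β then h.choose else 0
  let F : ℝ → W n N → ℂ := fun β =>
    if h : Common n n' z κ L β then h.choose_spec.choose else 0
  let F' : ℝ → W n' N → ℂ := fun β =>
    if h : Common n n' z κ L β then h.choose_spec.choose_spec.choose else 0
  have hspec : ∀ β, Common n n' z κ L β → IsSym (F β) ∧ F β ≠ 0 ∧ IsSym (F' β) ∧ F' β ≠ 0 ∧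
      An n z κ L β *ᵥ F β = c β • F β ∧ An n' z κ L β *ᵥ F' β = c β • F' β := by
    intro β h
    simp only [c, F, F', dif_pos h]
    exact h.choose_spec.choose_spec.choose_spec
  obtain ⟨u₀, h1, h2⟩ := pert_side hN hz κ L hn U hU1 c F (by
    filter_upwards [hU2] with β h
    exact ⟨(hspec β h).1, (hspec β h).2.1, (hspec β h).2.2.2.2.1⟩)
  obtain ⟨u₁, h3, h4⟩ := pert_side hN hz κ L hn' U hU1 c F' (by
    filter_upwards [hU2] with β h
    exact ⟨(hspec β h).2.2.1, (hspec β h).2.2.2.1, (hspec β h).2.2.2.2.2⟩)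
  have h5 := tendsto_nhds_unique h1 h3
  have h6 : (∏ t, z (u₀ t)).re = (∏ t, z (u₁ t)).re := by
    have := Complex.ofReal_injective h5
    linarith
  rw [h5] at h2
  have h7 := Complex.ofReal_injective (tendsto_nhds_unique h2 h4)
  have h8 : (0 : ℝ) < ∑ l ∈ Finset.range L, ((l : ℝ) + 1) ^ 2 :=
    Finset.sum_pos (fun l _ => by positivity) ⟨0, Finset.mem_range.mpr hL⟩
  have h9 : Qr u₀ = Qr u₁ := mul_left_cancel₀ h8.ne' h7
  rcases gen_re hz h6 with ⟨r, hr⟩ | ⟨m, hm⟩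
  · exact (Qr_lt_shift hN hlt hr).ne h9
  · refine (Qr_lt_flip hN hlt (m := m.toNat) (fun i => ?_)).ne h9
    have := hm i
    omega

end

end Pool.Agent.SG65
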