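import Mathlib

/-!
# MP_4be2f9 (helper65): a Rayleigh quotient gives an eigenvector in an invariant subspace
-/

set_option autoImplicit false

open scoped ComplexConjugate Matrix
open Complex

namespace Pool.Agent.SG65

noncomputable section

theorem exists_eig_abs {E : Type*} [NormedAddCommGroup E] [InnerProductSpace ℂ E]
    [FiniteDimensional ℂ E] (T : E →ₗ[ℂ] E) (hT : T.IsSymmetric) (p : E) (r : ℝ)
    (h : r * ‖p‖ ^ 2 < (inner ℂ (T p) p : ℂ).re) :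
    ∃ (c : ℝ) (F : E), F ≠ 0 ∧ r < c ∧ T F = (c : ℂ) • F := by
  have hp : p ≠ 0 := by
    rintro rfl
    simp at h
  have : Nontrivial E := ⟨⟨p, 0, hp⟩⟩
  have hev := hT.hasEigenvalue_iSup_of_finiteDimensional
  obtain ⟨F, hF⟩ := hev.exists_hasEigenvector
  have hbdd : BddAbove (Set.range fun x : { x : E // x ≠ 0 } =>
      RCLike.re (inner ℂ (T x) (x : E) : ℂ) / ‖(x : E)‖ ^ 2) := by
    refine ⟨‖T.toContinuousLinearMap‖, ?_⟩
    rintro _ ⟨x, rfl⟩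
    have hx : 0 < ‖(x : E)‖ := norm_pos_iff.mpr x.2
    simp only
    rw [div_le_iff₀ (by positivity)]
    have h1 : RCLike.re (inner ℂ (T x) (x : E) : ℂ) ≤ ‖T x‖ * ‖(x : E)‖ := re_inner_le_norm _ _
    have h2 : ‖T x‖ ≤ ‖T.toContinuousLinearMap‖ * ‖(x : E)‖ :=
      T.toContinuousLinearMap.le_opNorm _
    nlinarith
  refine ⟨_, F, hF.2, ?_, hF.apply_eq_smul⟩
  refine lt_of_lt_of_le ?_ (le_ciSup hbdd ⟨p, hp⟩)
  have hpos : 0 < ‖p‖ := norm_pos_iff.mpr hp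
  rw [lt_div_iff₀ (by positivity)]
  exact h

theorem exists_eig {ι : Type} [Fintype ι] [DecidableEq ι] (M : Matrix ι ι ℂ)
    (hM : M.IsHermitian) (V : Submodule ℂ (ι → ℂ)) (hV : ∀ F ∈ V, M *ᵥ F ∈ V) (ψ : ι → ℂ)
    (hψ : ψ ∈ V) (r : ℝ) (h : r * (star ψ ⬝ᵥ ψ).re < (star ψ ⬝ᵥ (M *ᵥ ψ)).re) :
    ∃ (c : ℝ) (F : ι → ℂ), F ∈ V ∧ F ≠ 0 ∧ r < c ∧ M *ᵥ F = (c : ℂ) • F := by
  let T : EuclideanSpace ℂ ι →ₗ[ℂ] EuclideanSpace ℂ ι := Matrix.toEuclideanLin M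
  let V' : Submodule ℂ (EuclideanSpace ℂ ι) :=
    V.comap (WithLp.linearEquiv 2 ℂ (ι → ℂ)).toLinearMap
  have hsym : T.IsSymmetric := Matrix.isSymmetric_toEuclideanLin_iff.mpr hM
  have hinv : ∀ x ∈ V', T x ∈ V' := fun x hx => hV _ hx
  have hT' := hsym.restrict_invariant hinv
  let p : V' := ⟨WithLp.toLp 2 ψ, hψ⟩
  have hn : ‖(p : V')‖ ^ 2 = (star ψ ⬝ᵥ ψ).re := by
    have h1 : ‖(p : V')‖ ^ 2 = ‖(WithLp.toLp 2 ψ : EuclideanSpace ℂ ι)‖ ^ 2 := rfl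
    rw [h1, EuclideanSpace.norm_sq_eq, dotProduct, Complex.re_sum]
    refine Finset.sum_congr rfl fun i _ => ?_
    rw [Pi.star_apply, RCLike.star_def, ← Complex.normSq_eq_conj_mul_self, Complex.ofReal_re,
      Complex.normSq_eq_norm_sq]
  obtain ⟨c, F, hF0, hrc, hF⟩ := exists_eig_abs (T.restrict hinv) hT' p r (by
    rw [hn]
    refine lt_of_lt_of_eq h ?_
    have h3 : inner ℂ (T.restrict hinv p) (p : V') = ψ ⬝ᵥ star (M *ᵥ ψ) := by
      change inner ℂ (T (WithLp.toLp 2 ψ)) (WithLp.toLp 2 ψ : EuclideanSpace ℂ ι) = _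
      rw [EuclideanSpace.inner_eq_star_dotProduct]
      rfl
    rw [h3]
    have h4 : star ψ ⬝ᵥ (M *ᵥ ψ) = star (ψ ⬝ᵥ star (M *ᵥ ψ)) := by
      simp only [dotProduct, star_sum, star_mul', star_star, Pi.star_apply]
    rw [h4]
    rfl)
  refine ⟨c, WithLp.ofLp (F : EuclideanSpace ℂ ι), F.2, ?_, hrc, ?_⟩
  · intro h0
    apply hF0
    apply Subtype.ext
    apply WithLp.ofLp_injective
    exact h0
  · exact congrArg (fun x : V' => WithLp.ofLp (x : EuclideanSpace ℂ ι)) hF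

end

end Pool.Agent.SG65
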