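import Pool.Agent.Lib.MP_4be2f9_h65.Path

/-!
# MP_4be2f9 (helper65): the Rayleigh quotients
-/

set_option autoImplicit false

open scoped ComplexConjugate Matrix Topology
open Complex Filter Finset

namespace Pool.Agent.SG65

noncomputable section

variable {N : ℕ}

/-- weights of the eigenvector of the path -/
def sw (N i : ℕ) : ℝ := Real.sin (Real.pi * (i + 1) / N)

theorem sw_sum (hN : 2 ≤ N) : 2 * ∑ i ∈ range (N - 2), sw N i * sw N (i + 1) =
    2 * Real.cos (Real.pi / N) * ∑ i ∈ range (N - 1), sw N i ^ 2 := by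
  obtain ⟨m, rfl⟩ : ∃ m, N = m + 2 := ⟨N - 2, by omega⟩
  have h0 : ((m + 2 : ℕ) : ℝ) ≠ 0 := by positivity
  let t : ℕ → ℝ := fun i => Real.sin (Real.pi * i / (m + 2 : ℕ))
  have ht : ∀ i, sw (m + 2) i = t (i + 1) := fun i => by simp only [sw, t]; push_cast; rfl
  have hrec : ∀ i, t i + t (i + 2) = 2 * Real.cos (Real.pi / (m + 2 : ℕ)) * t (i + 1) := by
    intro i
    simp only [t]
    rw [Real.sin_add_sin]
    have e1 : (Real.pi * i / (m + 2 : ℕ) + Real.pi * ((i + 2 : ℕ) : ℝ) / (m + 2 : ℕ)) / 2 =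
        Real.pi * ((i + 1 : ℕ) : ℝ) / (m + 2 : ℕ) := by
      push_cast; ring
    have e2 : (Real.pi * i / (m + 2 : ℕ) - Real.pi * ((i + 2 : ℕ) : ℝ) / (m + 2 : ℕ)) / 2 =
        -(Real.pi / (m + 2 : ℕ)) := by
      push_cast; ring
    rw [e1, e2, Real.cos_neg]
    ring
  have ht0 : t 0 = 0 := by simp [t]
  have htN : t (m + 2) = 0 := by
    simp only [t]
    rw [mul_div_assoc, div_self h0, mul_one, Real.sin_pi]
  simp only [ht, show m + 2 - 2 = m by omega, show m + 2 - 1 = m + 1 by omega]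
  rw [Finset.mul_sum (range (m + 1))]
  have h1 : ∑ i ∈ range (m + 1), 2 * Real.cos (Real.pi / (m + 2 : ℕ)) * t (i + 1) ^ 2 =
      ∑ i ∈ range (m + 1), (t i * t (i + 1) + t (i + 1) * t (i + 2)) := by
    refine Finset.sum_congr rfl fun i _ => ?_
    have := hrec i
    rw [pow_two, ← mul_assoc, ← this]; ring
  rw [h1, Finset.sum_add_distrib, Finset.sum_range_succ' (fun i => t i * t (i + 1)),
    Finset.sum_range_succ (fun i => t (i + 1) * t (i + 2)), ht0, htN]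
  ring

theorem sw_pos (hN : 2 ≤ N) : 0 < ∑ i ∈ range (N - 1), sw N i ^ 2 := by
  have h1 : 0 < sw N 0 := by
    simp only [sw, Nat.cast_zero, zero_add, mul_one]
    have hN' : (2 : ℝ) ≤ N := by exact_mod_cast hN
    apply Real.sin_pos_of_pos_of_lt_pi
    · have := Real.pi_pos; positivity
    · rw [div_lt_iff₀ (by linarith)]
      nlinarith [Real.pi_pos]
  have h2 : sw N 0 ^ 2 ≤ ∑ i ∈ range (N - 1), sw N i ^ 2 :=
    Finset.single_le_sum (f := fun i => sw N i ^ 2) (fun i _ => by positivity)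
      (Finset.mem_range.mpr (by omega))
  have h3 : 0 < sw N 0 ^ 2 := by positivity
  linarith

theorem rot {β : ℝ} (hN : 0 < N) (hβ : ∀ r : ℚ, β ≠ 2 * Real.pi * r) :
    ∃ U : Ultrafilter ℕ, (U : Filter ℕ) ≤ atTop ∧
      Tendsto (fun p : ℕ => cexp (((1 + N * p : ℕ) : ℂ) * β * I)) U (𝓝 1) := by
  have hfact : Fact (0 < 2 * Real.pi) := ⟨by positivity⟩
  have hirr : Irrational ((N * β) / (2 * Real.pi)) := by
    rintro ⟨q, hq⟩
    have hN0 : (N : ℝ) ≠ 0 := by exact_mod_cast hN.ne'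
    apply hβ (q / N)
    push_cast
    rw [hq]
    field_simp
  have hd := AddCircle.denseRange_zsmul_coe_iff.mpr hirr
  have hx : (((-β : ℝ) : AddCircle (2 * Real.pi))) ∈
      closure (Set.range fun m : ℤ => m • ((N * β : ℝ) : AddCircle (2 * Real.pi))) := by
    rw [hd.closure_range]; trivial
  have hc := (mapClusterPt_atTop_nsmul_tfae ((-β : ℝ) : AddCircle (2 * Real.pi))
    ((N * β : ℝ) : AddCircle (2 * Real.pi))).out 3 0 |>.mp hx
  obtain ⟨U, hU, hU'⟩ := mapClusterPt_iff_ultrafilter.mp hc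
  refine ⟨U, hU, ?_⟩
  have h1 : Tendsto (fun p : ℕ => ((AddCircle.toCircle
      (p • ((N * β : ℝ) : AddCircle (2 * Real.pi))) : Circle) : ℂ)) U
      (𝓝 ((AddCircle.toCircle ((-β : ℝ) : AddCircle (2 * Real.pi)) : Circle) : ℂ)) :=
    ((continuous_subtype_val.comp AddCircle.continuous_toCircle).tendsto _).comp hU'
  have h2 : ∀ s : ℝ, ((AddCircle.toCircle ((s : ℝ) : AddCircle (2 * Real.pi)) : Circle) : ℂ) =
      cexp (s * I) := by
    intro s
    rw [AddCircle.toCircle_apply_mk, Circle.coe_exp, div_self (by positivity), one_mul]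
  have h3 : ∀ p : ℕ, p • ((N * β : ℝ) : AddCircle (2 * Real.pi)) =
      ((p * (N * β) : ℝ) : AddCircle (2 * Real.pi)) := by
    intro p
    have h4 : (p * (N * β) : ℝ) = p • (N * β) := (nsmul_eq_mul _ _).symm
    rw [h4, AddCircle.coe_nsmul]
  simp only [h3, h2] at h1
  have h4 := h1.mul_const (cexp (β * I))
  rw [← Complex.exp_add, show ((-β : ℝ) : ℂ) * I + β * I = 0 by push_cast; ring,
    Complex.exp_zero] at h4
  refine h4.congr fun p => ?_
  rw [← Complex.exp_add]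
  congr 1
  push_cast
  ring

/-- the test vector -/
def psi (z x : Fin N → ℂ) (n : ℕ) : W n N → ℂ :=
  ∑ i ∈ range (N - 1), ((sw N i : ℝ) : ℂ) • ten n (yy z x i)

theorem psi_sym (z x : Fin N → ℂ) (n : ℕ) : IsSym (psi z x n) :=
  IsSym.sum _ fun _ _ => (isSym_ten _ _).smul _

theorem psi_dot (z x : Fin N → ℂ) (n : ℕ) (v : ℕ → W n N → ℂ) :
    star (psi z x n) ⬝ᵥ (∑ j ∈ range (N - 1), ((sw N j : ℝ) : ℂ) • v j) =
      ∑ i ∈ range (N - 1), ∑ j ∈ range (N - 1),
        ((sw N i * sw N j : ℝ) : ℂ) * (star (ten n (yy z x i)) ⬝ᵥ v j) := by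
  rw [psi, star_sum, sum_dotProduct]
  refine Finset.sum_congr rfl fun i _ => ?_
  rw [dotProduct_sum]
  refine Finset.sum_congr rfl fun j _ => ?_
  rw [star_smul, smul_dotProduct, dotProduct_smul, RCLike.star_def, Complex.conj_ofReal,
    smul_eq_mul, smul_eq_mul]
  push_cast
  ring

theorem psi_psi (z x : Fin N → ℂ) (n : ℕ) :
    star (psi z x n) ⬝ᵥ psi z x n = ∑ i ∈ range (N - 1), ∑ j ∈ range (N - 1),
        ((sw N i * sw N j : ℝ) : ℂ) * (star (yy z x i) ⬝ᵥ yy z x j) ^ n := by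
  have h := psi_dot z x n (fun j => ten n (yy z x j))
  simp only [star_ten_dot] at h
  exact h

theorem tp_psi (z x : Fin N → ℂ) (n : ℕ) : tp n (Matrix.diagonal z) *ᵥ psi z x n =
    ∑ j ∈ range (N - 1), ((sw N j : ℝ) : ℂ) • ten n (yy z x (j + 1)) := by
  rw [psi, Matrix.mulVec_sum]
  refine Finset.sum_congr rfl fun j _ => ?_
  rw [Matrix.mulVec_smul, tp_mulVec_ten, diag_yy]

theorem psi_b_psi (z x : Fin N → ℂ) (n : ℕ) :
    star (psi z x n) ⬝ᵥ (tp n (Matrix.diagonal z) *ᵥ psi z x n) =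
      ∑ i ∈ range (N - 1), ∑ j ∈ range (N - 1),
        ((sw N i * sw N j : ℝ) : ℂ) * (star (yy z x i) ⬝ᵥ yy z x (j + 1)) ^ n := by
  have h := psi_dot z x n (fun j => ten n (yy z x (j + 1)))
  simp only [star_ten_dot] at h
  rw [tp_psi]
  exact h

theorem rho_psi {z x : Fin N → ℂ} (hx : ∀ a, a + 2 ≤ N → ∑ j, yy z x a j = 0) (n : ℕ) (s : ℝ) :
    tp n (rho (ev N) s) *ᵥ psi z x n = cexp (-((n : ℂ) * s * I)) • psi z x n := by
  rw [psi, Matrix.mulVec_sum, Finset.smul_sum]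
  refine Finset.sum_congr rfl fun j hj => ?_
  rw [Finset.mem_range] at hj
  rw [Matrix.mulVec_smul, tp_mulVec_ten, rho_mulVec_orth, ten_smul, smul_comm]
  · congr 1
    rw [← Complex.exp_nat_mul]
    congr 1
    ring
  · rw [ev_dot, hx j (by omega), mul_zero]

theorem num_eq {z x : Fin N → ℂ} (hx : ∀ a, a + 2 ≤ N → ∑ j, yy z x a j = 0) (n : ℕ) (κ : ℝ)
    (L : ℕ) (β : ℝ) : star (psi z x n) ⬝ᵥ (An n z κ L β *ᵥ psi z x n) =
    (κ : ℂ) * (star (psi z x n) ⬝ᵥ psi z x n) +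
    (star (psi z x n) ⬝ᵥ (tp n (Matrix.diagonal z) *ᵥ psi z x n) +
      conj (star (psi z x n) ⬝ᵥ (tp n (Matrix.diagonal z) *ᵥ psi z x n))) +
    (∑ l ∈ range L, (conj (cexp ((n : ℂ) * β * I) ^ (l + 1)) + cexp ((n : ℂ) * β * I) ^ (l + 1))) *
      (star (psi z x n) ⬝ᵥ psi z x n) := by
  have hconj : star (psi z x n) ⬝ᵥ ((tp n (Matrix.diagonal z))ᴴ *ᵥ psi z x n) =
      conj (star (psi z x n) ⬝ᵥ (tp n (Matrix.diagonal z) *ᵥ psi z x n)) := by
    rw [Matrix.dotProduct_mulVec, ← Matrix.star_mulVec]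
    simp only [dotProduct, map_sum, map_mul, Pi.star_apply, RCLike.star_def, Complex.conj_conj]
    exact Finset.sum_congr rfl fun u _ => mul_comm _ _
  rw [An, Matrix.add_mulVec, Matrix.add_mulVec, Matrix.smul_mulVec, Matrix.one_mulVec,
    Matrix.add_mulVec, Matrix.sum_mulVec, dotProduct_add, dotProduct_add, dotProduct_add,
    dotProduct_smul, smul_eq_mul, hconj, dotProduct_sum, Finset.sum_mul]
  congr 1
  refine Finset.sum_congr rfl fun l _ => ?_
  rw [Matrix.add_mulVec, rho_psi hx, rho_psi hx, dotProduct_add, dotProduct_smul,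
    dotProduct_smul, smul_eq_mul, smul_eq_mul, ← add_mul]
  congr 2
  · rw [map_pow, ← Complex.exp_conj, ← Complex.exp_nat_mul]
    congr 1
    simp only [map_mul, Complex.conj_natCast, Complex.conj_ofReal, Complex.conj_I]
    push_cast
    ring
  · rw [← Complex.exp_nat_mul]
    congr 1
    push_cast
    ring

theorem rayleigh_frequently (hN : 2 ≤ N) {z : Fin N → ℂ} (hz : Gen z) (κ : ℝ) (L : ℕ) {β : ℝ}
    (hβ : ∀ r : ℚ, β ≠ 2 * Real.pi * r) {r : ℝ}
    (hr : r < κ + 2 * L + 2 * Real.cos (Real.pi / N)) :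
    ∃ᶠ p in (atTop : Filter ℕ), ∃ ψ ∈ Sy (1 + N * p) N,
      r * (star ψ ⬝ᵥ ψ).re < (star ψ ⬝ᵥ (An (1 + N * p) z κ L β *ᵥ ψ)).re := by
  obtain ⟨x, hx1, hx⟩ := exists_x0 hN z
  have hx0 : ∑ j, x j = 0 := by
    have := hx 0 (by omega)
    simpa [yy] using this
  obtain ⟨U, hU, hE⟩ := rot (N := N) (by omega) hβ
  -- limits
  set D0 : ℝ := ∑ i ∈ range (N - 1), sw N i ^ 2 with hD0
  set M0 : ℝ := ∑ i ∈ range (N - 2), sw N i * sw N (i + 1) with hM0
  have hD : Tendsto (fun p : ℕ => star (psi z x (1 + N * p)) ⬝ᵥ psi z x (1 + N * p)) U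
      (𝓝 (D0 : ℂ)) := by
    have h1 : Tendsto (fun p : ℕ => ∑ i ∈ range (N - 1), ∑ j ∈ range (N - 1),
        ((sw N i * sw N j : ℝ) : ℂ) * (star (yy z x i) ⬝ᵥ yy z x j) ^ (1 + N * p)) atTop
        (𝓝 (∑ i ∈ range (N - 1), ∑ j ∈ range (N - 1),
        ((sw N i * sw N j : ℝ) : ℂ) * (if i = j then 1 else 0))) :=
      tendsto_finsetSum _ fun i _ => tendsto_finsetSum _ fun j _ =>
        (gram_tendsto hz hx1 hx0 (by omega) i j).const_mul _
    have h2 : (∑ i ∈ range (N - 1), ∑ j ∈ range (N - 1),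
        ((sw N i * sw N j : ℝ) : ℂ) * (if i = j then 1 else 0)) = (D0 : ℂ) := by
      rw [hD0]
      push_cast
      refine Finset.sum_congr rfl fun i hi => ?_
      rw [Finset.sum_eq_single i]
      · simp; ring
      · intro b _ hb; simp [Ne.symm hb]
      · intro h; exact absurd hi h
    rw [h2] at h1
    refine (h1.mono_left hU).congr fun p => ?_
    rw [psi_psi]
  have hM : Tendsto (fun p : ℕ => star (psi z x (1 + N * p)) ⬝ᵥ
      (tp (1 + N * p) (Matrix.diagonal z) *ᵥ psi z x (1 + N * p))) U (𝓝 (M0 : ℂ)) := by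
    have h1 : Tendsto (fun p : ℕ => ∑ i ∈ range (N - 1), ∑ j ∈ range (N - 1),
        ((sw N i * sw N j : ℝ) : ℂ) * (star (yy z x i) ⬝ᵥ yy z x (j + 1)) ^ (1 + N * p)) atTop
        (𝓝 (∑ i ∈ range (N - 1), ∑ j ∈ range (N - 1),
        ((sw N i * sw N j : ℝ) : ℂ) * (if i = j + 1 then 1 else 0))) :=
      tendsto_finsetSum _ fun i _ => tendsto_finsetSum _ fun j _ =>
        (gram_tendsto hz hx1 hx0 (by omega) i (j + 1)).const_mul _
    have h2 : (∑ i ∈ range (N - 1), ∑ j ∈ range (N - 1),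
        ((sw N i * sw N j : ℝ) : ℂ) * (if i = j + 1 then 1 else 0)) = (M0 : ℂ) := by
      rw [hM0, Finset.sum_comm]
      have h3 : N - 1 = (N - 2) + 1 := by omega
      rw [h3, Finset.sum_range_succ]
      have h4 : ∑ i ∈ range (N - 2 + 1), ((sw N i * sw N (N - 2) : ℝ) : ℂ) *
          (if i = N - 2 + 1 then 1 else 0) = 0 := by
        refine Finset.sum_eq_zero fun i hi => ?_
        rw [Finset.mem_range] at hi
        rw [if_neg (by omega), mul_zero]
      rw [h4, add_zero]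
      push_cast
      refine Finset.sum_congr rfl fun j hj => ?_
      rw [Finset.mem_range] at hj
      rw [Finset.sum_eq_single (j + 1)]
      · simp; ring
      · intro b _ hb; simp [hb]
      · intro h; exact absurd (Finset.mem_range.mpr (by omega)) h
    rw [h2] at h1
    refine (h1.mono_left hU).congr fun p => ?_
    rw [psi_b_psi]
  have hconj : Continuous (fun w : ℂ => conj w) := Complex.continuous_conj
  have hnum : Tendsto (fun p : ℕ => star (psi z x (1 + N * p)) ⬝ᵥ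
      (An (1 + N * p) z κ L β *ᵥ psi z x (1 + N * p))) U
      (𝓝 ((κ : ℂ) * D0 + ((M0 : ℂ) + conj (M0 : ℂ)) +
        (∑ l ∈ range L, (conj ((1 : ℂ) ^ (l + 1)) + (1 : ℂ) ^ (l + 1))) * D0)) := by
    have h1 : Tendsto (fun p : ℕ => (κ : ℂ) * (star (psi z x (1 + N * p)) ⬝ᵥ psi z x (1 + N * p)) +
        (star (psi z x (1 + N * p)) ⬝ᵥ (tp (1 + N * p) (Matrix.diagonal z) *ᵥ psi z x (1 + N * p)) +
          conj (star (psi z x (1 + N * p)) ⬝ᵥ
            (tp (1 + N * p) (Matrix.diagonal z) *ᵥ psi z x (1 + N * p)))) +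
        (∑ l ∈ range L, (conj (cexp (((1 + N * p : ℕ) : ℂ) * β * I) ^ (l + 1)) +
          cexp (((1 + N * p : ℕ) : ℂ) * β * I) ^ (l + 1))) *
          (star (psi z x (1 + N * p)) ⬝ᵥ psi z x (1 + N * p))) U
      (𝓝 ((κ : ℂ) * D0 + ((M0 : ℂ) + conj (M0 : ℂ)) +
        (∑ l ∈ range L, (conj ((1 : ℂ) ^ (l + 1)) + (1 : ℂ) ^ (l + 1))) * D0)) := by
      refine ((hD.const_mul _).add (hM.add ((hconj.tendsto _).comp hM))).add
        (Tendsto.mul (tendsto_finsetSum _ fun l _ => ?_) hD)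
      exact ((hconj.tendsto _).comp (hE.pow (l + 1))).add (hE.pow (l + 1))
    refine h1.congr fun p => ?_
    rw [num_eq hx]
  have hval : ((κ : ℂ) * D0 + ((M0 : ℂ) + conj (M0 : ℂ)) +
        (∑ l ∈ range L, (conj ((1 : ℂ) ^ (l + 1)) + (1 : ℂ) ^ (l + 1))) * D0) =
      (((κ + 2 * L + 2 * Real.cos (Real.pi / N)) * D0 : ℝ) : ℂ) := by
    have h1 := sw_sum hN
    rw [← hM0, ← hD0] at h1
    have h2 : (κ + 2 * L + 2 * Real.cos (Real.pi / N)) * D0 = κ * D0 + 2 * M0 + 2 * L * D0 := by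
      linarith
    rw [h2, Complex.conj_ofReal]
    simp only [one_pow, map_one, Finset.sum_const, Finset.card_range, nsmul_eq_mul]
    push_cast
    ring
  rw [hval] at hnum
  have hnum' := (Complex.continuous_re.tendsto _).comp hnum
  have hD' := ((Complex.continuous_re.tendsto _).comp hD).const_mul r
  simp only [Complex.ofReal_re] at hnum' hD'
  have hlt : r * D0 < (κ + 2 * L + 2 * Real.cos (Real.pi / N)) * D0 :=
    mul_lt_mul_of_pos_right hr (sw_pos hN)
  have hev : ∀ᶠ p in (U : Filter ℕ), r * (star (psi z x (1 + N * p)) ⬝ᵥ psi z x (1 + N * p)).re <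
      (star (psi z x (1 + N * p)) ⬝ᵥ (An (1 + N * p) z κ L β *ᵥ psi z x (1 + N * p))).re :=
    hD'.eventually_lt hnum' hlt
  have hfr : ∃ᶠ p in (U : Filter ℕ), ∃ ψ ∈ Sy (1 + N * p) N,
      r * (star ψ ⬝ᵥ ψ).re < (star ψ ⬝ᵥ (An (1 + N * p) z κ L β *ᵥ ψ)).re :=
    (hev.mono fun p hp => ⟨psi z x (1 + N * p), psi_sym z x _, hp⟩).frequently
  exact hfr.filter_mono hU

end

end Pool.Agent.SG65
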