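import Mathlib

/-!
# MP_4be2f9 (helper65): the one-parameter groups `exp(i s (N u u* - 1))`, `u` a unit vector
-/

set_option autoImplicit false

open scoped ComplexConjugate Matrix
open Complex

namespace Pool.Agent.SG65

noncomputable section

variable {N : ℕ}

/-- `exp(i s (N u u* - 1))` for a unit vector `u` -/
def rho (u : Fin N → ℂ) (s : ℝ) : Matrix (Fin N) (Fin N) ℂ :=
  exp (-(s : ℂ) * I) • (1 + (exp ((N : ℂ) * s * I) - 1) • Matrix.vecMulVec u (star u))

theorem rho_mulVec (u : Fin N → ℂ) (s : ℝ) (x : Fin N → ℂ) :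
    rho u s *ᵥ x = exp (-(s : ℂ) * I) • (x + ((exp ((N : ℂ) * s * I) - 1) * (star u ⬝ᵥ x)) • u) := by
  rw [rho, Matrix.smul_mulVec, Matrix.add_mulVec, Matrix.one_mulVec, Matrix.smul_mulVec,
    Matrix.vecMulVec_mulVec]
  congr 2
  ext i
  simp [mul_comm, mul_left_comm]

theorem rho_mulVec_orth (u : Fin N → ℂ) (s : ℝ) (x : Fin N → ℂ) (h : star u ⬝ᵥ x = 0) :
    rho u s *ᵥ x = exp (-(s : ℂ) * I) • x := by
  rw [rho_mulVec, h]
  simp

theorem rho_zero (u : Fin N → ℂ) : rho u 0 = 1 := by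
  simp [rho]

theorem vecMulVec_sq {u : Fin N → ℂ} (hu : star u ⬝ᵥ u = 1) :
    Matrix.vecMulVec u (star u) * Matrix.vecMulVec u (star u) = Matrix.vecMulVec u (star u) := by
  rw [Matrix.vecMulVec_mul_vecMulVec, hu]
  simp

theorem rho_add {u : Fin N → ℂ} (hu : star u ⬝ᵥ u = 1) (s t : ℝ) :
    rho u (s + t) = rho u s * rho u t := by
  unfold rho
  rw [Matrix.smul_mul, Matrix.mul_smul, smul_smul, ← Complex.exp_add]
  have h1 : (-(s : ℂ) * I + -(t : ℂ) * I) = -((s + t : ℝ) : ℂ) * I := by push_cast; ring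
  rw [h1]
  congr 1
  rw [Matrix.add_mul, Matrix.one_mul, Matrix.mul_add, Matrix.mul_one, Matrix.smul_mul,
    Matrix.mul_smul, vecMulVec_sq hu]
  have h2 : exp ((N : ℂ) * ((s + t : ℝ) : ℂ) * I) = exp ((N : ℂ) * s * I) * exp ((N : ℂ) * t * I) := by
    rw [← Complex.exp_add]; congr 1; push_cast; ring
  rw [h2]
  ext i j
  simp only [Matrix.add_apply, Matrix.smul_apply, smul_eq_mul]
  ring

theorem rho_conjTranspose (u : Fin N → ℂ) (s : ℝ) : (rho u s)ᴴ = rho u (-s) := by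
  have e1 : conj (exp (-(s : ℂ) * I)) = exp (-((-s : ℝ) : ℂ) * I) := by
    rw [← Complex.exp_conj]; congr 1; simp
  have e2 : conj (exp ((N : ℂ) * s * I)) = exp ((N : ℂ) * ((-s : ℝ) : ℂ) * I) := by
    rw [← Complex.exp_conj]; congr 1; simp
  unfold rho
  rw [Matrix.conjTranspose_smul, Matrix.conjTranspose_add, Matrix.conjTranspose_one,
    Matrix.conjTranspose_smul, RCLike.star_def, e1, map_sub, e2, map_one]
  congr 3
  ext i j
  simp [Matrix.conjTranspose_apply, Matrix.vecMulVec_apply, mul_comm]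

theorem rho_mul_neg {u : Fin N → ℂ} (hu : star u ⬝ᵥ u = 1) (s : ℝ) :
    rho u s * rho u (-s) = 1 := by
  rw [← rho_add hu, add_neg_cancel, rho_zero]

theorem rho_det {u : Fin N → ℂ} (hu : star u ⬝ᵥ u = 1) (s : ℝ) : (rho u s).det = 1 := by
  unfold rho
  rw [Matrix.det_smul, Fintype.card_fin]
  have h1 : (1 + (exp ((N : ℂ) * s * I) - 1) • Matrix.vecMulVec u (star u)).det =
      exp ((N : ℂ) * s * I) := by
    have h2 : (exp ((N : ℂ) * s * I) - 1) • Matrix.vecMulVec u (star u) =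
        Matrix.replicateCol Unit ((exp ((N : ℂ) * s * I) - 1) • u) *
          Matrix.replicateRow Unit (star u) := by
      ext i j
      simp [Matrix.vecMulVec_apply, Matrix.mul_apply, mul_assoc]
    rw [h2, Matrix.det_one_add_replicateCol_mul_replicateRow, dotProduct_smul, hu]
    simp
  rw [h1, ← Complex.exp_nat_mul, ← Complex.exp_add]
  convert Complex.exp_zero using 2
  ring

theorem rho_mem {u : Fin N → ℂ} (hu : star u ⬝ᵥ u = 1) (s : ℝ) :
    rho u s ∈ Matrix.specialUnitaryGroup (Fin N) ℂ := by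
  rw [Matrix.mem_specialUnitaryGroup_iff]
  refine ⟨?_, rho_det hu s⟩
  rw [Matrix.mem_unitaryGroup_iff, Matrix.star_eq_conjTranspose, rho_conjTranspose]
  exact rho_mul_neg hu s

/-- conjugation -/
theorem conj_rho {g : Matrix (Fin N) (Fin N) ℂ} (hg : g * gᴴ = 1) (u : Fin N → ℂ) (s : ℝ) :
    g * rho u s * gᴴ = rho (g *ᵥ u) s := by
  unfold rho
  rw [Matrix.mul_smul, Matrix.smul_mul, Matrix.mul_add, Matrix.add_mul, Matrix.mul_one, hg,
    Matrix.mul_smul, Matrix.smul_mul, Matrix.mul_vecMulVec, Matrix.vecMulVec_mul]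
  congr 3
  rw [Matrix.star_mulVec]

theorem continuous_rho : Continuous fun p : (Fin N → ℂ) × ℝ => rho p.1 p.2 := by
  unfold rho
  fun_prop

/-- powers -/
theorem rho_pow {u : Fin N → ℂ} (hu : star u ⬝ᵥ u = 1) (s : ℝ) (m : ℕ) :
    rho u s ^ m = rho u (m * s) := by
  induction m with
  | zero => simp [rho_zero]
  | succ m ih =>
    rw [pow_succ, ih, ← rho_add hu]
    congr 1
    push_cast
    ring

/-- periodicity -/
theorem rho_periodic (u : Fin N → ℂ) (s : ℝ) (m : ℤ) :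
    rho u (s + m * (2 * Real.pi)) = rho u s := by
  unfold rho
  have h1 : exp (-((s + m * (2 * Real.pi) : ℝ) : ℂ) * I) = exp (-(s : ℂ) * I) := by
    rw [Complex.exp_eq_exp_iff_exists_int]
    exact ⟨-m, by push_cast; ring⟩
  have h2 : exp ((N : ℂ) * ((s + m * (2 * Real.pi) : ℝ) : ℂ) * I) = exp ((N : ℂ) * s * I) := by
    rw [Complex.exp_eq_exp_iff_exists_int]
    exact ⟨N * m, by push_cast; ring⟩
  rw [h1, h2]

/-- the unit vector `(1, …, 1)/√N` -/
def ev (N : ℕ) : Fin N → ℂ := fun _ => ((1 / √N : ℝ) : ℂ)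

theorem ev_unit (hN : 0 < N) : star (ev N) ⬝ᵥ ev N = 1 := by
  have h1 : (0 : ℝ) < N := by exact_mod_cast hN
  simp only [dotProduct, ev, Pi.star_apply, RCLike.star_def, Complex.conj_ofReal,
    Finset.sum_const, Finset.card_univ, Fintype.card_fin, nsmul_eq_mul]
  have h2 : (1 / √(N : ℝ)) * (1 / √(N : ℝ)) = 1 / N := by
    rw [div_mul_div_comm, one_mul, Real.mul_self_sqrt h1.le]
  rw [← Complex.ofReal_mul, h2]
  have h3 : (N : ℂ) ≠ 0 := by exact_mod_cast hN.ne'
  push_cast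
  field_simp

/-- entries of `rho (ev N) s` -/
theorem rho_ev_apply (hN : 0 < N) (s : ℝ) (i j : Fin N) :
    rho (ev N) s i j =
      exp (-(s : ℂ) * I) * ((if i = j then 1 else 0) + (exp ((N : ℂ) * s * I) - 1) / N) := by
  have h1 : (0 : ℝ) < N := by exact_mod_cast hN
  have h2 : (1 / √(N : ℝ)) * (1 / √(N : ℝ)) = 1 / N := by
    rw [div_mul_div_comm, one_mul, Real.mul_self_sqrt h1.le]
  simp only [rho, Matrix.smul_apply, Matrix.add_apply, Matrix.one_apply, Matrix.vecMulVec_apply,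
    ev, Pi.star_apply, RCLike.star_def, Complex.conj_ofReal, smul_eq_mul]
  rw [← Complex.ofReal_mul, h2]
  push_cast
  ring

end

end Pool.Agent.SG65
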