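import Pool.Agent.Lib.MP_4be2f9_h65.Pert
import Pool.Agent.Lib.MP_4be2f9_h65.Ray

/-!
# MP_4be2f9 (helper65): common eigenvalues of two hermitian matrices, as zeros of a determinant
-/

set_option autoImplicit false
set_option linter.unusedSectionVars false

open scoped ComplexConjugate Matrix
open Complex

namespace Pool.Agent.SG65

noncomputable section

variable {ι ι' κ : Type} [Fintype ι] [Fintype ι'] [Fintype κ] [DecidableEq ι] [DecidableEq ι']
  [DecidableEq κ]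

theorem star_dot_self (G : κ → ℂ) : star G ⬝ᵥ G = ((∑ i, ‖G i‖ ^ 2 : ℝ) : ℂ) := by
  simp only [dotProduct, Pi.star_apply, RCLike.star_def]
  push_cast
  refine Finset.sum_congr rfl fun i _ => ?_
  rw [← Complex.conj_mul']

/-- `A ⊗ 1 - 1 ⊗ A'` -/
def Bm (A : Matrix ι ι ℂ) (A' : Matrix ι' ι' ℂ) : Matrix (ι × ι') (ι × ι') ℂ :=
  fun a b => A a.1 b.1 * (if a.2 = b.2 then 1 else 0) - (if a.1 = b.1 then 1 else 0) * A' a.2 b.2

theorem Bm_mulVec (A : Matrix ι ι ℂ) (A' : Matrix ι' ι' ℂ) (G : ι × ι' → ℂ) (u : ι) (u' : ι') :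
    (Bm A A' *ᵥ G) (u, u') = ∑ v, A u v * G (v, u') - ∑ v', A' u' v' * G (u, v') := by
  simp only [Matrix.mulVec, dotProduct, Bm, Fintype.sum_prod_type, sub_mul,
    Finset.sum_sub_distrib]
  congr 1
  · refine Finset.sum_congr rfl fun v _ => ?_
    rw [Finset.sum_eq_single u']
    · simp
    · intro b _ hb; simp [Ne.symm hb]
    · simp
  · rw [Finset.sum_eq_single u]
    · simp
    · intro b _ hb; simp [Ne.symm hb]
    · simp

theorem Bm_herm {A : Matrix ι ι ℂ} {A' : Matrix ι' ι' ℂ} (hA : A.IsHermitian)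
    (hA' : A'.IsHermitian) : (Bm A A').IsHermitian := by
  ext a b
  rw [Matrix.conjTranspose_apply, Bm, Bm, star_sub, star_mul', star_mul', hA.apply, hA'.apply]
  congr 2
  · by_cases h : a.2 = b.2
    · simp [h]
    · simp [h, Ne.symm h]
  · by_cases h : a.1 = b.1
    · simp [h]
    · simp [h, Ne.symm h]

open Classical in
/-- the equations `G a = G b` for related `a`, `b` -/
def Em (r : κ → κ → Prop) : Matrix (κ × κ) κ ℂ :=
  fun p c => if r p.1 p.2 then (if c = p.1 then 1 else 0) - (if c = p.2 then 1 else 0) else 0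

open Classical in
theorem Em_mulVec (r : κ → κ → Prop) (G : κ → ℂ) (a b : κ) :
    (Em r *ᵥ G) (a, b) = if r a b then G a - G b else 0 := by
  simp only [Matrix.mulVec, dotProduct, Em]
  by_cases h : r a b
  · simp [h, sub_mul, Finset.sum_sub_distrib]
  · simp [h]

theorem Em_zero_iff (r : κ → κ → Prop) (G : κ → ℂ) :
    Em r *ᵥ G = 0 ↔ ∀ a b, r a b → G a = G b := by
  constructor
  · intro h a b hab
    have := congrFun h (a, b)
    rw [Em_mulVec, if_pos hab] at this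
    exact sub_eq_zero.mp this
  · intro h
    funext ⟨a, b⟩
    rw [Em_mulVec]
    split_ifs with hab
    · rw [h a b hab, sub_self]; rfl
    · rfl

/-- the determinant -/
def Dm (B : Matrix κ κ ℂ) (r : κ → κ → Prop) : ℂ := (B * B + (Em r)ᴴ * Em r).det

theorem Dm_zero_iff {B : Matrix κ κ ℂ} (hB : B.IsHermitian) (r : κ → κ → Prop) :
    Dm B r = 0 ↔ ∃ G : κ → ℂ, G ≠ 0 ∧ B *ᵥ G = 0 ∧ ∀ a b, r a b → G a = G b := by
  rw [Dm, ← Matrix.exists_mulVec_eq_zero_iff]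
  constructor
  · rintro ⟨G, hG, h⟩
    refine ⟨G, hG, ?_⟩
    have h1 : star G ⬝ᵥ ((B * B + (Em r)ᴴ * Em r) *ᵥ G) =
        star (B *ᵥ G) ⬝ᵥ (B *ᵥ G) + star (Em r *ᵥ G) ⬝ᵥ (Em r *ᵥ G) := by
      rw [Matrix.add_mulVec, dotProduct_add, Matrix.star_mulVec, Matrix.star_mulVec,
        ← Matrix.mulVec_mulVec, ← Matrix.mulVec_mulVec, hB.eq, ← Matrix.dotProduct_mulVec,
        ← Matrix.dotProduct_mulVec]
    rw [h, dotProduct_zero, star_dot_self, star_dot_self] at h1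
    have h2 : ∑ i, ‖(B *ᵥ G) i‖ ^ 2 + ∑ i, ‖(Em r *ᵥ G) i‖ ^ 2 = 0 := by
      exact_mod_cast h1.symm
    have p1 : 0 ≤ ∑ i, ‖(B *ᵥ G) i‖ ^ 2 := Finset.sum_nonneg fun i _ => by positivity
    have p2 : 0 ≤ ∑ i, ‖(Em r *ᵥ G) i‖ ^ 2 := Finset.sum_nonneg fun i _ => by positivity
    have z1 : ∑ i, ‖(B *ᵥ G) i‖ ^ 2 = 0 := by linarith
    have z2 : ∑ i, ‖(Em r *ᵥ G) i‖ ^ 2 = 0 := by linarith
    constructor
    · funext i
      have := (Finset.sum_eq_zero_iff_of_nonneg (fun i _ => by positivity)).mp z1 i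
        (Finset.mem_univ i)
      simpa using this
    · rw [← Em_zero_iff]
      funext i
      have := (Finset.sum_eq_zero_iff_of_nonneg (fun i _ => by positivity)).mp z2 i
        (Finset.mem_univ i)
      simpa using this
  · rintro ⟨G, hG, h1, h2⟩
    refine ⟨G, hG, ?_⟩
    rw [Matrix.add_mulVec, ← Matrix.mulVec_mulVec, ← Matrix.mulVec_mulVec, h1,
      (Em_zero_iff r G).mpr h2, Matrix.mulVec_zero, Matrix.mulVec_zero, add_zero]

/-- a kernel vector gives a common eigenvalue -/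
theorem common_of_ker {A : Matrix ι ι ℂ} {A' : Matrix ι' ι' ℂ} (hA : A.IsHermitian)
    (V : Submodule ℂ (ι → ℂ)) (V' : Submodule ℂ (ι' → ℂ)) {G : ι × ι' → ℂ} (hG : G ≠ 0)
    (hB : Bm A A' *ᵥ G = 0) (hV : ∀ u', (fun u => G (u, u')) ∈ V)
    (hV' : ∀ u, (fun u' => G (u, u')) ∈ V') :
    ∃ (c : ℝ) (F : ι → ℂ) (F' : ι' → ℂ), F ∈ V ∧ F ≠ 0 ∧ F' ∈ V' ∧ F' ≠ 0 ∧
      A *ᵥ F = (c : ℂ) • F ∧ A' *ᵥ F' = (c : ℂ) • F' := by
  let Z : Matrix ι ι' ℂ := Matrix.of fun u u' => G (u, u')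
  have hAZ : A * Z = Z * A'ᵀ := by
    ext u u'
    have h1 := congrFun hB (u, u')
    rw [Bm_mulVec] at h1
    simp only [Matrix.mul_apply, Z, Matrix.of_apply, Matrix.transpose_apply]
    have h2 : ∑ v, A u v * G (v, u') = ∑ v', A' u' v' * G (u, v') := by
      simpa [sub_eq_zero] using h1
    rw [h2]
    exact Finset.sum_congr rfl fun v _ => mul_comm _ _
  have hcol : ∀ x : ι' → ℂ, Z *ᵥ x ∈ V := by
    intro x
    have : Z *ᵥ x = ∑ u', x u' • (fun u => G (u, u')) := by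
      funext u
      simp only [Matrix.mulVec, dotProduct, Z, Matrix.of_apply, Finset.sum_apply, Pi.smul_apply,
        smul_eq_mul]
      exact Finset.sum_congr rfl fun v _ => mul_comm _ _
    rw [this]
    exact V.sum_mem fun u' _ => V.smul_mem _ (hV u')
  have hrow : ∀ x : ι → ℂ, Zᵀ *ᵥ x ∈ V' := by
    intro x
    have : Zᵀ *ᵥ x = ∑ u, x u • (fun u' => G (u, u')) := by
      funext u'
      simp only [Matrix.mulVec, dotProduct, Z, Matrix.of_apply, Finset.sum_apply, Pi.smul_apply,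
        smul_eq_mul, Matrix.transpose_apply]
      exact Finset.sum_congr rfl fun v _ => mul_comm _ _
    rw [this]
    exact V'.sum_mem fun u _ => V'.smul_mem _ (hV' u)
  obtain ⟨⟨u₀, u₀'⟩, h0⟩ := Function.ne_iff.mp hG
  let U : Submodule ℂ (ι → ℂ) := LinearMap.range Z.mulVecLin
  have hU : ∀ F ∈ U, A *ᵥ F ∈ U := by
    rintro _ ⟨x, rfl⟩
    refine ⟨A'ᵀ *ᵥ x, ?_⟩
    rw [Matrix.mulVecLin_apply, Matrix.mulVecLin_apply, Matrix.mulVec_mulVec,
      Matrix.mulVec_mulVec, hAZ]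
  let ψ : ι → ℂ := Z *ᵥ Pi.single u₀' 1
  have hψ : ψ ∈ U := ⟨_, rfl⟩
  have hψ0 : ψ ≠ 0 := by
    intro h
    have := congrFun h u₀
    simp only [ψ, Matrix.mulVec_single_one, Matrix.col_apply, Z, Matrix.of_apply] at this
    exact h0 this
  have hs : 0 < (star ψ ⬝ᵥ ψ).re := by
    rw [star_dot_self, Complex.ofReal_re]
    obtain ⟨i, hi⟩ := Function.ne_iff.mp hψ0
    have h1 : 0 < ‖ψ i‖ := norm_pos_iff.mpr hi
    exact lt_of_lt_of_le (by positivity) (Finset.single_le_sum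
      (f := fun i => ‖ψ i‖ ^ 2) (fun i _ => by positivity) (Finset.mem_univ i))
  obtain ⟨c, F, hF, hF0, -, hc⟩ := exists_eig A hA U hU ψ hψ
    ((star ψ ⬝ᵥ (A *ᵥ ψ)).re / (star ψ ⬝ᵥ ψ).re - 1) (by
      rw [sub_mul, div_mul_cancel₀ _ hs.ne']
      linarith)
  obtain ⟨x, hx⟩ := hF
  rw [Matrix.mulVecLin_apply] at hx
  refine ⟨c, F, Zᵀ *ᵥ star F, hx ▸ hcol x, hF0, hrow _, ?_, hc, ?_⟩
  · intro h
    apply star_dot_self_ne hF0
    nth_rewrite 2 [← hx]
    rw [Matrix.dotProduct_mulVec, ← Matrix.mulVec_transpose, h, zero_dotProduct]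
  · have h1 : A' * Zᵀ = Zᵀ * Aᵀ := by
      rw [← Matrix.transpose_mul, hAZ, Matrix.transpose_mul, Matrix.transpose_transpose]
    have h2 : Aᵀ *ᵥ star F = (c : ℂ) • star F := by
      have h3 : star (A *ᵥ F) = star ((c : ℂ) • F) := congrArg star hc
      rw [Matrix.star_mulVec, hA.eq, ← Matrix.mulVec_transpose, star_smul, RCLike.star_def,
        Complex.conj_ofReal] at h3
      exact h3
    rw [Matrix.mulVec_mulVec, h1, ← Matrix.mulVec_mulVec, h2, Matrix.mulVec_smul]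

/-- a common eigenvalue gives a kernel vector -/
theorem ker_of_common {A : Matrix ι ι ℂ} {A' : Matrix ι' ι' ℂ} {c : ℂ} {F : ι → ℂ} {F' : ι' → ℂ}
    (hF : F ≠ 0) (hF' : F' ≠ 0) (h : A *ᵥ F = c • F) (h' : A' *ᵥ F' = c • F') :
    (fun p : ι × ι' => F p.1 * F' p.2) ≠ 0 ∧ Bm A A' *ᵥ (fun p : ι × ι' => F p.1 * F' p.2) = 0 := by
  constructor
  · obtain ⟨i, hi⟩ := Function.ne_iff.mp hF
    obtain ⟨j, hj⟩ := Function.ne_iff.mp hF'
    intro h0
    have := congrFun h0 (i, j)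
    exact mul_ne_zero hi hj this
  · funext ⟨u, u'⟩
    rw [Bm_mulVec]
    have h1 := congrFun h u
    have h2 := congrFun h' u'
    simp only [Matrix.mulVec, dotProduct, Pi.smul_apply, smul_eq_mul] at h1 h2
    have e1 : ∑ v, A u v * (F v * F' u') = (c * F u) * F' u' := by
      rw [← h1, Finset.sum_mul]
      exact Finset.sum_congr rfl fun v _ => by ring
    have e2 : ∑ v', A' u' v' * (F u * F' v') = F u * (c * F' u') := by
      rw [← h2, Finset.mul_sum]
      exact Finset.sum_congr rfl fun v _ => by ring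
    rw [e1, e2]
    simp
    ring

end

end Pool.Agent.SG65
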