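import Mathlib

/-!
# MP_4be2f9 (helper65): tensor powers of matrices, symmetric tensors
-/

set_option autoImplicit false

open scoped ComplexConjugate Matrix
open Complex

namespace Pool.Agent.SG65

noncomputable section

variable {N : ℕ}

/-- words of length `n` over `N` letters -/
abbrev W (n N : ℕ) : Type := Fin n → Fin N

/-- the `n`-th tensor power of a matrix -/
def tp (n : ℕ) (g : Matrix (Fin N) (Fin N) ℂ) : Matrix (W n N) (W n N) ℂ :=
  fun u v => ∏ t, g (u t) (v t)

/-- the `n`-th tensor power of a vector -/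
def ten (n : ℕ) (x : Fin N → ℂ) : W n N → ℂ := fun u => ∏ t, x (u t)

theorem tp_mulVec_ten (n : ℕ) (g : Matrix (Fin N) (Fin N) ℂ) (x : Fin N → ℂ) :
    tp n g *ᵥ ten n x = ten n (g *ᵥ x) := by
  funext u
  simp only [Matrix.mulVec, dotProduct, tp, ten, ← Finset.prod_mul_distrib]
  rw [Finset.prod_univ_sum, Fintype.piFinset_univ]

theorem tp_mul (n : ℕ) (g h : Matrix (Fin N) (Fin N) ℂ) : tp n (g * h) = tp n g * tp n h := by
  ext u v
  simp only [Matrix.mul_apply, tp, ← Finset.prod_mul_distrib]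
  rw [Finset.prod_univ_sum, Fintype.piFinset_univ]

theorem tp_one (n : ℕ) : tp n (1 : Matrix (Fin N) (Fin N) ℂ) = 1 := by
  ext u v
  by_cases h : u = v
  · subst h; simp [tp]
  · rw [Matrix.one_apply_ne h]
    obtain ⟨t, ht⟩ := Function.ne_iff.mp h
    exact Finset.prod_eq_zero (Finset.mem_univ t) (Matrix.one_apply_ne ht)

theorem tp_conjTranspose (n : ℕ) (g : Matrix (Fin N) (Fin N) ℂ) : (tp n g)ᴴ = tp n gᴴ := by
  ext u v
  simp [tp, Matrix.conjTranspose_apply]

/-- the hermitian form of `ten n x`, `ten n y` -/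
theorem star_ten_dot (n : ℕ) (x y : Fin N → ℂ) :
    star (ten n x) ⬝ᵥ ten n y = (star x ⬝ᵥ y) ^ n := by
  simp only [dotProduct, ten, Pi.star_apply, star_prod, ← Finset.prod_mul_distrib]
  have h := Finset.prod_univ_sum (fun _ : Fin n => (Finset.univ : Finset (Fin N)))
    (fun _ j => star (x j) * y j)
  rw [Fintype.piFinset_univ] at h
  rw [← h]
  simp

/-- the number of occurrences of a letter -/
def cnt {n : ℕ} (u : W n N) (i : Fin N) : ℕ := (Finset.univ.filter fun t => u t = i).card

theorem sum_cnt {n : ℕ} (u : W n N) : ∑ i, cnt u i = n := by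
  classical
  have := Finset.card_eq_sum_card_fiberwise (f := u) (s := Finset.univ) (t := Finset.univ)
    (fun _ _ => Finset.mem_univ _)
  simpa [cnt] using this.symm

theorem prod_eq_cnt {n : ℕ} {M : Type*} [CommMonoid M] (u : W n N) (z : Fin N → M) :
    ∏ t, z (u t) = ∏ i, z i ^ cnt u i := by
  classical
  rw [← Finset.prod_fiberwise_of_maps_to (s := Finset.univ) (t := Finset.univ) (g := u)
    (fun _ _ => Finset.mem_univ _)]
  refine Finset.prod_congr rfl fun i _ => ?_
  rw [cnt, ← Finset.prod_const]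
  refine Finset.prod_congr rfl fun t ht => ?_
  rw [(Finset.mem_filter.mp ht).2]

/-- words with the same letter counts differ by a permutation of the positions -/
theorem exists_perm {n : ℕ} {u v : W n N} (h : ∀ i, cnt u i = cnt v i) :
    ∃ σ : Equiv.Perm (Fin n), v = u ∘ σ := by
  classical
  have h1 : ∀ i, Nonempty ({t // v t = i} ≃ {t // u t = i}) := by
    intro i
    refine ⟨Fintype.equivOfCardEq ?_⟩
    rw [Fintype.card_subtype, Fintype.card_subtype]
    exact (h i).symm
  let e : ∀ i, {t // v t = i} ≃ {t // u t = i} := fun i => Classical.choice (h1 i)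
  let σ : Equiv.Perm (Fin n) :=
    ((Equiv.sigmaFiberEquiv v).symm.trans (Equiv.sigmaCongrRight e)).trans
      (Equiv.sigmaFiberEquiv u)
  refine ⟨σ, ?_⟩
  funext t
  have : u (σ t) = v t := by
    change u ((e (v t)) ⟨t, rfl⟩).1 = v t
    exact ((e (v t)) ⟨t, rfl⟩).2
  exact this.symm

/-- symmetric tensors -/
def IsSym {n : ℕ} (F : W n N → ℂ) : Prop := ∀ u v : W n N, (∀ i, cnt u i = cnt v i) → F u = F v

theorem cnt_comp {n : ℕ} (u : W n N) (σ : Equiv.Perm (Fin n)) (i : Fin N) :
    cnt (u ∘ σ) i = cnt u i := by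
  classical
  unfold cnt
  refine Finset.card_bij (fun t _ => σ t) ?_ ?_ ?_
  · intro t ht
    simpa using ht
  · intro t _ t' _ h
    exact σ.injective h
  · intro t ht
    exact ⟨σ.symm t, by simpa using ht, by simp⟩

theorem isSym_ten (n : ℕ) (x : Fin N → ℂ) : IsSym (ten n x) := by
  intro u v h
  simp only [ten, prod_eq_cnt]
  exact Finset.prod_congr rfl fun i _ => by rw [h i]

theorem IsSym.tp {n : ℕ} {F : W n N → ℂ} (hF : IsSym F) (g : Matrix (Fin N) (Fin N) ℂ) :
    IsSym (tp n g *ᵥ F) := by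
  intro u v h
  obtain ⟨σ, rfl⟩ := exists_perm h
  simp only [Matrix.mulVec, dotProduct]
  refine Fintype.sum_equiv (Equiv.arrowCongr σ.symm (Equiv.refl _)) _ _ fun w => ?_
  have e1 : (Equiv.arrowCongr σ.symm (Equiv.refl (Fin N))) w = w ∘ σ := by
    funext t
    simp [Equiv.arrowCongr]
  rw [e1]
  congr 1
  · simp only [SG65.tp, Function.comp]
    exact (Equiv.prod_comp σ (fun t => g (u t) (w t))).symm
  · exact hF _ _ fun i => (cnt_comp w σ i).symm

theorem IsSym.add {n : ℕ} {F G : W n N → ℂ} (hF : IsSym F) (hG : IsSym G) : IsSym (F + G) :=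
  fun u v h => by rw [Pi.add_apply, Pi.add_apply, hF u v h, hG u v h]

theorem IsSym.smul {n : ℕ} {F : W n N → ℂ} (hF : IsSym F) (c : ℂ) : IsSym (c • F) :=
  fun u v h => by rw [Pi.smul_apply, Pi.smul_apply, hF u v h]

theorem IsSym.sum {n : ℕ} {ι : Type*} (s : Finset ι) {F : ι → W n N → ℂ}
    (hF : ∀ i ∈ s, IsSym (F i)) : IsSym (∑ i ∈ s, F i) := by
  intro u v h
  rw [Finset.sum_apply, Finset.sum_apply]
  exact Finset.sum_congr rfl fun i hi => hF i hi u v h

/-- the submodule of symmetric tensors -/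
def Sy (n N : ℕ) : Submodule ℂ (W n N → ℂ) where
  carrier := {F | IsSym F}
  add_mem' h1 h2 := h1.add h2
  zero_mem' := fun _ _ _ => rfl
  smul_mem' c _ h := h.smul c

end

end Pool.Agent.SG65
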