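import Pool.Agent.Lib.MP_4be2f9_h65.Bair
import Pool.Agent.Lib.MP_4be2f9_h65.Rayl
import Pool.Agent.Lib.MP_4be2f9_h65.Dens2

/-!
# MP_4be2f9 (helper65): the theorem
-/

set_option autoImplicit false

open scoped ComplexConjugate Matrix Topology
open Complex Filter

namespace Pool.Agent.SG65

noncomputable section

variable {N : ℕ}

/-- `SU(N)` -/
abbrev SU (N : ℕ) : Type := Matrix.specialUnitaryGroup (Fin N) ℂ

theorem coe_inv_SU (g : SU N) : ((g⁻¹ : SU N) : Matrix (Fin N) (Fin N) ℂ) = (g.1)ᴴ := rfl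

/-- the elements of `S` -/
def El (b : SU N) (hN : 0 < N) (L κ : ℕ) (β : ℝ) : Bool ⊕ (Fin L × Bool) ⊕ Fin κ → SU N
  | Sum.inl true => b
  | Sum.inl false => b⁻¹
  | Sum.inr (Sum.inl (l, true)) => ⟨rho (ev N) ((l + 1 : ℝ) * β), rho_mem (ev_unit hN) _⟩
  | Sum.inr (Sum.inl (l, false)) => ⟨rho (ev N) (-((l + 1 : ℝ) * β)), rho_mem (ev_unit hN) _⟩
  | Sum.inr (Sum.inr _) => 1

theorem sum_tp_El (z : Fin N → ℂ) (b : SU N) (hb : b.1 = Matrix.diagonal z) (hN : 0 < N)
    (L κ n : ℕ) (β : ℝ) :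
    ∑ i, tp n (El b hN L κ β i).1 = An n z (κ : ℝ) L β := by
  rw [Fintype.sum_sum_type, Fintype.sum_sum_type, Fintype.sum_prod_type, Fintype.sum_bool]
  simp only [Fintype.sum_bool, El, coe_inv_SU, hb]
  rw [An, ← tp_conjTranspose]
  have h1 : ∑ _x : Fin κ, tp n ((1 : SU N) : Matrix (Fin N) (Fin N) ℂ) =
      ((κ : ℝ) : ℂ) • (1 : Matrix (W n N) (W n N) ℂ) := by
    have : ((1 : SU N) : Matrix (Fin N) (Fin N) ℂ) = 1 := rfl
    rw [this, tp_one, Finset.sum_const, Finset.card_univ, Fintype.card_fin]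
    rw [← Nat.cast_smul_eq_nsmul ℂ]
    simp
  rw [h1, Finset.sum_range (fun l => tp n (rho (ev N) ((l + 1 : ℝ) * β)) +
    tp n (rho (ev N) (-((l + 1 : ℝ) * β))))]
  abel

theorem exp_ne_one_of {β : ℝ} (hβ : ∀ r : ℚ, β ≠ 2 * Real.pi * r) (hN : 0 < N) {m : ℤ}
    (hm : m ≠ 0) : cexp ((N : ℂ) * ((m * β : ℝ) : ℂ) * I) ≠ 1 := by
  intro h
  rw [Complex.exp_eq_one_iff] at h
  obtain ⟨k, hk⟩ := h
  have h1 : ((N * (m * β) : ℝ) : ℂ) = ((k * (2 * Real.pi) : ℝ) : ℂ) := by
    apply mul_right_cancel₀ I_ne_zero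
    push_cast at hk ⊢
    rw [hk]; ring
  have h2 : N * (m * β) = k * (2 * Real.pi) := Complex.ofReal_injective h1
  have hN' : (N : ℝ) ≠ 0 := by exact_mod_cast hN.ne'
  have hm' : (m : ℝ) ≠ 0 := by exact_mod_cast hm
  apply hβ (k / (N * m))
  push_cast
  field_simp
  linarith

theorem rho_offdiag (hN : 2 ≤ N) (s : ℝ) (h : rho (ev N) s ⟨0, by omega⟩ ⟨1, by omega⟩ = 0) :
    cexp ((N : ℂ) * s * I) = 1 := by
  rw [rho_ev_apply (by omega), if_neg (by simp [Fin.ext_iff]), zero_add] at h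
  have h1 := (mul_eq_zero.mp h).resolve_left (Complex.exp_ne_zero _)
  have hN' : (N : ℂ) ≠ 0 := by
    have : N ≠ 0 := by omega
    exact_mod_cast this
  have h2 := (div_eq_zero_iff.mp h1).resolve_right hN'
  exact sub_eq_zero.mp h2

theorem El_injective (hN : 2 ≤ N) {z : Fin N → ℂ} (hz : Gen z) {b : SU N}
    (hb : b.1 = Matrix.diagonal z) {β : ℝ} (hβ : ∀ r : ℚ, β ≠ 2 * Real.pi * r) (L κ : ℕ)
    (hκ : κ ≤ 1) : Function.Injective (El b (by omega) L κ β) := by
  have hN0 : 0 < N := by omega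
  -- the diagonal elements
  have hbinv : (b⁻¹ : SU N).1 = Matrix.diagonal (star z) := by
    rw [coe_inv_SU, hb, Matrix.diagonal_conjTranspose]
  have h01 : (⟨0, by omega⟩ : Fin N) ≠ ⟨1, by omega⟩ := by simp [Fin.ext_iff]
  have hrho : ∀ m : ℤ, m ≠ 0 → rho (ev N) (m * β) ⟨0, by omega⟩ ⟨1, by omega⟩ ≠ 0 := by
    intro m hm h
    exact exp_ne_one_of hβ hN0 hm (rho_offdiag hN _ h)
  have hbb : b ≠ b⁻¹ := by
    intro h
    have h1 := congrArg Subtype.val h
    rw [hbinv, hb] at h1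
    have h2 : ∀ i, z i ^ 2 = 1 := by
      intro i
      have h3 := congrFun (congrFun h1 i) i
      rw [Matrix.diagonal_apply_eq, Matrix.diagonal_apply_eq, Pi.star_apply, RCLike.star_def] at h3
      rw [pow_two]
      nth_rewrite 1 [h3]
      rw [Complex.conj_mul', hz.unit i]
      simp
    exact hz.pow_ne h01 two_ne_zero ((h2 _).trans (h2 _).symm)
  have hb1 : b ≠ 1 := by
    intro h
    have h1 := congrArg Subtype.val h
    rw [hb] at h1
    have h2 : ∀ i, z i = 1 := by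
      intro i
      have h3 := congrFun (congrFun h1 i) i
      rw [Matrix.diagonal_apply_eq] at h3
      rw [h3]
      exact Matrix.one_apply_eq i
    exact hz.pow_ne h01 one_ne_zero (by rw [h2, h2])
  have hbi1 : b⁻¹ ≠ 1 := fun h => hb1 (inv_eq_one.mp h)
  have hdiag : ∀ (w : Fin N → ℂ) (m : ℤ), m ≠ 0 → Matrix.diagonal w ≠ rho (ev N) (m * β) := by
    intro w m hm h
    apply hrho m hm
    rw [← h, Matrix.diagonal_apply_ne _ h01]
  have hone : ∀ m : ℤ, m ≠ 0 → (1 : Matrix (Fin N) (Fin N) ℂ) ≠ rho (ev N) (m * β) := by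
    intro m hm
    rw [← Matrix.diagonal_one]
    exact hdiag _ m hm
  have hrr : ∀ m m' : ℤ, rho (ev N) (m * β) = rho (ev N) (m' * β) → m = m' := by
    intro m m' h
    by_contra hne
    apply hone (m - m') (sub_ne_zero.mpr hne)
    have h1 : rho (ev N) ((m - m' : ℤ) * β) = rho (ev N) (m * β) * rho (ev N) (-(m' * β)) := by
      rw [← rho_add (ev_unit hN0)]
      congr 1
      push_cast
      ring
    rw [h1, h, rho_mul_neg (ev_unit hN0)]
  -- the integer of an index
  let mm : Fin L × Bool → ℤ := fun p => if p.2 then (p.1 + 1 : ℤ) else -(p.1 + 1 : ℤ)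
  have hmm : ∀ p, (El b hN0 L κ β (Sum.inr (Sum.inl p))).1 = rho (ev N) (mm p * β) := by
    rintro ⟨l, _ | _⟩
    · have e1 : ((mm (l, false) : ℤ) : ℝ) * β = -((l + 1 : ℝ) * β) := by
        simp [mm]; ring
      rw [e1]; rfl
    · have e1 : ((mm (l, true) : ℤ) : ℝ) * β = (l + 1 : ℝ) * β := by
        simp [mm]
      rw [e1]; rfl
  have hmm0 : ∀ p, mm p ≠ 0 := by
    rintro ⟨l, _ | _⟩
    · simp only [mm]; simp; omega
    · simp only [mm]; simp; omega
  have hmminj : ∀ p q, mm p = mm q → p = q := by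
    rintro ⟨l, _ | _⟩ ⟨l', _ | _⟩ h
    · simp only [mm] at h
      simp at h
      have : l = l' := Fin.ext (by omega)
      rw [this]
    · simp only [mm] at h
      simp at h
      omega
    · simp only [mm] at h
      simp at h
      omega
    · simp only [mm] at h
      simp at h
      have : l = l' := Fin.ext (by omega)
      rw [this]
  rintro ((_ | _) | p | i) ((_ | _) | q | j) h
  · rfl
  · exact absurd h.symm hbb
  · have h1 := congrArg Subtype.val h
    rw [hmm] at h1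
    exact absurd (hbinv.symm.trans h1) (hdiag _ _ (hmm0 q))
  · exact absurd h hbi1
  · exact absurd h hbb
  · rfl
  · have h1 := congrArg Subtype.val h
    rw [hmm] at h1
    exact absurd (hb.symm.trans h1) (hdiag _ _ (hmm0 q))
  · exact absurd h hb1
  · have h1 := congrArg Subtype.val h
    rw [hmm] at h1
    exact absurd (hbinv.symm.trans h1.symm) (hdiag _ _ (hmm0 p))
  · have h1 := congrArg Subtype.val h
    rw [hmm] at h1
    exact absurd (hb.symm.trans h1.symm) (hdiag _ _ (hmm0 p))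
  · have h1 := congrArg Subtype.val h
    rw [hmm, hmm] at h1
    rw [hmminj p q (hrr _ _ h1)]
  · have h1 := congrArg Subtype.val h
    rw [hmm] at h1
    exact absurd h1.symm (hone _ (hmm0 p))
  · exact absurd h.symm hbi1
  · exact absurd h.symm hb1
  · have h1 := congrArg Subtype.val h
    rw [hmm] at h1
    exact absurd h1 (hone _ (hmm0 q))
  · have : i = j := Fin.ext (by have := i.2; have := j.2; omega)
    rw [this]

end

end Pool.Agent.SG65
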