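import Pool.Agent.Lib.MP_4be2f9_h65.Tensor
import Pool.Agent.Lib.MP_4be2f9_h65.Rho

/-!
# MP_4be2f9 (helper65): the derivative of the tensor power at `0`, and its square on symmetric
tensors
-/

set_option autoImplicit false

open scoped ComplexConjugate Matrix Topology
open Complex Filter

namespace Pool.Agent.SG65

noncomputable section

variable {N n : ℕ}

/-- the adjacency matrix of the Hamming graph -/
def Xn (n N : ℕ) : Matrix (W n N) (W n N) ℂ := fun u v =>
  ∑ t, (∏ s ∈ Finset.univ.erase t, if u s = v s then (1 : ℂ) else 0) *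
    (if u t = v t then 0 else 1)

theorem Xn_conjTranspose : (Xn n N)ᴴ = Xn n N := by
  ext u v
  simp only [Matrix.conjTranspose_apply, Xn, star_sum, star_mul', star_prod]
  refine Finset.sum_congr rfl fun t _ => ?_
  congr 1
  · refine Finset.prod_congr rfl fun s _ => ?_
    by_cases h : u s = v s
    · simp [h]
    · have h' : v s ≠ u s := fun h' => h h'.symm
      simp [h, h']
  · by_cases h : u t = v t
    · simp [h]
    · have h' : v t ≠ u t := fun h' => h h'.symm
      simp [h, h']

theorem Xn_mulVec (F : W n N → ℂ) (u : W n N) :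
    (Xn n N *ᵥ F) u =
      ∑ t, ∑ j ∈ Finset.univ.filter (fun j => j ≠ u t), F (Function.update u t j) := by
  classical
  simp only [Matrix.mulVec, dotProduct, Xn, Finset.sum_mul]
  rw [Finset.sum_comm]
  refine Finset.sum_congr rfl fun t _ => ?_
  have hinj : Set.InjOn (fun j => Function.update u t j)
      ((Finset.univ.filter (fun j => j ≠ u t) : Finset (Fin N)) : Set (Fin N)) := by
    intro i _ j _ h
    have := congrFun h t
    simpa using this
  rw [← Finset.sum_image (f := F) (g := fun j => Function.update u t j) hinj]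
  symm
  rw [← Finset.sum_subset (Finset.subset_univ
    ((Finset.univ.filter (fun j => j ≠ u t)).image fun j => Function.update u t j))]
  · refine Finset.sum_congr rfl fun v hv => ?_
    obtain ⟨j, hj, rfl⟩ := Finset.mem_image.mp hv
    have hj' : j ≠ u t := (Finset.mem_filter.mp hj).2
    have h1 : (∏ s ∈ Finset.univ.erase t, if u s = Function.update u t j s then (1 : ℂ) else 0) =
        1 := by
      refine Finset.prod_eq_one fun s hs => ?_
      have : s ≠ t := (Finset.mem_erase.mp hs).1
      simp [Function.update_of_ne this]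
    rw [h1]
    simp [hj'.symm]
  · intro v _ hv
    by_cases h1 : ∀ s ∈ Finset.univ.erase t, u s = v s
    · by_cases h2 : u t = v t
      · simp [h2]
      · exfalso
        apply hv
        rw [Finset.mem_image]
        refine ⟨v t, by simp [Ne.symm h2], ?_⟩
        funext s
        by_cases hs : s = t
        · subst hs; simp
        · rw [Function.update_of_ne hs]
          exact h1 s (Finset.mem_erase.mpr ⟨hs, Finset.mem_univ s⟩)
    · push Not at h1
      obtain ⟨s, hs, hne⟩ := h1
      rw [Finset.prod_eq_zero hs (by simp [hne])]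
      ring

/-- the derivative of the entries of `rho (ev N) s` at `0` -/
theorem hasDerivAt_rho (hN : 0 < N) (i j : Fin N) :
    HasDerivAt (fun s : ℝ => rho (ev N) s i j) (I * (if i = j then 0 else 1)) 0 := by
  have hNC : (N : ℂ) ≠ 0 := by exact_mod_cast hN.ne'
  have h1 : (fun s : ℝ => rho (ev N) s i j) = fun s : ℝ =>
      exp (-(s : ℂ) * I) * ((if i = j then 1 else 0) + (exp ((N : ℂ) * s * I) - 1) / N) := by
    funext s
    exact rho_ev_apply hN s i j
  rw [h1]
  have h2 : HasDerivAt (fun s : ℝ => exp (-(s : ℂ) * I)) (exp (-((0 : ℝ) : ℂ) * I) * (-1 * I)) 0 := by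
    apply HasDerivAt.cexp
    exact ((hasDerivAt_id (0 : ℝ)).ofReal_comp.neg).mul_const I
  have h3 : HasDerivAt (fun s : ℝ => exp ((N : ℂ) * s * I))
      (exp ((N : ℂ) * ((0 : ℝ) : ℂ) * I) * ((N : ℂ) * 1 * I)) 0 := by
    apply HasDerivAt.cexp
    exact ((hasDerivAt_id (0 : ℝ)).ofReal_comp.const_mul (N : ℂ)).mul_const I
  have h4 := h2.mul (((h3.sub_const 1).div_const (N : ℂ)).const_add (if i = j then (1 : ℂ) else 0))
  refine h4.congr_deriv ?_
  by_cases h : i = j
  · simp [h]
    field_simp
    ring
  · simp [h]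
    field_simp

/-- the derivative of the entries of the tensor power at `0` -/
theorem hasDerivAt_tp (hN : 0 < N) (u v : W n N) :
    HasDerivAt (fun s : ℝ => tp n (rho (ev N) s) u v) (I * Xn n N u v) 0 := by
  classical
  have h := HasDerivAt.fun_finsetProd (u := Finset.univ) (x := (0 : ℝ))
    (f := fun (t : Fin n) (s : ℝ) => rho (ev N) s (u t) (v t))
    (f' := fun t => I * (if u t = v t then 0 else 1)) (fun t _ => hasDerivAt_rho hN (u t) (v t))
  have e : (∑ t, (∏ s ∈ Finset.univ.erase t, rho (ev N) 0 (u s) (v s)) •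
      (I * (if u t = v t then (0 : ℂ) else 1))) = I * Xn n N u v := by
    rw [Xn, Finset.mul_sum]
    refine Finset.sum_congr rfl fun t _ => ?_
    simp only [rho_zero, Matrix.one_apply, smul_eq_mul]
    ring
  rw [e] at h
  exact h

/-- the difference quotient of the tensor power along a sequence of vectors -/
theorem tendsto_quot (hN : 0 < N) {α : Type*} {l : Filter α} (l' : ℝ) {b : α → ℝ}
    (hb : Tendsto b l (𝓝[≠] 0)) {F : α → W n N → ℂ} {G : W n N → ℂ} (hF : Tendsto F l (𝓝 G)) :
    Tendsto (fun a => (b a : ℂ)⁻¹ • (tp n (rho (ev N) (l' * b a)) *ᵥ F a - F a)) l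
      (𝓝 ((l' * I) • (Xn n N *ᵥ G))) := by
  classical
  -- the matrices
  have h1 : ∀ u v, Tendsto (fun a => (b a : ℂ)⁻¹ * (tp n (rho (ev N) (l' * b a)) u v -
      (1 : Matrix (W n N) (W n N) ℂ) u v)) l (𝓝 (l' * I * Xn n N u v)) := by
    intro u v
    have h2 : HasDerivAt (fun s : ℝ => tp n (rho (ev N) (l' * s)) u v) (l' * (I * Xn n N u v)) 0 := by
      have h3 : HasDerivAt (fun s : ℝ => l' * s) l' 0 := by
        simpa using (hasDerivAt_id (0 : ℝ)).const_mul l'
      have h4 := hasDerivAt_tp (n := n) hN u v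
      have h5 : HasDerivAt (fun s : ℝ => tp n (rho (ev N) s) u v) (I * Xn n N u v) (l' * 0) := by
        rw [mul_zero]; exact h4
      have h6 := HasDerivAt.scomp (0 : ℝ) h5 h3
      simpa [Function.comp_def, smul_eq_mul] using h6
    have h7 := h2.tendsto_slope
    have h8 := h7.comp hb
    refine Tendsto.congr ?_ (h8.trans (le_of_eq (by rw [mul_assoc])))
    intro a
    simp only [Function.comp, slope, vsub_eq_sub, sub_zero, mul_zero, rho_zero, tp_one]
    rw [Complex.real_smul]
    push_cast
    rfl
  rw [tendsto_pi_nhds]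
  intro u
  have h9 : (fun a => ((b a : ℂ)⁻¹ • (tp n (rho (ev N) (l' * b a)) *ᵥ F a - F a)) u) =
      fun a => ∑ v, ((b a : ℂ)⁻¹ * (tp n (rho (ev N) (l' * b a)) u v -
        (1 : Matrix (W n N) (W n N) ℂ) u v)) * F a v := by
    funext a
    rw [Pi.smul_apply, Pi.sub_apply, smul_eq_mul]
    have e1 : F a u = ∑ v, (1 : Matrix (W n N) (W n N) ℂ) u v * F a v := by
      have := congrFun (Matrix.one_mulVec (F a)) u
      rw [← this]
      rfl
    rw [e1]
    simp only [Matrix.mulVec, dotProduct]
    rw [← Finset.sum_sub_distrib, Finset.mul_sum]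
    refine Finset.sum_congr rfl fun v _ => ?_
    ring
  rw [h9]
  have h10 : ((l' * I) • (Xn n N *ᵥ G)) u = ∑ v, (l' * I * Xn n N u v) * G v := by
    rw [Pi.smul_apply, smul_eq_mul]
    simp only [Matrix.mulVec, dotProduct]
    rw [Finset.mul_sum]
    refine Finset.sum_congr rfl fun v _ => ?_
    ring
  rw [h10]
  refine tendsto_finsetSum _ fun v _ => ?_
  exact (h1 u v).mul ((tendsto_pi_nhds.mp hF) v)

end

end Pool.Agent.SG65
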